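import Mathlib

/-!
# A truncated algebra with one relation

A version of the Golod-Shafarevich inequality for the algebra with one relation.
-/

namespace Pool.Agent.H344.SC

open Module

section free

variable {k : Type*} [Field k] {α : Type*}

/-- The free module on words. -/
abbrev V (k α : Type*) [Field k] := List α →₀ k

/-- Left multiplication by a letter. -/
noncomputable def X (k : Type*) [Field k] {α : Type*} (a : α) : V k α →ₗ[k] V k α :=
  Finsupp.lmapDomain k k (List.cons a)

theorem X_cons [DecidableEq α] (a b : α) (v : V k α) (w : List α) :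
    (X k a v) (b :: w) = if a = b then v w else 0 := by
  unfold X
  rw [Finsupp.lmapDomain_apply]
  split_ifs with h
  · subst h
    exact Finsupp.mapDomain_apply (List.cons_injective) v w
  · refine Finsupp.mapDomain_notin_range _ _ ?_
    rintro ⟨w', hw'⟩
    simp only [List.cons.injEq] at hw'
    exact h hw'.1

theorem X_nil (a : α) (v : V k α) : (X k a v) [] = 0 := by
  unfold X
  rw [Finsupp.lmapDomain_apply]
  refine Finsupp.mapDomain_notin_range _ _ ?_
  rintro ⟨w', hw'⟩
  simp at hw'

/-- The part of a vector starting with a given letter. -/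
noncomputable def Dl (k : Type*) [Field k] {α : Type*} (a : α) : V k α →ₗ[k] V k α :=
  Finsupp.lcomapDomain (List.cons a) List.cons_injective

theorem Dl_apply (a : α) (v : V k α) (w : List α) : Dl k a v w = v (a :: w) := rfl

theorem Dl_X [DecidableEq α] (a b : α) (v : V k α) :
    Dl k a (X k b v) = if b = a then v else 0 := by
  ext w
  rw [Dl_apply, X_cons]
  split_ifs <;> rfl

variable [Fintype α]

theorem decomp (v : V k α) :
    v = Finsupp.single [] (v []) + ∑ a, X k a (Dl k a v) := by
  classical
  ext w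
  rw [Finsupp.add_apply, Finsupp.finset_sum_apply]
  rcases w with _ | ⟨b, w⟩
  · simp [X_nil]
  · simp only [X_cons, Dl_apply]
    rw [Finset.sum_ite_eq' Finset.univ b]
    simp

/-- The span of the images under the letters. -/
noncomputable def mm (J : Submodule k (V k α)) : Submodule k (V k α) := ⨆ a, J.map (X k a)

theorem mem_mm {J : Submodule k (V k α)} (a : α) {v : V k α} (hv : v ∈ J) : X k a v ∈ mm J :=
  Submodule.mem_iSup_of_mem a (Submodule.mem_map_of_mem hv)

theorem mm_mono {J J' : Submodule k (V k α)} (h : J ≤ J') : mm J ≤ mm J' :=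
  iSup_mono fun _ => Submodule.map_mono h

theorem mm_le {J A : Submodule k (V k α)} (h : ∀ a, ∀ v ∈ J, X k a v ∈ A) : mm J ≤ A := by
  refine iSup_le fun a => ?_
  rintro _ ⟨v, hv, rfl⟩
  exact h a v hv

/-- The comparison map. -/
noncomputable def Psi (J : Submodule k (V k α)) : V k α →ₗ[k] k × (α → V k α ⧸ J) :=
  LinearMap.prod (Finsupp.lapply []) (LinearMap.pi fun a => J.mkQ ∘ₗ Dl k a)

theorem Psi_ker (J : Submodule k (V k α)) : LinearMap.ker (Psi J) = mm J := by
  classical
  apply le_antisymm
  · intro v hv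
    rw [LinearMap.mem_ker] at hv
    have h1 : v [] = 0 := congrArg Prod.fst hv
    have h2 : ∀ a, Dl k a v ∈ J := by
      intro a
      have := congrFun (congrArg Prod.snd hv) a
      exact (Submodule.Quotient.mk_eq_zero J).1 this
    rw [decomp v, h1, Finsupp.single_zero, zero_add]
    exact Submodule.sum_mem _ fun a _ => mem_mm a (h2 a)
  · refine mm_le fun a v hv => ?_
    rw [LinearMap.mem_ker]
    refine Prod.ext (X_nil a v) ?_
    funext b
    change J.mkQ (Dl k b (X k a v)) = 0
    rw [Dl_X]
    split_ifs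
    · exact (Submodule.Quotient.mk_eq_zero J).2 hv
    · simp

theorem Psi_surj (J : Submodule k (V k α)) : Function.Surjective (Psi J) := by
  classical
  rintro ⟨c, f⟩
  choose v hv using fun a => J.mkQ_surjective (f a)
  refine ⟨Finsupp.single [] c + ∑ a, X k a (v a), ?_⟩
  refine Prod.ext ?_ ?_
  · change (Finsupp.single [] c + ∑ a, X k a (v a) : V k α) [] = c
    rw [Finsupp.add_apply, Finsupp.finset_sum_apply]
    simp [X_nil]
  · funext b
    change J.mkQ (Dl k b (Finsupp.single [] c + ∑ a, X k a (v a))) = f b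
    have h1 : Dl k b (Finsupp.single [] c) = 0 := by
      ext w
      rw [Dl_apply]
      simp
    rw [map_add, h1, zero_add, map_sum]
    simp only [Dl_X]
    rw [Finset.sum_ite_eq' Finset.univ b]
    simp [hv]

/-- The isomorphism. -/
noncomputable def mmEquiv (J : Submodule k (V k α)) : (V k α ⧸ mm J) ≃ₗ[k] k × (α → V k α ⧸ J) :=
  (Submodule.quotEquivOfEq _ _ (Psi_ker J).symm).trans
    ((Psi J).quotKerEquivOfSurjective (Psi_surj J))

theorem finite_mm (J : Submodule k (V k α)) [FiniteDimensional k (V k α ⧸ J)] :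
    FiniteDimensional k (V k α ⧸ mm J) :=
  Module.Finite.equiv (mmEquiv J).symm

theorem finrank_mm (J : Submodule k (V k α)) [FiniteDimensional k (V k α ⧸ J)] :
    finrank k (V k α ⧸ mm J) = 1 + Fintype.card α * finrank k (V k α ⧸ J) := by
  have hfree : Module.Free k (V k α ⧸ J) := Module.Free.of_divisionRing k _
  rw [(mmEquiv J).finrank_eq, Module.finrank_prod, Module.finrank_self, Module.finrank_pi_fintype]
  simp

/-- Stability under the letters. -/
def Stable (J : Submodule k (V k α)) : Prop := ∀ a, ∀ v ∈ J, X k a v ∈ J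

theorem Stable.mm_le {J : Submodule k (V k α)} (h : Stable J) : mm J ≤ J :=
  Pool.Agent.H344.SC.mm_le h

theorem Stable.mm {J : Submodule k (V k α)} (h : Stable J) : Stable (mm J) :=
  fun a _ hv => mem_mm a (h.mm_le hv)

/-- The operator `A` is `1 + ∑ ℓ a X a` up to terms of degree at least two. -/
def Lin (A : Module.End k (V k α)) (ℓ : α → k) : Prop :=
  ∀ J : Submodule k (V k α), Stable J → ∀ v ∈ J, A v - v - ∑ a, ℓ a • X k a v ∈ mm (mm J)

theorem Lin.sub_mem {A : Module.End k (V k α)} {ℓ : α → k} (h : Lin A ℓ)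
    {J : Submodule k (V k α)} (hJ : Stable J) {v : V k α} (hv : v ∈ J) : A v - v ∈ mm J := by
  have h1 := mm_mono hJ.mm_le (h J hJ v hv)
  have h2 : ∑ a, ℓ a • X k a v ∈ mm J :=
    Submodule.sum_mem _ fun a _ => Submodule.smul_mem _ _ (mem_mm a hv)
  have := Submodule.add_mem _ h1 h2
  rwa [sub_add_cancel] at this

theorem Lin.mem {A : Module.End k (V k α)} {ℓ : α → k} (h : Lin A ℓ)
    {J : Submodule k (V k α)} (hJ : Stable J) {v : V k α} (hv : v ∈ J) : A v ∈ J := by
  have := Submodule.add_mem _ (hJ.mm_le (h.sub_mem hJ hv)) hv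
  rwa [sub_add_cancel] at this

theorem Lin.one : Lin (1 : Module.End k (V k α)) 0 := by
  intro J _ v _
  simp

theorem Lin.mul {A B : Module.End k (V k α)} {ℓ ℓ' : α → k} (hA : Lin A ℓ) (hB : Lin B ℓ') :
    Lin (A * B) (ℓ + ℓ') := by
  intro J hJ v hv
  have h1 := hA J hJ (B v) (hB.mem hJ hv)
  have h2 := hB J hJ v hv
  have h3 : ∑ a, ℓ a • X k a (B v - v) ∈ mm (mm J) :=
    Submodule.sum_mem _ fun a _ => Submodule.smul_mem _ _ (mem_mm a (hB.sub_mem hJ hv))
  have h4 := Submodule.add_mem _ (Submodule.add_mem _ h1 h2) h3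
  convert h4 using 1
  rw [Module.End.mul_apply]
  simp only [Pi.add_apply, add_smul, Finset.sum_add_distrib, map_sub, smul_sub,
    Finset.sum_sub_distrib]
  abel

theorem Lin.list_prod {β : Type*} (L : List β) (A : β → Module.End k (V k α)) (ℓ : β → α → k)
    (h : ∀ b, Lin (A b) (ℓ b)) : Lin (L.map A).prod (L.map ℓ).sum := by
  induction L with
  | nil => exact Lin.one
  | cons b L ih =>
    simp only [List.map_cons, List.prod_cons, List.sum_cons]
    exact (h b).mul ih

theorem Lin.gen [DecidableEq α] (a : α) : Lin (1 + X k a) (Pi.single a 1) := by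
  intro J _ v _
  have : (1 + X k a) v - v - ∑ b, (Pi.single a 1 : α → k) b • X k b v = 0 := by
    rw [Finset.sum_eq_single a]
    · simp
    · intro b _ hb
      rw [Pi.single_eq_of_ne hb, zero_smul]
    · intro h; exact absurd (Finset.mem_univ a) h
  rw [this]
  exact Submodule.zero_mem _

/-- The truncated inverse of `1 + X a`. -/
noncomputable def Xi (k : Type*) [Field k] {α : Type*} (C : ℕ) (a : α) : Module.End k (V k α) :=
  ∑ j ∈ Finset.range C, (-(X k a : Module.End k (V k α))) ^ j

theorem Lin.inv [DecidableEq α] (C : ℕ) (hC : 2 ≤ C) (a : α) :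
    Lin (Xi k C a) (-Pi.single a 1) := by
  intro J hJ v hv
  obtain ⟨C', rfl⟩ : ∃ C', C = C' + 1 + 1 := ⟨C - 2, by omega⟩
  have e1 : Xi k (C' + 1 + 1) a v = ∑ j ∈ Finset.range C',
      ((-(X k a : Module.End k (V k α))) ^ (j + 1 + 1)) v - X k a v + v := by
    unfold Xi
    rw [Finset.sum_range_succ', Finset.sum_range_succ']
    simp only [LinearMap.add_apply, LinearMap.sum_apply]
    simp
    abel
  have e2 : ∑ b, (-Pi.single a 1 : α → k) b • X k b v = - X k a v := by
    rw [Finset.sum_eq_single a]
    · simp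
    · intro b _ hb
      rw [Pi.neg_apply, Pi.single_eq_of_ne hb, neg_zero, zero_smul]
    · intro h; exact absurd (Finset.mem_univ a) h
  have hpow : ∀ j, ((-(X k a : Module.End k (V k α))) ^ j) v ∈ J := by
    intro j
    induction j with
    | zero => simpa using hv
    | succ j ih =>
      rw [pow_succ', Module.End.mul_apply, LinearMap.neg_apply]
      exact J.neg_mem (hJ a _ ih)
  rw [e1, e2]
  have e3 : ∑ j ∈ Finset.range C', ((-(X k a : Module.End k (V k α))) ^ (j + 1 + 1)) v -
      X k a v + v - v - - X k a v = ∑ j ∈ Finset.range C',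
      ((-(X k a : Module.End k (V k α))) ^ (j + 1 + 1)) v := by abel
  rw [e3]
  refine Submodule.sum_mem _ fun j _ => ?_
  rw [pow_succ', pow_succ', Module.End.mul_apply, Module.End.mul_apply, LinearMap.neg_apply,
    LinearMap.neg_apply, map_neg, neg_neg]
  exact mem_mm a (mem_mm a (hpow j))

end free

section tower

variable {k : Type*} [Field k] {α : Type*} [Fintype α]

/-- The tower of submodules. -/
noncomputable def JJ (f : Module.End k (V k α)) : ℕ → Submodule k (V k α)
  | 0 => ⊤
  | n + 1 => LinearMap.range (f - 1) ⊔ mm (JJ f n)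

theorem range_le_JJ (f : Module.End k (V k α)) (n : ℕ) : LinearMap.range (f - 1) ≤ JJ f n := by
  cases n with
  | zero => exact le_top
  | succ n => exact le_sup_left

theorem mm_JJ_le (f : Module.End k (V k α)) (n : ℕ) : mm (JJ f n) ≤ JJ f (n + 1) := le_sup_right

theorem JJ_succ_le (f : Module.End k (V k α)) (n : ℕ) : JJ f (n + 1) ≤ JJ f n := by
  induction n with
  | zero => exact le_top
  | succ n ih => exact sup_le_sup_left (mm_mono ih) _

theorem JJ_antitone (f : Module.End k (V k α)) : Antitone (JJ f) :=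
  antitone_nat_of_succ_le (JJ_succ_le f)

theorem JJ_stable (f : Module.End k (V k α)) (n : ℕ) : Stable (JJ f n) :=
  fun a _ hv => JJ_succ_le f n (mm_JJ_le f n (mem_mm a hv))

instance JJ_finite (f : Module.End k (V k α)) (n : ℕ) : FiniteDimensional k (V k α ⧸ JJ f n) := by
  induction n with
  | zero =>
    change FiniteDimensional k (V k α ⧸ (⊤ : Submodule k (V k α)))
    infer_instance
  | succ n ih =>
    have := finite_mm (JJ f n)
    exact Module.Finite.of_surjective (Submodule.factor (mm_JJ_le f n))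
      (Submodule.factor_surjective (mm_JJ_le f n))

/-- The dimensions in the tower. -/
noncomputable def uu (f : Module.End k (V k α)) (n : ℕ) : ℕ := finrank k (V k α ⧸ JJ f n)

theorem uu_zero (f : Module.End k (V k α)) : uu f 0 = 0 := by
  unfold uu
  change finrank k (V k α ⧸ (⊤ : Submodule k (V k α))) = 0
  exact Module.finrank_zero_of_subsingleton

theorem uu_step (f : Module.End k (V k α)) (n m : ℕ)
    (h : ∀ v ∈ JJ f m, f v - v ∈ mm (JJ f n)) :
    1 + Fintype.card α * uu f n ≤ uu f (n + 1) + uu f m := by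
  have := finite_mm (JJ f n)
  unfold uu
  rw [← finrank_mm]
  -- the map `v ↦ (f - 1) v` modulo `mm (JJ n)`
  let φ : V k α →ₗ[k] V k α ⧸ mm (JJ f n) := (mm (JJ f n)).mkQ ∘ₗ (f - 1)
  have hker : JJ f m ≤ LinearMap.ker φ := by
    intro v hv
    rw [LinearMap.mem_ker]
    simp only [φ, LinearMap.comp_apply, Submodule.mkQ_apply, Submodule.Quotient.mk_eq_zero]
    simpa using h v hv
  have h1 : finrank k (LinearMap.range φ) ≤ finrank k (V k α ⧸ JJ f m) := by
    have := LinearMap.finrank_range_le ((JJ f m).liftQ φ hker)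
    rwa [Submodule.range_liftQ] at this
  have e4 : (JJ f (n + 1)).map (mm (JJ f n)).mkQ ≤ LinearMap.range φ := by
    change (LinearMap.range (f - 1) ⊔ mm (JJ f n)).map _ ≤ _
    rw [Submodule.map_sup]
    refine sup_le ?_ ?_
    · rintro _ ⟨_, ⟨w, rfl⟩, rfl⟩
      exact ⟨w, rfl⟩
    · rw [Submodule.mkQ_map_self]; exact bot_le
  have e5 := Submodule.finrank_mono e4
  have e6 := Submodule.finrank_quotient_add_finrank ((JJ f (n + 1)).map (mm (JJ f n)).mkQ)
  have e7 := (Submodule.quotientQuotientEquivQuotient (mm (JJ f n)) (JJ f (n + 1))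
    (mm_JJ_le f n)).finrank_eq
  omega

end tower

end Pool.Agent.H344.SC
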