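import Mathlib

/-!
# Surface groups, simple closed curves and diameters
-/

namespace Pool.Agent.H344.SC

open scoped commutatorElement

/-- Names of the standard generators of the fundamental group of the orientable surface of
genus `g` with `p` punctures: `a i`, `b i` for the handles, `c j` for loops around the
punctures. -/
inductive Gen (g p : ℕ) : Type
  | a (i : Fin g) : Gen g p
  | b (i : Fin g) : Gen g p
  | c (j : Fin p) : Gen g p
  deriving DecidableEq

/-- The surface word `⁅a 0, b 0⁆ * ... * ⁅a (g-1), b (g-1)⁆ * c 0 * ... * c (p-1)`. -/
def surfaceWord {g p : ℕ} {G : Type*} [Group G] (f : Gen g p → G) : G :=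
  ((List.finRange g).map fun i => ⁅f (.a i), f (.b i)⁆).prod *
    ((List.finRange p).map fun j => f (.c j)).prod

/-- The fundamental group of the orientable surface of genus `g` with `p` punctures. -/
abbrev SurfaceGroup (g p : ℕ) : Type :=
  PresentedGroup ({surfaceWord FreeGroup.of} : Set (FreeGroup (Gen g p)))

/-- The standard generators of the surface group. -/
def gen {g p : ℕ} (x : Gen g p) : SurfaceGroup g p := PresentedGroup.of x

/-- The automorphisms induced by homeomorphisms of the surface (Dehn, Nielsen, Baer): those that
permute the conjugacy classes of the puncture loops `c j`, up to inversion. -/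
def IsGeometric {g p : ℕ} (φ : MulAut (SurfaceGroup g p)) : Prop :=
  ∃ σ : Equiv.Perm (Fin p), ∀ j : Fin p, IsConj (φ (gen (.c j))) (gen (.c (σ j))) ∨
    IsConj (φ (gen (.c j))) (gen (.c (σ j)))⁻¹

/-- Names of standard simple closed curves: the curves `a i`, `b i`, and the curve that cuts off
the handles with index in `I` and the punctures with index in `J`. -/
inductive Curve (g p : ℕ) : Type
  | a (i : Fin g) : Curve g p
  | b (i : Fin g) : Curve g p
  | sep (I : Finset (Fin g)) (J : Finset (Fin p)) : Curve g p

/-- The word of a standard simple closed curve. -/
def curveWord {g p : ℕ} {G : Type*} [Group G] (f : Gen g p → G) : Curve g p → G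
  | .a i => f (.a i)
  | .b i => f (.b i)
  | .sep I J =>
    (((List.finRange g).filter fun i => i ∈ I).map fun i => ⁅f (.a i), f (.b i)⁆).prod *
      (((List.finRange p).filter fun j => j ∈ J).map fun j => f (.c j)).prod

/-- The elements of the surface group represented by simple closed curves: by the classification
of surfaces, these are the images of the standard ones under the automorphisms induced by
homeomorphisms (inner automorphisms included). -/
def simpleElements (g p : ℕ) : Set (SurfaceGroup g p) :=
  {x | ∃ φ : MulAut (SurfaceGroup g p), IsGeometric φ ∧ ∃ s : Curve g p, x = φ (curveWord gen s)}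

/-- The word length of `x` with respect to `T`: the least `k` such that `x` is a product of `k`
elements of `T ∪ T⁻¹`, or `⊤` if there is none. -/
noncomputable def wordLength {G : Type*} [Group G] (T : Set G) (x : G) : ℕ∞ :=
  ⨅ (l : List G) (_ : (∀ y ∈ l, y ∈ T ∨ y⁻¹ ∈ T) ∧ l.prod = x), (l.length : ℕ∞)

/-- The diameter of `G` with respect to `T`. -/
noncomputable def diameter {G : Type*} [Group G] (T : Set G) : ℕ∞ := ⨆ x : G, wordLength T x

/-- The diameter of `L n = π / π n`, where `π` is the surface group and `π n` is its lower central
series with `π 0 = π`, with respect to the image of the simple closed curves. -/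
noncomputable def curveDiameter (g p n : ℕ) : ℕ∞ :=
  diameter ((QuotientGroup.mk : SurfaceGroup g p →
    SurfaceGroup g p ⧸ (⊤ : Subgroup (SurfaceGroup g p)).lowerCentralSeries n) ''
      simpleElements g p)

end Pool.Agent.H344.SC
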