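import Mathlib

/-!
# An inequality of Jennings type

Let a finite group `G` act linearly on a finite dimensional vector space `W` with a filtration
`F 0 = ⊤ ≥ F 1 ≥ ...` such that `(g - 1) (F n) ≤ F (n + 1)`.  If `W` is generated by one vector
modulo the augmentation, the dimension of `W / F n` is bounded in terms of the orders of the
lower central factors of `G`.
-/

namespace Pool.Agent.H344.SC

open Module
open scoped commutatorElement

/-- The lower central series, `lcs G 0 = ⊤` and `lcs G (n + 1) = ⁅lcs G n, ⊤⁆`. -/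
abbrev lcs (G : Type*) [Group G] (n : ℕ) : Subgroup G := (⊤ : Subgroup G).lowerCentralSeries n

theorem lcs_antitone {G : Type*} [Group G] : Antitone (lcs G) :=
  (⊤ : Subgroup G).lowerCentralSeries_antitone

theorem relIndex_ne_zero' {G : Type*} [Group G] [Finite G] (H K : Subgroup G) :
    H.relIndex K ≠ 0 := by
  unfold Subgroup.relIndex
  exact Subgroup.index_ne_zero_of_finite

variable {k : Type*} [Field k] {W : Type*} [AddCommGroup W] [Module k W]
variable {G : Type*} [Group G]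

/-- The span of all `(g - 1) w` with `g` in `K`. -/
def aug (ρ : G →* Module.End k W) (K : Subgroup G) : Submodule k W :=
  ⨆ g : K, LinearMap.range (ρ (g : G) - 1)

theorem mem_aug {ρ : G →* Module.End k W} {K : Subgroup G} {g : G} (hg : g ∈ K) (w : W) :
    ρ g w - w ∈ aug ρ K := by
  refine Submodule.mem_iSup_of_mem (⟨g, hg⟩ : K) ?_
  exact ⟨w, by simp⟩

theorem aug_le {ρ : G →* Module.End k W} {K : Subgroup G} {A : Submodule k W}
    (h : ∀ g ∈ K, ∀ w, ρ g w - w ∈ A) : aug ρ K ≤ A := by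
  refine iSup_le ?_
  rintro ⟨_, hg⟩ _ ⟨w, rfl⟩
  simpa using h _ hg w

theorem aug_mono {ρ : G →* Module.End k W} {K K' : Subgroup G} (h : K ≤ K') :
    aug ρ K ≤ aug ρ K' :=
  aug_le fun g hg w => mem_aug (h hg) w

theorem aug_stable {ρ : G →* Module.End k W} {K : Subgroup G} [K.Normal] (z : G) {w : W}
    (hw : w ∈ aug ρ K) : ρ z w ∈ aug ρ K := by
  have : aug ρ K ≤ (aug ρ K).comap (ρ z) := by
    refine aug_le fun g hg w => ?_
    rw [Submodule.mem_comap, map_sub]
    have h1 : ρ z (ρ g w) = ρ (z * g * z⁻¹) (ρ z w) := by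
      rw [← Module.End.mul_apply, ← Module.End.mul_apply, ← map_mul, ← map_mul]
      congr 2
      group
    rw [h1]
    exact mem_aug (Subgroup.Normal.conj_mem inferInstance g hg z) _
  exact this hw

/-- The span for `K ⊔ ⟨z⟩`. -/
theorem aug_sup_zpowers (ρ : G →* Module.End k W) (K : Subgroup G) [K.Normal] (z : G) :
    aug ρ (K ⊔ Subgroup.zpowers z) ≤ aug ρ K ⊔ LinearMap.range (ρ z - 1) := by
  set A : Submodule k W := aug ρ K ⊔ LinearMap.range (ρ z - 1) with hA
  -- `A` is stable under `ρ z` and `ρ z⁻¹`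
  have hz : ∀ w, ρ z w - w ∈ A := fun w =>
    (le_sup_right : _ ≤ A) ⟨w, by simp⟩
  have hzi : ∀ w, ρ z⁻¹ w - w ∈ A := fun w => by
    have h := A.neg_mem (hz (ρ z⁻¹ w))
    rw [neg_sub] at h
    have e : ρ z (ρ z⁻¹ w) = w := by
      rw [← Module.End.mul_apply, ← map_mul]; simp
    rw [e] at h
    exact h
  have key : ∀ (j : ℤ) (w' : W), ρ (z ^ j) w' - w' ∈ A := by
    intro j
    induction j using Int.induction_on with
    | zero => intro w'; simp
    | succ n ih =>
      intro w'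
      rw [zpow_add_one, map_mul, Module.End.mul_apply]
      have e : ρ (z ^ (n : ℤ)) (ρ z w') - w' =
        (ρ (z ^ (n : ℤ)) (ρ z w') - ρ z w') + (ρ z w' - w') := by abel
      rw [e]
      exact A.add_mem (ih _) (hz w')
    | pred n ih =>
      intro w'
      rw [zpow_sub_one, map_mul, Module.End.mul_apply]
      have e : ρ (z ^ (-n : ℤ)) (ρ z⁻¹ w') - w' =
        (ρ (z ^ (-n : ℤ)) (ρ z⁻¹ w') - ρ z⁻¹ w') + (ρ z⁻¹ w' - w') := by abel
      rw [e]
      exact A.add_mem (ih _) (hzi w')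
  refine aug_le fun g hg w => ?_
  rw [sup_comm] at hg
  obtain ⟨y, hy, h, hh, rfl⟩ := Subgroup.mem_sup_of_normal_right.1 hg
  rw [map_mul, Module.End.mul_apply]
  have e : ρ y (ρ h w) - w = (ρ y (ρ h w) - ρ h w) + (ρ h w - w) := by abel
  rw [e]
  refine A.add_mem ?_ ((le_sup_left : _ ≤ A) (mem_aug hh w))
  obtain ⟨j, rfl⟩ := Subgroup.mem_zpowers_iff.1 hy
  exact key j _

/-- The basic inequality. -/
theorem finrank_step [FiniteDimensional k W] (ρ : G →* Module.End k W) (K : Subgroup G)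
    [K.Normal] (z : G) (A B : Submodule k W) (hAB : ∀ w ∈ B, ρ z w - w ∈ A) :
    finrank k (W ⧸ (aug ρ K ⊔ A)) ≤
      finrank k (W ⧸ (aug ρ (K ⊔ Subgroup.zpowers z) ⊔ A)) + finrank k (W ⧸ (aug ρ K ⊔ B)) := by
  set M : Submodule k W := aug ρ K ⊔ A with hM
  set N : Submodule k W := aug ρ K ⊔ B with hN
  set M' : Submodule k W := aug ρ (K ⊔ Subgroup.zpowers z) ⊔ A with hM'
  -- the map `w ↦ (z - 1) w` to `W / M`
  let φ : W →ₗ[k] W ⧸ M := M.mkQ ∘ₗ (ρ z - 1)
  have hker : N ≤ LinearMap.ker φ := by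
    refine sup_le ?_ ?_
    · intro w hw
      rw [LinearMap.mem_ker]
      simp only [φ, LinearMap.comp_apply, Submodule.mkQ_apply, Submodule.Quotient.mk_eq_zero]
      simp only [LinearMap.sub_apply, Module.End.one_apply]
      exact (le_sup_left : _ ≤ M) ((aug ρ K).sub_mem (aug_stable z hw) hw)
    · intro w hw
      rw [LinearMap.mem_ker]
      simp only [φ, LinearMap.comp_apply, Submodule.mkQ_apply, Submodule.Quotient.mk_eq_zero]
      simp only [LinearMap.sub_apply, Module.End.one_apply]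
      exact (le_sup_right : _ ≤ M) (hAB w hw)
  have h1 : finrank k (LinearMap.range φ) ≤ finrank k (W ⧸ N) := by
    have := LinearMap.finrank_range_le (N.liftQ φ hker)
    rwa [Submodule.range_liftQ] at this
  have hMM' : M ≤ M' := sup_le_sup_right (aug_mono le_sup_left) A
  have hle : M' ≤ M ⊔ LinearMap.range (ρ z - 1) := by
    refine sup_le ?_ ?_
    · refine (aug_sup_zpowers ρ K z).trans ?_
      exact sup_le_sup_right le_sup_left _
    · exact le_sup_right.trans le_sup_left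
  have h2 : finrank k (W ⧸ M) ≤ finrank k (W ⧸ M') + finrank k (LinearMap.range φ) := by
    have e4 : M'.map M.mkQ ≤ LinearMap.range φ := by
      refine (Submodule.map_mono hle).trans ?_
      rw [Submodule.map_sup]
      refine sup_le ?_ ?_
      · rw [Submodule.mkQ_map_self]; exact bot_le
      · rintro _ ⟨_, ⟨w, rfl⟩, rfl⟩
        exact ⟨w, rfl⟩
    have e5 := Submodule.finrank_mono e4
    have e6 := Submodule.finrank_quotient_add_finrank (M'.map M.mkQ)
    have e7 := (Submodule.quotientQuotientEquivQuotient M M' hMM').finrank_eq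
    omega
  omega

/-- The exponent attached to the real number `y`. -/
noncomputable def theta (y : ℝ) : ℝ := -Real.log (1 - y) / Real.log 2

theorem two_rpow_theta {y : ℝ} (hy1 : y < 1) : (2 : ℝ) ^ theta y = (1 - y)⁻¹ := by
  have h2 : Real.log 2 ≠ 0 := (Real.log_pos (by norm_num)).ne'
  rw [Real.rpow_def_of_pos (by norm_num), theta, mul_div_cancel₀ _ h2, Real.exp_neg,
    Real.exp_log (by linarith)]

theorem theta_nonneg {y : ℝ} (hy : 0 ≤ y) (hy1 : y < 1) : 0 ≤ theta y := by
  unfold theta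
  have h1 : Real.log (1 - y) ≤ 0 := Real.log_nonpos (by linarith) (by linarith)
  have h2 : 0 < Real.log 2 := Real.log_pos (by norm_num)
  exact div_nonneg (by linarith) h2.le

/-- One step of the induction. -/
theorem layer_step [FiniteDimensional k W] [Finite G] (ρ : G →* Module.End k W)
    (F : ℕ → Submodule k W) (hF : Antitone F) (hF0 : F 0 = ⊤) {x : ℝ} (hx0 : 0 < x) (hx1 : x < 1)
    {i : ℕ} (hi : 1 ≤ i) (Γ' Γ : Subgroup G) (hn : ∀ K, Γ' ≤ K → K ≤ Γ → K.Normal)
    (hz : ∀ z ∈ Γ, ∀ n, ∀ w ∈ F n, ρ z w - w ∈ F (n + i)) {E : ℝ} (hE : 0 ≤ E)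
    (hS : ∀ n, (finrank k (W ⧸ (aug ρ Γ ⊔ F n)) : ℝ) * x ^ n ≤ E) :
    ∀ N : ℕ, ∀ K, Γ' ≤ K → K ≤ Γ → K.relIndex Γ = N →
      ∀ n, (finrank k (W ⧸ (aug ρ K ⊔ F n)) : ℝ) * x ^ n ≤ E * (N : ℝ) ^ theta (x ^ i) := by
  have hxi0 : 0 < x ^ i := pow_pos hx0 i
  have hxi1 : x ^ i < 1 := pow_lt_one₀ hx0.le hx1 (by omega)
  intro N
  induction N using Nat.strong_induction_on with
  | _ N IH =>
  intro K h1 h2 hN
  by_cases hK : Γ ≤ K
  · have : K = Γ := le_antisymm h2 hK
    subst this
    rw [Subgroup.relIndex_self] at hN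
    subst hN
    intro n
    simpa using hS n
  · obtain ⟨z, hzΓ, hzK⟩ := SetLike.not_le_iff_exists.1 hK
    have := hn K h1 h2
    set K' := K ⊔ Subgroup.zpowers z with hK'
    have hKK' : K ≤ K' := le_sup_left
    have hK'Γ : K' ≤ Γ := sup_le h2 ((Subgroup.zpowers_le).2 hzΓ)
    have hmul := Subgroup.relIndex_mul_relIndex K K' Γ hKK' hK'Γ
    have hne1 : K.relIndex K' ≠ 1 := by
      rw [Ne, Subgroup.relIndex_eq_one]
      intro h
      exact hzK (h ((le_sup_right : _ ≤ K') (Subgroup.mem_zpowers z)))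
    have hne0 : K.relIndex K' ≠ 0 := relIndex_ne_zero' _ _
    have hne0' : K'.relIndex Γ ≠ 0 := relIndex_ne_zero' _ _
    have h2le : 2 ≤ K.relIndex K' := by omega
    set N' := K'.relIndex Γ with hN'
    have hNN' : 2 * N' ≤ N := by
      rw [← hN, ← hmul]
      exact Nat.mul_le_mul_right _ h2le
    have hlt : N' < N := by omega
    have IH' := IH N' hlt K' (h1.trans hKK') hK'Γ rfl
    -- the numerical inequality
    have hnum : (N' : ℝ) ^ theta (x ^ i) ≤ (1 - x ^ i) * (N : ℝ) ^ theta (x ^ i) := by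
      have e1 : ((2 : ℝ) * N') ^ theta (x ^ i) ≤ (N : ℝ) ^ theta (x ^ i) := by
        refine Real.rpow_le_rpow (by positivity) ?_ (theta_nonneg hxi0.le hxi1)
        exact_mod_cast hNN'
      rw [Real.mul_rpow (by norm_num) (by positivity), two_rpow_theta hxi1] at e1
      have e2 : 0 < 1 - x ^ i := by linarith
      calc (N' : ℝ) ^ theta (x ^ i)
          = (1 - x ^ i) * ((1 - x ^ i)⁻¹ * (N' : ℝ) ^ theta (x ^ i)) := by
            field_simp
        _ ≤ _ := by gcongr
    intro n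
    induction n using Nat.strong_induction_on with
    | _ n IHn =>
    by_cases hni : n < i
    · have hs := finrank_step ρ K z (F n) ⊤ (fun w _ => by
        have := hz z hzΓ 0 w (by rw [hF0]; trivial)
        exact hF (by omega) this)
      have e0 : finrank k (W ⧸ (aug ρ K ⊔ (⊤ : Submodule k W))) = 0 := by
        rw [sup_top_eq]
        have := Submodule.finrank_quotient_add_finrank (⊤ : Submodule k W)
        rw [finrank_top] at this
        omega
      rw [e0, add_zero] at hs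
      have hs' : (finrank k (W ⧸ (aug ρ K ⊔ F n)) : ℝ) ≤
          finrank k (W ⧸ (aug ρ K' ⊔ F n)) := by exact_mod_cast hs
      calc (finrank k (W ⧸ (aug ρ K ⊔ F n)) : ℝ) * x ^ n
          ≤ finrank k (W ⧸ (aug ρ K' ⊔ F n)) * x ^ n := by gcongr
        _ ≤ E * (N' : ℝ) ^ theta (x ^ i) := IH' n
        _ ≤ E * (N : ℝ) ^ theta (x ^ i) := by
          have : (N' : ℝ) ^ theta (x ^ i) ≤ (N : ℝ) ^ theta (x ^ i) := by
            refine Real.rpow_le_rpow (by positivity) ?_ (theta_nonneg hxi0.le hxi1)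
            exact_mod_cast hlt.le
          gcongr
    · obtain ⟨n', rfl⟩ : ∃ n', n = n' + i := ⟨n - i, by omega⟩
      have hs := finrank_step ρ K z (F (n' + i)) (F n') (fun w hw => hz z hzΓ n' w hw)
      have hs' : (finrank k (W ⧸ (aug ρ K ⊔ F (n' + i))) : ℝ) ≤
          finrank k (W ⧸ (aug ρ K' ⊔ F (n' + i))) + finrank k (W ⧸ (aug ρ K ⊔ F n')) := by
        exact_mod_cast hs
      have i1 := IH' (n' + i)
      have i2 := IHn n' (by omega)
      calc (finrank k (W ⧸ (aug ρ K ⊔ F (n' + i))) : ℝ) * x ^ (n' + i)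
          ≤ (finrank k (W ⧸ (aug ρ K' ⊔ F (n' + i))) + finrank k (W ⧸ (aug ρ K ⊔ F n'))) *
            x ^ (n' + i) := by gcongr
        _ = finrank k (W ⧸ (aug ρ K' ⊔ F (n' + i))) * x ^ (n' + i) +
            x ^ i * (finrank k (W ⧸ (aug ρ K ⊔ F n')) * x ^ n') := by ring
        _ ≤ E * (N' : ℝ) ^ theta (x ^ i) + x ^ i * (E * (N : ℝ) ^ theta (x ^ i)) := by
            gcongr
        _ ≤ E * ((1 - x ^ i) * (N : ℝ) ^ theta (x ^ i)) +
              x ^ i * (E * (N : ℝ) ^ theta (x ^ i)) := by gcongr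
        _ = E * (N : ℝ) ^ theta (x ^ i) := by ring

/-- The subgroup of elements lowering the filtration by `j`. -/
def lower (ρ : G →* Module.End k W) (F : ℕ → Submodule k W)
    (hρ : ∀ g n, ∀ w ∈ F n, ρ g w ∈ F n) (j : ℕ) : Subgroup G where
  carrier := {z | ∀ n, ∀ w ∈ F n, ρ z w - w ∈ F (n + j)}
  one_mem' := fun n w _ => by simp
  mul_mem' := by
    intro a b ha hb n w hw
    rw [map_mul, Module.End.mul_apply]
    have e : ρ a (ρ b w) - w = ρ a (ρ b w - w) + (ρ a w - w) := by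
      rw [map_sub]; abel
    rw [e]
    exact Submodule.add_mem _ (hρ _ _ _ (hb n w hw)) (ha n w hw)
  inv_mem' := by
    intro a ha n w hw
    have e : ρ a⁻¹ w - w = -(ρ a⁻¹ (ρ a w - w)) := by
      rw [map_sub, ← Module.End.mul_apply, ← map_mul, inv_mul_cancel, map_one,
        Module.End.one_apply, neg_sub]
    rw [e]
    exact Submodule.neg_mem _ (hρ _ _ _ (ha n w hw))

theorem lcs_le_lower (ρ : G →* Module.End k W) (F : ℕ → Submodule k W)
    (hρ : ∀ g n, ∀ w ∈ F n, ρ g w ∈ F n) (h1 : ∀ g n, ∀ w ∈ F n, ρ g w - w ∈ F (n + 1)) (j : ℕ) :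
    lcs G j ≤ lower ρ F hρ (j + 1) := by
  induction j with
  | zero => intro g _; exact h1 g
  | succ j ih =>
    have e : lcs G (j + 1) = ⁅lcs G j, ⊤⁆ := rfl
    rw [e, Subgroup.commutator_le]
    intro a ha b _ n w hw
    have ha' := ih ha
    set w' := ρ (b * a)⁻¹ w with hw'
    have hw'F : w' ∈ F n := hρ _ _ _ hw
    have e1 : ρ ⁅a, b⁆ w - w =
        (ρ a (ρ b w' - w') - (ρ b w' - w')) - (ρ b (ρ a w' - w') - (ρ a w' - w')) := by
      have e2 : w = ρ (b * a) w' := by
        rw [hw', ← Module.End.mul_apply, ← map_mul, mul_inv_cancel, map_one, Module.End.one_apply]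
      have e4 : ⁅a, b⁆ * (b * a) = a * b := by
        rw [commutatorElement_def]; group
      have e3 : ρ ⁅a, b⁆ w = ρ a (ρ b w') := by
        conv_lhs => rw [e2]
        rw [← Module.End.mul_apply, ← map_mul, e4, map_mul, Module.End.mul_apply]
      rw [e3]
      conv_lhs => rw [e2, map_mul, Module.End.mul_apply]
      simp only [map_sub]
      abel
    rw [e1]
    refine Submodule.sub_mem _ ?_ ?_
    · have := ha' (n + 1) _ (h1 b n w' hw'F)
      rwa [show n + (j + 1 + 1) = n + 1 + (j + 1) by ring]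
    · have := h1 b _ _ (ha' n w' hw'F)
      rwa [show n + (j + 1 + 1) = n + (j + 1) + 1 by ring]

/-- **The inequality.** -/
theorem jennings [FiniteDimensional k W] [Finite G] (ρ : G →* Module.End k W)
    (F : ℕ → Submodule k W) (hF : Antitone F) (hF0 : F 0 = ⊤)
    (h1 : ∀ g n, ∀ w ∈ F n, ρ g w - w ∈ F (n + 1))
    (hcyc : finrank k (W ⧸ aug ρ ⊤) ≤ 1) {C : ℕ} (hC : F (C + 1) = ⊥)
    {x : ℝ} (hx0 : 0 < x) (hx1 : x < 1) :
    (finrank k W : ℝ) * x ^ (C + 1) ≤ ∏ i ∈ Finset.range C,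
      (((lcs G (i + 1)).relIndex (lcs G i) : ℕ) : ℝ) ^
        theta (x ^ (i + 1)) := by
  have hρ : ∀ g n, ∀ w ∈ F n, ρ g w ∈ F n := by
    intro g n w hw
    have := Submodule.add_mem _ (hF (Nat.le_succ n) (h1 g n w hw)) hw
    simpa using this
  have hS : ∀ c : ℕ, ∀ n, (finrank k (W ⧸ (aug ρ (lcs G c) ⊔ F n)) : ℝ) * x ^ n ≤
      ∏ i ∈ Finset.range c,
      (((lcs G (i + 1)).relIndex (lcs G i) : ℕ) : ℝ) ^
        theta (x ^ (i + 1)) := by
    intro c
    induction c with
    | zero =>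
      intro n
      rw [Finset.prod_range_zero]
      have e1 : finrank k (W ⧸ (aug ρ (lcs G 0) ⊔ F n)) ≤ 1 := by
        refine le_trans ?_ hcyc
        have e0 : lcs G 0 = ⊤ := rfl
        rw [e0]
        have i1 := Submodule.finrank_quotient_add_finrank (aug ρ (⊤ : Subgroup G))
        have i2 := Submodule.finrank_quotient_add_finrank (aug ρ (⊤ : Subgroup G) ⊔ F n)
        have i3 : finrank k (aug ρ (⊤ : Subgroup G)) ≤
          finrank k (aug ρ (⊤ : Subgroup G) ⊔ F n : Submodule k W) :=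
          Submodule.finrank_mono le_sup_left
        omega
      have e2 : (finrank k (W ⧸ (aug ρ (lcs G 0) ⊔ F n)) : ℝ) ≤ 1 := by
        exact_mod_cast e1
      have e3 : x ^ n ≤ 1 := pow_le_one₀ hx0.le hx1.le
      have e4 : 0 ≤ x ^ n := pow_nonneg hx0.le n
      nlinarith
    | succ c ih =>
      rw [Finset.prod_range_succ]
      refine layer_step ρ F hF hF0 hx0 hx1 (i := c + 1) (by omega) (lcs G (c + 1))
        (lcs G c) ?_ ?_ ?_ ih _ _ le_rfl (lcs_antitone (by omega)) rfl
      · intro K hK1 hK2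
        refine ⟨fun a ha g => ?_⟩
        have : ⁅a, g⁆ ∈ lcs G (c + 1) :=
          Subgroup.commutator_mem_commutator (hK2 ha) (Subgroup.mem_top g)
        have e : g * a * g⁻¹ = ⁅a, g⁆⁻¹ * a := by
          rw [commutatorElement_def]; group
        rw [e]
        exact K.mul_mem (K.inv_mem (hK1 this)) ha
      · intro z hz n w hw
        exact lcs_le_lower ρ F hρ h1 c hz n w hw
      · exact Finset.prod_nonneg fun i _ => Real.rpow_nonneg (Nat.cast_nonneg _) _
  have := hS C (C + 1)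
  have e : aug ρ (lcs G C) ⊔ F (C + 1) = ⊥ := by
    rw [hC, sup_bot_eq, eq_bot_iff]
    refine aug_le fun g hg w => ?_
    have := lcs_le_lower ρ F hρ h1 C hg 0 w (by rw [hF0]; trivial)
    rwa [zero_add, hC] at this
  rw [e] at this
  have e2 := Submodule.finrank_quotient_add_finrank (⊥ : Submodule k W)
  rw [finrank_bot, add_zero] at e2
  rwa [e2] at this

end Pool.Agent.H344.SC
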