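import Mathlib
import Pool.Agent.H344.SC.Jennings

/-!
# Commutator pairings with central values
-/

namespace Pool.Agent.H344.SC

open scoped commutatorElement IsMulCommutative

section pairing

variable {H : Type*} [Group H] {A : Subgroup H}

/-- All commutators with elements of `A` are central. -/
def CentralPair (A : Subgroup H) : Prop := ∀ x : H, ∀ a ∈ A, ⁅x, a⁆ ∈ Subgroup.center H

theorem central_comm {z x : H} (hz : z ∈ Subgroup.center H) : x * z = z * x :=
  Subgroup.mem_center_iff.1 hz x

theorem comm_mul_left (hA : CentralPair A) (x y : H) {a : H} (ha : a ∈ A) :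
    ⁅x * y, a⁆ = ⁅x, a⁆ * ⁅y, a⁆ := by
  have h := central_comm (x := x) (hA y a ha)
  have e : ⁅x * y, a⁆ = x * ⁅y, a⁆ * (a * x⁻¹ * a⁻¹) := by
    simp only [commutatorElement_def]; group
  rw [e, h, mul_assoc]
  have h2 := central_comm (x := ⁅x, a⁆) (hA y a ha)
  rw [h2]
  simp only [commutatorElement_def]; group

theorem comm_mul_right (hA : CentralPair A) (x : H) {a b : H} (_ha : a ∈ A) (hb : b ∈ A) :
    ⁅x, a * b⁆ = ⁅x, a⁆ * ⁅x, b⁆ := by
  have h := central_comm (x := a) (hA x b hb)
  have e : ⁅x, a * b⁆ = ⁅x, a⁆ * (a * ⁅x, b⁆ * a⁻¹) := by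
    simp only [commutatorElement_def]; group
  rw [e, h]
  group

/-- The pairing with a fixed element of `A` as a homomorphism. -/
def pairL (hA : CentralPair A) (a : A) : H →* Subgroup.center H where
  toFun x := ⟨⁅x, (a : H)⁆, hA x a a.2⟩
  map_one' := by ext; simp
  map_mul' x y := by ext; simpa using comm_mul_left hA x y a.2

@[simp] theorem pairL_coe (hA : CentralPair A) (a : A) (x : H) :
    ((pairL hA a x : Subgroup.center H) : H) = ⁅x, (a : H)⁆ := rfl

theorem pairL_mul_right (hA : CentralPair A) (a b : A) (x : H) :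
    pairL hA (a * b) x = pairL hA a x * pairL hA b x := by
  ext; simpa using comm_mul_right hA x a.2 b.2

theorem pairL_one_right (hA : CentralPair A) (x : H) : pairL hA 1 x = 1 := by
  ext; simp

theorem pairL_of_mem_commutator (hA : CentralPair A) (a : A) {x : H} (hx : x ∈ commutator H) :
    pairL hA a x = 1 := by
  have := Abelianization.commutator_subset_ker (pairL hA a) hx
  exact this

theorem comm_eq_one_of_mem (hA : CentralPair A) {a x : H} (ha : a ∈ A) (hx : x ∈ commutator H) :
    ⁅x, a⁆ = 1 := by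
  have := pairL_of_mem_commutator hA ⟨a, ha⟩ hx
  exact congrArg Subtype.val this

variable {ι : Type*} [Fintype ι] [DecidableEq ι]

/-- The map `u ↦ ∏ ⁅v i, u i⁆`. -/
def pairSum (hA : CentralPair A) (v : ι → H) : (ι → A) →* Subgroup.center H where
  toFun u := ∏ i, pairL hA (u i) (v i)
  map_one' := by simp [pairL_one_right]
  map_mul' u w := by
    rw [← Finset.prod_mul_distrib]
    refine Finset.prod_congr rfl fun i _ => ?_
    rw [Pi.mul_apply, pairL_mul_right]

theorem pairSum_apply (hA : CentralPair A) (v : ι → H) (u : ι → A) :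
    pairSum hA v u = ∏ i, pairL hA (u i) (v i) := rfl

theorem pairSum_single (hA : CentralPair A) (v : ι → H) (i : ι) (a : A) :
    pairSum hA v (Pi.mulSingle i a) = pairL hA a (v i) := by
  rw [pairSum_apply, Finset.prod_eq_single i]
  · simp
  · intro j _ hj
    rw [Pi.mulSingle_eq_of_ne hj, pairL_one_right]
  · intro h; exact absurd (Finset.mem_univ i) h

/-- **Surjectivity.** -/
theorem pairSum_surj (hA : CentralPair A) (v : ι → H)
    (hv : Subgroup.closure (Set.range v) ⊔ commutator H = ⊤) {z : H}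
    (hz : z ∈ ⁅A, (⊤ : Subgroup H)⁆) : ∃ u : ι → A, ((pairSum hA v u : Subgroup.center H) : H) = z := by
  set S : Subgroup H := ((pairSum hA v).range).map (Subgroup.center H).subtype with hS
  have key : ∀ (a : A) (g : H), pairL hA a g ∈ (pairSum hA v).range := by
    intro a g
    have : (⊤ : Subgroup H) ≤ ((pairSum hA v).range).comap (pairL hA a) := by
      rw [← hv]
      refine sup_le ?_ ?_
      · rw [Subgroup.closure_le]
        rintro _ ⟨i, rfl⟩
        exact ⟨Pi.mulSingle i a, pairSum_single hA v i a⟩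
      · intro x hx
        rw [Subgroup.mem_comap, pairL_of_mem_commutator hA a hx]
        exact Subgroup.one_mem _
    exact this (Subgroup.mem_top g)
  have h2 : ⁅A, (⊤ : Subgroup H)⁆ ≤ S := by
    rw [Subgroup.commutator_le]
    intro a ha g _
    have h3 := (pairSum hA v).range.inv_mem (key ⟨a, ha⟩ g)
    refine ⟨_, h3, ?_⟩
    simp [commutatorElement_inv]
  obtain ⟨_, ⟨u, rfl⟩, hu⟩ := h2 hz
  exact ⟨u, hu⟩

end pairing

section lcs

variable {G : Type*} [Group G]

theorem lcs_succ (n : ℕ) : lcs G (n + 1) = ⁅lcs G n, (⊤ : Subgroup G)⁆ := rfl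

theorem lcs_one : lcs G 1 = commutator G := rfl

instance lcs_normal (n : ℕ) : (lcs G n).Normal := by
  unfold lcs; infer_instance

theorem lcs_map {H : Type*} [Group H] {f : G →* H} (hf : Function.Surjective f) (n : ℕ) :
    (lcs G n).map f = lcs H n := by
  unfold lcs
  rw [Subgroup.map_lowerCentralSeries, Subgroup.map_top_of_surjective f hf]

theorem lcs_quot_eq_bot (n : ℕ) : lcs (G ⧸ lcs G n) n = ⊥ := by
  rw [← lcs_map (QuotientGroup.mk'_surjective (lcs G n)) n]
  rw [Subgroup.map_eq_bot_iff, QuotientGroup.ker_mk']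

theorem lcs_eq_bot_of_le {n m : ℕ} (h : n ≤ m) (hn : lcs G n = ⊥) : lcs G m = ⊥ := by
  rw [eq_bot_iff, ← hn]; exact lcs_antitone h

theorem lcs_le_center {n : ℕ} (h : lcs G (n + 1) = ⊥) : lcs G n ≤ Subgroup.center G := by
  intro z hz
  rw [Subgroup.mem_center_iff]
  intro g
  have : ⁅z, g⁆ ∈ lcs G (n + 1) := Subgroup.commutator_mem_commutator hz (Subgroup.mem_top g)
  rw [h, Subgroup.mem_bot, commutatorElement_eq_one_iff_mul_comm] at this
  exact this.symm

theorem comm_mem_lcs {n : ℕ} {a : G} (ha : a ∈ lcs G n) (x : G) : ⁅x, a⁆ ∈ lcs G (n + 1) := by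
  have : ⁅a, x⁆ ∈ lcs G (n + 1) := Subgroup.commutator_mem_commutator ha (Subgroup.mem_top x)
  rw [← commutatorElement_inv]
  exact Subgroup.inv_mem _ this

theorem centralPair_lcs {n : ℕ} (h : lcs G (n + 2) = ⊥) : CentralPair (lcs G n) := by
  intro x a ha
  exact lcs_le_center h (comm_mem_lcs ha x)

end lcs

end Pool.Agent.H344.SC
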