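import Mathlib
import Pool.Agent.H344.SC.Pairing

/-!
# Counting solutions of the surface equation in nilpotent groups
-/

namespace Pool.Agent.H344.SC

open scoped commutatorElement IsMulCommutative

/-- The index type for tuples. -/
abbrev Ix (g p : ℕ) := Fin g ⊕ Fin g ⊕ Fin p

section word

variable {G : Type*} [Group G] {g p : ℕ}

/-- The word `∏ ⁅x i, y i⁆ * κ0 * ∏ h j * κ j * (h j)⁻¹`. -/
def word (κ0 : G) (κ : Fin p → G) (t : Ix g p → G) : G :=
  ((List.finRange g).map fun i => ⁅t (.inl i), t (.inr (.inl i))⁆).prod * κ0 *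
  ((List.finRange p).map fun j => t (.inr (.inr j)) * κ j * (t (.inr (.inr j)))⁻¹).prod

/-- The family of elements against which the variation of the word is paired. -/
def vec (κ : Fin p → G) (t : Ix g p → G) : Ix g p → G
  | .inl i => (t (.inr (.inl i)))⁻¹
  | .inr (.inl i) => t (.inl i)
  | .inr (.inr j) => (κ j)⁻¹

theorem list_prod_center {α : Type*} (L : List α) (u : α → G) (z : α → Subgroup.center G) :
    (L.map fun i => u i * (z i : G)).prod =
      (L.map u).prod * (((L.map z).prod : Subgroup.center G) : G) := by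
  induction L with
  | nil => simp
  | cons a L ih =>
    simp only [List.map_cons, List.prod_cons, ih]
    have h := central_comm (x := (L.map u).prod) (z a).2
    rw [Subgroup.coe_mul]
    calc u a * (z a : G) * ((L.map u).prod * ((L.map z).prod : Subgroup.center G))
        = u a * ((z a : G) * (L.map u).prod) * ((L.map z).prod : Subgroup.center G) := by group
      _ = u a * ((L.map u).prod * (z a : G)) * ((L.map z).prod : Subgroup.center G) := by rw [h]
      _ = _ := by group

theorem comm_identity {A : Subgroup G} (hA : CentralPair A) (hAA : ∀ a ∈ A, ∀ b ∈ A, ⁅a, b⁆ = 1)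
    (x y : G) (α β : A) :
    ⁅x * α, y * β⁆ = ⁅x, y⁆ * ((pairL hA α y⁻¹ * pairL hA β x : Subgroup.center G) : G) := by
  have c1 : ⁅x * (α : G), (β : G)⁆ = ⁅x, (β : G)⁆ := by
    rw [comm_mul_left hA x α β.2, hAA α α.2 β β.2, mul_one]
  have c2 : ⁅(α : G), y⁆ = ⁅y⁻¹, (α : G)⁆ := by
    have h1 := comm_mul_left hA y⁻¹ y α.2
    rw [inv_mul_cancel, commutatorElement_one_left] at h1
    rw [← commutatorElement_inv y, inv_eq_iff_mul_eq_one]
    have h2 := central_comm (x := ⁅y⁻¹, (α : G)⁆) (hA y α α.2)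
    rw [← h2, ← h1]
  have e1 : ⁅x * (α : G), y * (β : G)⁆ =
      x * ⁅(α : G), y⁆ * x⁻¹ * ⁅x, y⁆ * (y * ⁅x * (α : G), (β : G)⁆ * y⁻¹) := by
    simp only [commutatorElement_def]; group
  rw [e1, c1, c2]
  have h1 := central_comm (x := x) (hA y⁻¹ α α.2)
  have h2 := central_comm (x := y) (hA x β β.2)
  have h3 := central_comm (x := ⁅x, y⁆) (hA y⁻¹ α α.2)
  rw [h1, h2]
  push_cast
  simp only [pairL_coe]
  calc ⁅y⁻¹, (α : G)⁆ * x * x⁻¹ * ⁅x, y⁆ * (⁅x, (β : G)⁆ * y * y⁻¹)
      = (⁅y⁻¹, (α : G)⁆ * ⁅x, y⁆) * ⁅x, (β : G)⁆ := by group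
    _ = _ := by rw [← h3]; group

theorem conj_identity {A : Subgroup G} (hA : CentralPair A) (h κ : G) (η : A) :
    (h * η) * κ * (h * η)⁻¹ = h * κ * h⁻¹ * ((pairL hA η κ⁻¹ : Subgroup.center G) : G) := by
  have c2 : ⁅(η : G), κ⁆ = ⁅κ⁻¹, (η : G)⁆ := by
    have h1 := comm_mul_left hA κ⁻¹ κ η.2
    rw [inv_mul_cancel, commutatorElement_one_left] at h1
    rw [← commutatorElement_inv κ, inv_eq_iff_mul_eq_one]
    have h2 := central_comm (x := ⁅κ⁻¹, (η : G)⁆) (hA κ η η.2)
    rw [← h2, ← h1]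
  have e1 : (h * η) * κ * (h * η)⁻¹ = h * ⁅(η : G), κ⁆ * κ * h⁻¹ := by
    simp only [commutatorElement_def]; group
  rw [e1, c2]
  have h1 := central_comm (x := h) (hA κ⁻¹ η η.2)
  have h2 := central_comm (x := h * κ * h⁻¹) (hA κ⁻¹ η η.2)
  rw [h1, pairL_coe, h2]
  group

/-- The variation of the word. -/
theorem word_mul {A : Subgroup G} (hA : CentralPair A) (hAA : ∀ a ∈ A, ∀ b ∈ A, ⁅a, b⁆ = 1)
    (κ0 : G) (κ : Fin p → G) (t : Ix g p → G) (u : Ix g p → A) :
    word κ0 κ (fun i => t i * (u i : G)) =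
      word κ0 κ t * ((pairSum hA (vec κ t) u : Subgroup.center G) : G) := by
  unfold word
  have e1 : ∀ i : Fin g, ⁅t (.inl i) * (u (.inl i) : G), t (.inr (.inl i)) * (u (.inr (.inl i)) : G)⁆
      = ⁅t (.inl i), t (.inr (.inl i))⁆ *
        ((pairL hA (u (.inl i)) (t (.inr (.inl i)))⁻¹ * pairL hA (u (.inr (.inl i))) (t (.inl i)) :
          Subgroup.center G) : G) := fun i => comm_identity hA hAA _ _ _ _
  have e2 : ∀ j : Fin p, t (.inr (.inr j)) * (u (.inr (.inr j)) : G) * κ j *
      (t (.inr (.inr j)) * (u (.inr (.inr j)) : G))⁻¹ =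
      t (.inr (.inr j)) * κ j * (t (.inr (.inr j)))⁻¹ *
        ((pairL hA (u (.inr (.inr j))) (κ j)⁻¹ : Subgroup.center G) : G) :=
    fun j => conj_identity hA _ _ _
  simp only [e1, e2]
  rw [list_prod_center, list_prod_center]
  rw [pairSum_apply, Fintype.prod_sum_type, Fintype.prod_sum_type]
  simp only [vec]
  rw [Fin.prod_univ_def, Fin.prod_univ_def, Fin.prod_univ_def, List.prod_map_mul]
  set a := ((List.finRange g).map fun i => ⁅t (.inl i), t (.inr (.inl i))⁆).prod
  set b := ((List.finRange p).map fun j => t (.inr (.inr j)) * κ j * (t (.inr (.inr j)))⁻¹).prod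
  generalize (List.map (fun i => pairL hA (u (Sum.inl i)) (t (Sum.inr (Sum.inl i)))⁻¹)
    (List.finRange g)).prod = z1
  generalize (List.map (fun i => pairL hA (u (Sum.inr (Sum.inl i))) (t (Sum.inl i)))
    (List.finRange g)).prod = z2
  generalize (List.map (fun j => pairL hA (u (Sum.inr (Sum.inr j))) (κ j)⁻¹)
    (List.finRange p)).prod = z3
  push_cast
  have h1 := central_comm (x := κ0 * b) (z1 * z2).2
  push_cast at h1
  calc a * ((z1 : G) * z2) * κ0 * (b * z3)
      = a * (((z1 : G) * z2) * (κ0 * b)) * z3 := by group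
    _ = a * ((κ0 * b) * ((z1 : G) * z2)) * z3 := by rw [h1]
    _ = _ := by group

theorem word_map {H : Type*} [Group H] (f : G →* H) (κ0 : G) (κ : Fin p → G) (t : Ix g p → G) :
    f (word κ0 κ t) = word (f κ0) (fun j => f (κ j)) (fun i => f (t i)) := by
  unfold word
  simp only [map_mul, map_list_prod, List.map_map]
  congr 2
  · congr 2
    funext i
    simp [map_commutatorElement]
  · congr 1
    funext i
    simp

theorem vec_map {H : Type*} [Group H] (f : G →* H) (κ : Fin p → G) (t : Ix g p → G) :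
    vec (fun j => f (κ j)) (fun i => f (t i)) = fun i => f (vec κ t i) := by
  funext i
  rcases i with i | i | i <;> simp [vec]

/-- The family generates the group modulo commutators. -/
def Gens (v : Ix g p → G) : Prop := Subgroup.closure (Set.range v) ⊔ commutator G = ⊤

theorem Gens.map {H : Type*} [Group H] {f : G →* H} (hf : Function.Surjective f)
    {v : Ix g p → G} (hv : Gens v) : Gens (fun i => f (v i)) := by
  unfold Gens at *
  have h := congrArg (Subgroup.map f) hv
  rw [Subgroup.map_sup, MonoidHom.map_closure, Subgroup.map_top_of_surjective f hf] at h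
  rw [eq_top_iff, ← h]
  refine sup_le_sup ?_ ?_
  · rw [Subgroup.closure_le]
    rintro _ ⟨_, ⟨i, rfl⟩, rfl⟩
    exact Subgroup.subset_closure ⟨i, rfl⟩
  · rw [commutator_def, commutator_def, Subgroup.map_commutator]
    exact Subgroup.commutator_mono le_top le_top

theorem Gens.of_mul {v w : Ix g p → G} (hv : Gens v)
    (h : ∀ i, (w i)⁻¹ * v i ∈ commutator G) : Gens w := by
  unfold Gens at *
  rw [eq_top_iff, ← hv]
  refine sup_le ?_ le_sup_right
  rw [Subgroup.closure_le]
  rintro _ ⟨i, rfl⟩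
  have : v i = w i * ((w i)⁻¹ * v i) := by group
  rw [this]
  refine Subgroup.mul_mem _ ?_ ?_
  · exact (le_sup_left : _ ≤ Subgroup.closure (Set.range w) ⊔ commutator G)
      (Subgroup.subset_closure ⟨i, rfl⟩)
  · exact (le_sup_right : _ ≤ Subgroup.closure (Set.range w) ⊔ commutator G) (h i)

theorem vec_mul_mem {K : Subgroup G} (hK : K ≤ commutator G) (κ : Fin p → G) (t : Ix g p → G)
    (u : Ix g p → K) (i : Ix g p) :
    (vec κ (fun i => t i * (u i : G)) i)⁻¹ * vec κ t i ∈ commutator G := by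
  rcases i with i | i | i
  · simp only [vec, inv_inv]
    have : t (.inr (.inl i)) * (u (.inr (.inl i)) : G) * (t (.inr (.inl i)))⁻¹ ∈ commutator G :=
      Subgroup.Normal.conj_mem inferInstance _ (hK (u _).2) _
    exact this
  · simp only [vec]
    have : (t (.inl i) * (u (.inl i) : G))⁻¹ * t (.inl i) = (u (.inl i) : G)⁻¹ := by group
    rw [this]
    exact Subgroup.inv_mem _ (hK (u _).2)
  · simp [vec]

end word

section count

variable {G : Type*} [Group G] {g p : ℕ}

/-- The set of solutions of `word = 1` modulo the term `c + 1` of the lower central series. -/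
def Sol (κ0 : G) (κ : Fin p → G) (c : ℕ) : Set (Ix g p → G) :=
  {t | word κ0 κ t ∈ lcs G (c + 1) ∧ Gens (vec κ t)}

theorem Sol_antitone (κ0 : G) (κ : Fin p → G) {c c' : ℕ} (h : c ≤ c') :
    Sol (g := g) κ0 κ c' ⊆ Sol κ0 κ c :=
  fun _ ht => ⟨lcs_antitone (by omega) ht.1, ht.2⟩

theorem Sol_mul {κ0 : G} {κ : Fin p → G} {c : ℕ} (hc : 1 ≤ c) {t : Ix g p → G}
    (ht : t ∈ Sol κ0 κ c) (u : Ix g p → lcs G c) : (fun i => t i * (u i : G)) ∈ Sol κ0 κ c := by
  have hle : lcs G c ≤ commutator G := by rw [← lcs_one]; exact lcs_antitone hc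
  refine ⟨?_, ht.2.of_mul (vec_mul_mem hle κ t u)⟩
  set q := QuotientGroup.mk' (lcs G (c + 1)) with hq
  have hcen : lcs (G ⧸ lcs G (c + 1)) c ≤ Subgroup.center _ := lcs_le_center (lcs_quot_eq_bot (c + 1))
  have hA : CentralPair (lcs (G ⧸ lcs G (c + 1)) c) := by
    intro x a ha
    rw [(commutatorElement_eq_one_iff_mul_comm).2 (central_comm (hcen ha))]
    exact Subgroup.one_mem _
  have hu : ∀ i, q (u i) ∈ lcs (G ⧸ lcs G (c + 1)) c := by
    intro i
    rw [← lcs_map (QuotientGroup.mk'_surjective (lcs G (c + 1))) c]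
    exact Subgroup.mem_map_of_mem _ (u i).2
  have key := word_mul hA (fun a ha b hb =>
    (commutatorElement_eq_one_iff_mul_comm).2 (central_comm (hcen hb))) (q κ0) (fun j => q (κ j))
    (fun i => q (t i)) (fun i => ⟨q (u i), hu i⟩)
  have h1 : pairSum hA (vec (fun j => q (κ j)) (fun i => q (t i))) (fun i => ⟨q (u i), hu i⟩) = 1 := by
    rw [pairSum_apply]
    refine Finset.prod_eq_one fun i _ => ?_
    ext
    rw [pairL_coe, (commutatorElement_eq_one_iff_mul_comm).2 (central_comm (hcen (hu i)))]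
    simp
  rw [h1] at key
  have h2 : q (word κ0 κ fun i => t i * (u i : G)) = q (word κ0 κ t) := by
    rw [word_map, word_map]
    simp only [map_mul]
    rw [key]
    exact mul_one _
  have h3 : q (word κ0 κ t) = 1 := (QuotientGroup.eq_one_iff _).2 ht.1
  rw [h3] at h2
  exact (QuotientGroup.eq_one_iff _).1 h2

variable [Finite G]

theorem count_step (κ0 : G) (κ : Fin p → G) (d : ℕ) :
    Nat.card (Sol (g := g) κ0 κ (d + 2)) * (lcs G (d + 3)).relIndex (lcs G (d + 2)) ≤
      Nat.card (Sol (g := g) κ0 κ (d + 1)) := by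
  classical
  set q := QuotientGroup.mk' (lcs G (d + 3)) with hq
  have hqs : Function.Surjective q := QuotientGroup.mk'_surjective _
  set Hq := G ⧸ lcs G (d + 3) with hHq
  have hbot : lcs Hq (d + 3) = ⊥ := lcs_quot_eq_bot (d + 3)
  have hA : CentralPair (lcs Hq (d + 1)) := centralPair_lcs hbot
  have hle : lcs Hq (d + 1) ≤ commutator Hq := by
    rw [← lcs_one]; exact lcs_antitone (by omega)
  have hAA : ∀ a ∈ lcs Hq (d + 1), ∀ b ∈ lcs Hq (d + 1), ⁅a, b⁆ = 1 := fun a ha b hb =>
    comm_eq_one_of_mem hA hb (hle ha)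
  have hmem : ∀ n, ∀ a : lcs G n, q a ∈ lcs Hq n := by
    intro n a
    rw [← lcs_map hqs n]
    exact Subgroup.mem_map_of_mem _ a.2
  let qA : lcs G (d + 1) →* lcs Hq (d + 1) :=
    (q.comp (lcs G (d + 1)).subtype).codRestrict (lcs Hq (d + 1)) (fun a => hmem _ a)
  have hqA : Function.Surjective qA := by
    rintro ⟨a, ha⟩
    have ha' := ha
    rw [← lcs_map hqs (d + 1)] at ha'
    obtain ⟨b, hb, rfl⟩ := ha'
    exact ⟨⟨b, hb⟩, rfl⟩
  -- the pairing
  let L : (Ix g p → G) → (Ix g p → lcs G (d + 1)) → Subgroup.center Hq := fun t u =>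
    pairSum hA (vec (fun j => q (κ j)) (fun i => q (t i))) (fun i => qA (u i))
  have hLmul : ∀ t u u', L t (u * u') = L t u * L t u' := by
    intro t u u'
    have : (fun i => qA ((u * u') i)) = (fun i => qA (u i)) * (fun i => qA (u' i)) := by
      funext i
      exact map_mul qA (u i) (u' i)
    simp only [L, this, map_mul]
  have hword : ∀ (t : Ix g p → G) (u : Ix g p → lcs G (d + 1)),
      q (word κ0 κ fun i => t i * (u i : G)) = q (word κ0 κ t) * (L t u : Hq) := by
    intro t u
    rw [word_map, word_map]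
    have := word_mul hA hAA (q κ0) (fun j => q (κ j)) (fun i => q (t i)) (fun i => qA (u i))
    simp only [map_mul]
    exact this
  have hsurj : ∀ t : Sol (g := g) κ0 κ (d + 1), ∀ z : lcs Hq (d + 2),
      ∃ u : Ix g p → lcs G (d + 1), (L t u : Hq) = z := by
    intro t z
    have hg : Gens (vec (fun j => q (κ j)) (fun i => q (t.1 i))) := by
      rw [vec_map]; exact t.2.2.map hqs
    obtain ⟨u, hu⟩ := pairSum_surj hA _ hg (z := z.1) z.2
    choose v hv using fun i => hqA (u i)
    refine ⟨v, ?_⟩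
    simp only [L, hv]
    exact hu
  choose S hS using hsurj
  have hmemSol : ∀ (s : Sol (g := g) κ0 κ (d + 2)) (α : Ix g p → lcs G (d + 1)),
      (fun i => s.1 i * ((α⁻¹ i : lcs G (d + 1)) : G)) ∈ Sol (g := g) κ0 κ (d + 1) :=
    fun s α => Sol_mul (by omega) (Sol_antitone κ0 κ (by omega) s.2) _
  let Φ : Sol (g := g) κ0 κ (d + 2) × (Ix g p → lcs G (d + 1)) × lcs Hq (d + 2) →
      Sol (g := g) κ0 κ (d + 1) × (Ix g p → lcs G (d + 1)) := fun x =>
    (⟨_, hmemSol x.1 x.2.1⟩, x.2.1 * S ⟨_, hmemSol x.1 x.2.1⟩ x.2.2)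
  have hΦ : Function.Injective Φ := by
    rintro ⟨s, α, z⟩ ⟨s', α', z'⟩ h
    simp only [Φ, Prod.mk.injEq] at h
    obtain ⟨h1, h2⟩ := h
    have hz : ∀ (s : Sol (g := g) κ0 κ (d + 2)) (α : Ix g p → lcs G (d + 1)) (z : lcs Hq (d + 2)),
        q (word κ0 κ fun i => (s.1 i * ((α⁻¹ i : lcs G (d + 1)) : G)) *
          (((α * S ⟨_, hmemSol s α⟩ z) i : lcs G (d + 1)) : G)) = z := by
      intro s α z
      rw [hword, hLmul]
      have e1 : (L (fun i => s.1 i * ((α⁻¹ i : lcs G (d + 1)) : G)) (S ⟨_, hmemSol s α⟩ z) : Hq) = z :=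
        hS ⟨_, hmemSol s α⟩ z
      rw [Subgroup.coe_mul, e1, ← mul_assoc]
      have e2 := hword (fun i => s.1 i * ((α⁻¹ i : lcs G (d + 1)) : G)) α
      rw [← e2]
      have e3 : (fun i => s.1 i * ((α⁻¹ i : lcs G (d + 1)) : G) * (α i : G)) = s.1 := by
        funext i
        change s.1 i * ((α i : G))⁻¹ * (α i : G) = s.1 i
        group
      rw [e3]
      have e4 : q (word κ0 κ s.1) = 1 := (QuotientGroup.eq_one_iff _).2 s.2.1
      rw [e4, one_mul]
    have hzz : z = z' := by
      have a1 := hz s α z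
      have a2 := hz s' α' z'
      apply Subtype.ext
      rw [← a1, ← a2]
      have h1' := congrArg Subtype.val h1
      congr 2
      funext i
      have b1 := congrFun h1' i
      have b2 := congrFun h2 i
      simp only at b1
      rw [b1, b2]
    subst hzz
    have hα : α = α' := by
      rw [h1] at h2
      exact mul_right_cancel h2
    subst hα
    have hs : s = s' := by
      apply Subtype.ext
      funext i
      have b1 := congrFun (congrArg Subtype.val h1) i
      simp only at b1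
      exact mul_right_cancel b1
    subst hs
    rfl
  have hcard := Nat.card_le_card_of_injective Φ hΦ
  rw [Nat.card_prod, Nat.card_prod, Nat.card_prod] at hcard
  have hrel : (lcs G (d + 3)).relIndex (lcs G (d + 2)) = Nat.card (lcs Hq (d + 2)) := by
    have h1 := Subgroup.relIndex_ker (K := lcs G (d + 2)) q
    rw [QuotientGroup.ker_mk', lcs_map hqs] at h1
    exact h1
  rw [hrel]
  have hpos : 0 < Nat.card (Ix g p → lcs G (d + 1)) := Nat.card_pos
  refine Nat.le_of_mul_le_mul_right ?_ hpos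
  calc _ = Nat.card (Sol (g := g) κ0 κ (d + 2)) *
        (Nat.card (Ix g p → lcs G (d + 1)) * Nat.card (lcs Hq (d + 2))) := by ring
    _ ≤ _ := hcard

theorem count_sol (κ0 : G) (κ : Fin p → G) (d : ℕ) :
    Nat.card (Sol (g := g) κ0 κ (d + 1)) * (lcs G (d + 2)).relIndex (lcs G 2) ≤
      Nat.card G ^ Fintype.card (Ix g p) := by
  induction d with
  | zero =>
    rw [Subgroup.relIndex_self, mul_one]
    have h1 : Nat.card (Sol (g := g) κ0 κ (0 + 1)) ≤ Nat.card (Ix g p → G) :=
      Nat.card_le_card_of_injective _ Subtype.val_injective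
    have h2 : Nat.card (Ix g p → G) = Nat.card G ^ Fintype.card (Ix g p) := by
      rw [Nat.card_fun, Nat.card_eq_fintype_card (α := Ix g p)]
    omega
  | succ d ih =>
    have h1 := count_step (g := g) κ0 κ d
    have h2 := Subgroup.relIndex_mul_relIndex (lcs G (d + 3)) (lcs G (d + 2)) (lcs G 2)
      (lcs_antitone (by omega)) (lcs_antitone (by omega))
    calc Nat.card (Sol (g := g) κ0 κ (d + 1 + 1)) * (lcs G (d + 1 + 2)).relIndex (lcs G 2)
        = Nat.card (Sol (g := g) κ0 κ (d + 2)) * (lcs G (d + 3)).relIndex (lcs G (d + 2)) *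
          (lcs G (d + 2)).relIndex (lcs G 2) := by
          rw [← h2]; ring
      _ ≤ Nat.card (Sol (g := g) κ0 κ (d + 1)) * (lcs G (d + 2)).relIndex (lcs G 2) :=
          Nat.mul_le_mul_right _ h1
      _ ≤ _ := ih

/-- The solutions, viewed in the quotient by the term `c`. -/
def QSol (κ0 : G) (κ : Fin p → G) (c : ℕ) : Set (Ix g p → G ⧸ lcs G c) :=
  (fun t i => QuotientGroup.mk' (lcs G c) (t i)) '' (Sol κ0 κ c)

theorem card_qsol_mul (κ0 : G) (κ : Fin p → G) {c : ℕ} (hc : 1 ≤ c) :
    Nat.card (QSol (g := g) κ0 κ c) * Nat.card (lcs G c) ^ Fintype.card (Ix g p) ≤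
      Nat.card (Sol (g := g) κ0 κ c) := by
  classical
  have h : ∀ y : QSol (g := g) κ0 κ c, ∃ t : Ix g p → G, t ∈ Sol κ0 κ c ∧
      (fun i => QuotientGroup.mk' (lcs G c) (t i)) = y.1 := fun y => y.2
  choose r hr1 hr2 using h
  let Φ : QSol (g := g) κ0 κ c × (Ix g p → lcs G c) → Sol (g := g) κ0 κ c := fun x =>
    ⟨_, Sol_mul hc (hr1 x.1) x.2⟩
  have hΦ : Function.Injective Φ := by
    rintro ⟨y, u⟩ ⟨y', u'⟩ h
    have h0 := congrArg Subtype.val h
    simp only [Φ] at h0
    have hy : y = y' := by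
      apply Subtype.ext
      rw [← hr2 y, ← hr2 y']
      funext i
      have := congrArg (QuotientGroup.mk' (lcs G c)) (congrFun h0 i)
      rw [map_mul, map_mul] at this
      have e1 : QuotientGroup.mk' (lcs G c) (u i : G) = 1 :=
        (QuotientGroup.eq_one_iff _).2 (u i).2
      have e2 : QuotientGroup.mk' (lcs G c) (u' i : G) = 1 :=
        (QuotientGroup.eq_one_iff _).2 (u' i).2
      rwa [e1, e2, mul_one, mul_one] at this
    subst hy
    have hu : u = u' := by
      funext i
      exact Subtype.ext (mul_left_cancel (congrFun h0 i))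
    subst hu
    rfl
  have hcard := Nat.card_le_card_of_injective Φ hΦ
  rw [Nat.card_prod, Nat.card_fun, Nat.card_eq_fintype_card (α := Ix g p)] at hcard
  exact hcard

/-- **Counting theorem.** -/
theorem card_qsol (κ0 : G) (κ : Fin p → G) (d : ℕ) :
    Nat.card (QSol (g := g) κ0 κ (d + 1)) * (lcs G (d + 2)).index ≤
      (lcs G (d + 1)).index ^ Fintype.card (Ix g p) * (lcs G 2).index := by
  have h1 := card_qsol_mul (g := g) κ0 κ (c := d + 1) (by omega)
  have h2 := count_sol (g := g) κ0 κ d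
  have h3 : (lcs G (d + 2)).relIndex (lcs G 2) * (lcs G 2).index = (lcs G (d + 2)).index :=
    Subgroup.relIndex_mul_index (lcs_antitone (by omega))
  have h4 : Nat.card (lcs G (d + 1)) * (lcs G (d + 1)).index = Nat.card G :=
    (lcs G (d + 1)).card_mul_index
  have hpos : 0 < Nat.card (lcs G (d + 1)) ^ Fintype.card (Ix g p) :=
    pow_pos Nat.card_pos _
  refine Nat.le_of_mul_le_mul_right ?_ hpos
  set X := Nat.card (QSol (g := g) κ0 κ (d + 1))
  set n := Fintype.card (Ix g p)
  calc X * (lcs G (d + 2)).index * Nat.card (lcs G (d + 1)) ^ n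
      = (X * Nat.card (lcs G (d + 1)) ^ n) * ((lcs G (d + 2)).relIndex (lcs G 2)) *
          (lcs G 2).index := by rw [← h3]; ring
    _ ≤ (Nat.card (Sol (g := g) κ0 κ (d + 1))) * ((lcs G (d + 2)).relIndex (lcs G 2)) *
          (lcs G 2).index := by gcongr
    _ ≤ Nat.card G ^ n * (lcs G 2).index := by gcongr
    _ = (lcs G (d + 1)).index ^ n * (lcs G 2).index * Nat.card (lcs G (d + 1)) ^ n := by
        rw [← h4, mul_pow]; ring

end count

end Pool.Agent.H344.SC
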