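import Mathlib
import Pool.Agent.H344.SC.Count

/-!
# The orbit bound
-/

namespace Pool.Agent.H344.SC

open scoped commutatorElement IsMulCommutative

theorem list_conj_prod {Q : Type*} [Group Q] {r : ℕ} (f : Fin r → Q) (b : Q) :
    (List.ofFn fun i => b * f i * b⁻¹).prod = b * (List.ofFn f).prod * b⁻¹ := by
  induction r with
  | zero => simp
  | succ r ih =>
    rw [List.ofFn_succ, List.ofFn_succ, List.prod_cons, List.prod_cons, ih]
    group

theorem card_comm_le {Q : Type*} [Group Q] [Finite Q] (B : Subgroup Q) (hB : CentralPair B)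
    {ι : Type*} [Fintype ι] [DecidableEq ι] (v : ι → Q)
    (hv : Subgroup.closure (Set.range v) ⊔ commutator Q = ⊤) :
    Nat.card (⁅B, (⊤ : Subgroup Q)⁆ : Subgroup Q) ≤
      Nat.card (B ⧸ (Subgroup.center Q).subgroupOf B) ^ Fintype.card ι := by
  classical
  set Z : Subgroup B := (Subgroup.center Q).subgroupOf B with hZ
  have hs : ∀ z : (⁅B, (⊤ : Subgroup Q)⁆ : Subgroup Q),
      ∃ u : ι → B, ((pairSum hB v u : Subgroup.center Q) : Q) = z :=
    fun z => pairSum_surj hB v hv z.2
  choose u hu using hs
  let Φ : (⁅B, (⊤ : Subgroup Q)⁆ : Subgroup Q) → (ι → B ⧸ Z) := fun z i => QuotientGroup.mk (u z i)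
  have hΦ : Function.Injective Φ := by
    intro z z' h
    apply Subtype.ext
    rw [← hu z, ← hu z']
    congr 1
    rw [pairSum_apply, pairSum_apply]
    refine Finset.prod_congr rfl fun i _ => ?_
    have h2 := congrFun h i
    simp only [Φ] at h2
    rw [QuotientGroup.eq, hZ, Subgroup.mem_subgroupOf] at h2
    set ζ : B := (u z i)⁻¹ * u z' i with hζ
    have h3 : u z' i = u z i * ζ := by rw [hζ]; group
    have h4 : pairL hB ζ (v i) = 1 := by
      apply Subtype.ext
      rw [pairL_coe, (commutatorElement_eq_one_iff_mul_comm).2 (central_comm h2)]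
      rfl
    rw [h3, pairL_mul_right, h4]
    exact (mul_one _).symm
  have := Nat.card_le_card_of_injective Φ hΦ
  rwa [Nat.card_fun, Nat.card_eq_fintype_card (α := ι)] at this

theorem orbit_bound {Q : Type*} [Group Q] [Finite Q] (B : Subgroup Q) (hB : CentralPair B)
    {ι : Type*} [Fintype ι] [DecidableEq ι] (v : ι → Q)
    (hv : Subgroup.closure (Set.range v) ⊔ commutator Q = ⊤)
    {Ξ : Type*} [Finite Ξ] (act : Q → Ξ → Ξ)
    (hmul : ∀ b b' ξ, act (b * b') ξ = act b (act b' ξ)) (hone : ∀ ξ, act 1 ξ = ξ)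
    (F : Ξ → Q) (hF : ∀ b ξ, F (act b ξ) = b * F ξ * b⁻¹)
    (hstab : ∀ b ∈ B, ∀ ξ, act b ξ = ξ → b ∈ Subgroup.center Q)
    {r : ℕ} (hr : 1 ≤ r)
    (hcov : ∀ P ∈ commutator Q, ∃ T : Fin r → Ξ, (List.ofFn fun i => F (T i)).prod = P) :
    Nat.card (commutator Q) ^ Fintype.card ι * Nat.card (⁅B, (⊤ : Subgroup Q)⁆ : Subgroup Q) ≤
      Nat.card Ξ ^ (r * Fintype.card ι) := by
  classical
  set Z : Subgroup B := (Subgroup.center Q).subgroupOf B with hZ
  set m := Nat.card (B ⧸ Z) with hm
  have h1 : Nat.card (⁅B, (⊤ : Subgroup Q)⁆ : Subgroup Q) ≤ m ^ Fintype.card ι :=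
    card_comm_le B hB v hv
  have h2 : Nat.card (commutator Q) * m ≤ Nat.card Ξ ^ r := by
    have hc : ∀ P : commutator Q, ∃ T : Fin r → Ξ, (List.ofFn fun i => F (T i)).prod = P :=
      fun P => hcov P P.2
    choose T hT using hc
    let Φ : commutator Q × (B ⧸ Z) → (Fin r → Ξ) := fun x i => act (x.2.out : B) (T x.1 i)
    have hprod : ∀ x : commutator Q × (B ⧸ Z), (List.ofFn fun i => F (Φ x i)).prod = x.1 := by
      intro x
      simp only [Φ, hF]
      rw [list_conj_prod (fun i => F (T x.1 i)) ((x.2.out : B) : Q), hT]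
      have := comm_eq_one_of_mem hB (x.2.out : B).2 x.1.2
      rw [commutatorElement_eq_one_iff_mul_comm] at this
      rw [← this]
      group
    have hΦ : Function.Injective Φ := by
      rintro ⟨P, b⟩ ⟨P', b'⟩ h
      have hP : P = P' := by
        apply Subtype.ext
        have a1 := hprod (P, b)
        have a2 := hprod (P', b')
        simp only at a1 a2
        rw [← a1, ← a2, h]
      subst hP
      have h3 := congrFun h ⟨0, hr⟩
      simp only [Φ] at h3
      have h4 : act (((b'.out : B) : Q)⁻¹ * ((b.out : B) : Q)) (T P ⟨0, hr⟩) = T P ⟨0, hr⟩ := by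
        rw [hmul, h3, ← hmul, inv_mul_cancel, hone]
      have h5 := hstab _ (B.mul_mem (B.inv_mem (b'.out).2) (b.out).2) _ h4
      have h6 : b' = b := by
        rw [← QuotientGroup.out_eq' b', ← QuotientGroup.out_eq' b, QuotientGroup.eq]
        exact Subgroup.mem_subgroupOf.2 h5
      rw [h6]
    have := Nat.card_le_card_of_injective Φ hΦ
    rwa [Nat.card_prod, Nat.card_fun, Nat.card_eq_fintype_card (α := Fin r), Fintype.card_fin] at this
  calc Nat.card (commutator Q) ^ Fintype.card ι * Nat.card (⁅B, (⊤ : Subgroup Q)⁆ : Subgroup Q)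
      ≤ Nat.card (commutator Q) ^ Fintype.card ι * m ^ Fintype.card ι := by gcongr
    _ = (Nat.card (commutator Q) * m) ^ Fintype.card ι := (mul_pow _ _ _).symm
    _ ≤ (Nat.card Ξ ^ r) ^ Fintype.card ι := by gcongr
    _ = _ := (pow_mul _ _ _).symm

section quot

variable {G : Type*} [Group G]

theorem index_lcs_quot {k c : ℕ} (h : k ≤ c) :
    (lcs (G ⧸ lcs G c) k).index = (lcs G k).index := by
  have hs : Function.Surjective (QuotientGroup.mk' (lcs G c)) := QuotientGroup.mk'_surjective _
  rw [← Subgroup.index_comap_of_surjective (lcs (G ⧸ lcs G c) k) hs]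
  congr 1
  rw [← lcs_map hs k, Subgroup.comap_map_eq, QuotientGroup.ker_mk']
  exact sup_eq_left.2 (lcs_antitone h)

theorem card_lcs_quot [Finite G] {k c : ℕ} (h : k ≤ c) :
    Nat.card (lcs (G ⧸ lcs G c) k) * (lcs G k).index = (lcs G c).index := by
  rw [← index_lcs_quot h, Subgroup.card_mul_index]
  rfl

theorem card_quot_center_le [Finite G] {c : ℕ} :
    Nat.card ((G ⧸ lcs G (c + 1)) ⧸ Subgroup.center (G ⧸ lcs G (c + 1))) ≤ (lcs G c).index := by
  have h1 : lcs (G ⧸ lcs G (c + 1)) c ≤ Subgroup.center _ := lcs_le_center (lcs_quot_eq_bot _)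
  have h2 := Subgroup.index_antitone h1
  rw [index_lcs_quot (Nat.le_succ c)] at h2
  exact h2

/-- The second quotient is bounded in terms of the abelianization. -/
theorem index_lcs_two_le [Finite G] {ι : Type*} [Fintype ι] (v : ι → G)
    (hv : Subgroup.closure (Set.range v) = ⊤) :
    (lcs G 2).index ≤ (lcs G 1).index ^ (Fintype.card ι + 1) := by
  classical
  set Q := G ⧸ lcs G 2 with hQ
  set q := QuotientGroup.mk' (lcs G 2) with hq
  have hqs : Function.Surjective q := QuotientGroup.mk'_surjective _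
  have hbot : lcs Q 2 = ⊥ := lcs_quot_eq_bot 2
  have hB : CentralPair (lcs Q 0) := centralPair_lcs hbot
  have hv' : Subgroup.closure (Set.range fun i => q (v i)) ⊔ commutator Q = ⊤ := by
    have h := congrArg (Subgroup.map q) hv
    rw [MonoidHom.map_closure, Subgroup.map_top_of_surjective q hqs, ← Set.range_comp] at h
    have h' : Subgroup.closure (Set.range fun i => q (v i)) = ⊤ := h
    rw [h', top_sup_eq]
  have h1 := card_comm_le (lcs Q 0) hB _ hv'
  have h2 : Nat.card (lcs Q 0 ⧸ (Subgroup.center Q).subgroupOf (lcs Q 0)) ≤ (lcs G 1).index := by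
    have e1 : lcs Q 1 ≤ Subgroup.center Q := lcs_le_center hbot
    have e2 := Subgroup.index_antitone e1
    rw [index_lcs_quot (G := G) (by omega : 1 ≤ 2)] at e2
    have e3 : Nat.card (lcs Q 0 ⧸ (Subgroup.center Q).subgroupOf (lcs Q 0)) =
        (Subgroup.center Q).relIndex (lcs Q 0) := rfl
    have e4 : (Subgroup.center Q).relIndex (lcs Q 0) = (Subgroup.center Q).index :=
      Subgroup.relIndex_top_right _
    rw [e3, e4]
    exact e2
  have h3 : Nat.card (lcs Q 1) * (lcs G 1).index = (lcs G 2).index := card_lcs_quot (by omega)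
  rw [← h3, pow_succ]
  refine Nat.mul_le_mul_right _ ?_
  calc Nat.card (lcs Q 1) ≤ _ := h1
    _ ≤ _ := by gcongr

end quot

section abel

/-- A group with abelianization generated by few elements of bounded order. -/
theorem index_lcs_one_le {G : Type*} [Group G] {ι : Type*} [Fintype ι] (v : ι → G)
    (hv : Subgroup.closure (Set.range v) = ⊤) {N : ℕ} (hN : 0 < N) (hpow : ∀ x : G, x ^ N = 1) :
    (lcs G 1).index ≤ N ^ Fintype.card ι := by
  classical
  -- work in the abelianization
  set A := Abelianization G with hA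
  let w : ι → A := fun i => Abelianization.of (v i)
  have hw : Subgroup.closure (Set.range w) = ⊤ := by
    have hs : Function.Surjective (Abelianization.of (G := G)) := QuotientGroup.mk'_surjective _
    have h := congrArg (Subgroup.map (Abelianization.of (G := G))) hv
    rw [MonoidHom.map_closure, Subgroup.map_top_of_surjective _ hs, ← Set.range_comp] at h
    exact h
  have hpowA : ∀ x : A, x ^ N = 1 := by
    intro x
    have hs : Function.Surjective (Abelianization.of (G := G)) := QuotientGroup.mk'_surjective _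
    obtain ⟨y, rfl⟩ := hs x
    rw [← map_pow, hpow, map_one]
  let Φ : (ι → Fin N) → A := fun e => ∏ i, w i ^ (e i : ℕ)
  have hΦ : Function.Surjective Φ := by
    let S : Subgroup A :=
      { carrier := Set.range Φ
        one_mem' := ⟨fun _ => ⟨0, hN⟩, by simp [Φ]⟩
        mul_mem' := by
          rintro _ _ ⟨e, rfl⟩ ⟨e', rfl⟩
          refine ⟨fun i => ⟨(e i + e' i) % N, Nat.mod_lt _ hN⟩, ?_⟩
          simp only [Φ]
          rw [← Finset.prod_mul_distrib]
          refine Finset.prod_congr rfl fun i _ => ?_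
          rw [← pow_add]
          conv_rhs => rw [← Nat.div_add_mod (e i + e' i) N, pow_add, pow_mul, hpowA, one_pow,
            one_mul]
        inv_mem' := by
          rintro _ ⟨e, rfl⟩
          refine ⟨fun i => ⟨(N - e i) % N, Nat.mod_lt _ hN⟩, ?_⟩
          simp only [Φ]
          rw [← Finset.prod_inv_distrib]
          refine Finset.prod_congr rfl fun i _ => ?_
          rw [eq_inv_iff_mul_eq_one, ← pow_add]
          have h1 : (w i) ^ ((N - e i) % N + e i) = (w i) ^ ((N - e i) + e i) := by
            rw [pow_add, pow_add]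
            congr 1
            conv_rhs => rw [← Nat.div_add_mod (N - e i) N, pow_add, pow_mul, hpowA, one_pow,
              one_mul]
          rw [h1, Nat.sub_add_cancel (e i).2.le, hpowA] }
    have hS : (⊤ : Subgroup A) ≤ S := by
      rw [← hw, Subgroup.closure_le]
      rintro _ ⟨i, rfl⟩
      refine ⟨fun j => ⟨(if j = i then 1 else 0) % N, Nat.mod_lt _ hN⟩, ?_⟩
      simp only [Φ]
      rw [Finset.prod_eq_single i]
      · rw [if_pos rfl]
        conv_rhs => rw [← pow_one (w i), ← Nat.div_add_mod 1 N, pow_add, pow_mul, hpowA, one_pow,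
          one_mul]
      · intro j _ hj
        rw [if_neg hj]
        simp
      · intro h; exact absurd (Finset.mem_univ i) h
    intro x
    exact hS (Subgroup.mem_top x)
  have h1 := Nat.card_le_card_of_surjective Φ hΦ
  rw [Nat.card_fun, Nat.card_eq_fintype_card (α := ι), Nat.card_eq_fintype_card (α := Fin N),
    Fintype.card_fin] at h1
  exact h1

end abel

end Pool.Agent.H344.SC
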