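import Mathlib
import Pool.Agent.H344.SC.Orbit
import Pool.Agent.H344.SC.Defs

/-!
# Markings of surface groups and the counting inequality
-/

namespace Pool.Agent.H344.SC

open scoped commutatorElement IsMulCommutative

section basic

variable {g p : ℕ} {G H : Type*} [Group G] [Group H]

theorem surfaceWord_map (f : Gen g p → G) (φ : G →* H) :
    φ (surfaceWord f) = surfaceWord (fun x => φ (f x)) := by
  unfold surfaceWord
  rw [map_mul, map_list_prod, map_list_prod, List.map_map, List.map_map]
  congr 2
  congr 1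
  funext i
  simp [map_commutatorElement]

theorem surfaceWord_gen : surfaceWord (gen : Gen g p → SurfaceGroup g p) = 1 := by
  have h := surfaceWord_map (g := g) (p := p) FreeGroup.of
    (PresentedGroup.mk ({surfaceWord FreeGroup.of} : Set (FreeGroup (Gen g p))))
  have h2 : PresentedGroup.mk ({surfaceWord FreeGroup.of} : Set (FreeGroup (Gen g p)))
      (surfaceWord FreeGroup.of) = 1 :=
    PresentedGroup.one_of_mem (Set.mem_singleton _)
  rw [h2] at h
  exact h.symm

theorem curveWord_map (f : Gen g p → G) (φ : G →* H) (s : Curve g p) :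
    φ (curveWord f s) = curveWord (fun x => φ (f x)) s := by
  rcases s with i | i | ⟨I, J⟩
  · rfl
  · rfl
  · unfold curveWord
    rw [map_mul, map_list_prod, map_list_prod, List.map_map, List.map_map]
    congr 2
    congr 1
    funext i
    simp [map_commutatorElement]

theorem closure_range_gen : Subgroup.closure (Set.range (gen : Gen g p → SurfaceGroup g p)) = ⊤ :=
  PresentedGroup.closure_range_of _

theorem closure_range_hom {π : Type*} [Group π] {ρ : SurfaceGroup g p →* π}
    (hρ : Function.Surjective ρ) : Subgroup.closure (Set.range fun x : Gen g p => ρ (gen x)) = ⊤ := by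
  have h := congrArg (Subgroup.map ρ) (closure_range_gen (g := g) (p := p))
  rw [MonoidHom.map_closure, Subgroup.map_top_of_surjective ρ hρ, ← Set.range_comp] at h
  exact h

instance : Finite (Gen g p) := by
  have : Function.Surjective (fun x : Fin g ⊕ Fin g ⊕ Fin p => match x with
    | .inl i => Gen.a i
    | .inr (.inl i) => Gen.b i
    | .inr (.inr j) => Gen.c j) := by
    rintro (i | i | j)
    · exact ⟨.inl i, rfl⟩
    · exact ⟨.inr (.inl i), rfl⟩
    · exact ⟨.inr (.inr j), rfl⟩
  exact Finite.of_surjective _ this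

instance : Finite (Curve g p) := by
  have : Function.Surjective (fun x : Fin g ⊕ Fin g ⊕ (Finset (Fin g) × Finset (Fin p)) => match x with
    | .inl i => Curve.a i
    | .inr (.inl i) => Curve.b i
    | .inr (.inr j) => Curve.sep j.1 j.2) := by
    rintro (i | i | ⟨I, J⟩)
    · exact ⟨.inl i, rfl⟩
    · exact ⟨.inr (.inl i), rfl⟩
    · exact ⟨.inr (.inr (I, J)), rfl⟩
  exact Finite.of_surjective _ this

/-- The marking given by a tuple, in the punctured case. -/
def mark (κ : Fin (p + 1) → G) (t : Ix g p → G) : Gen g (p + 1) → G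
  | .a i => t (.inl i)
  | .b i => t (.inr (.inl i))
  | .c j => Fin.cases (κ 0) (fun j => t (.inr (.inr j)) * κ j.succ * (t (.inr (.inr j)))⁻¹) j

theorem surfaceWord_mark (κ : Fin (p + 1) → G) (t : Ix g p → G) :
    surfaceWord (mark κ t) = word (κ 0) (fun j => κ j.succ) t := by
  unfold surfaceWord word
  rw [List.finRange_succ, List.map_cons, List.prod_cons, List.map_map]
  rw [← mul_assoc]
  rfl

theorem mark_map (κ : Fin (p + 1) → G) (t : Ix g p → G) (f : G →* H) :
    (fun x => f (mark κ t x)) = mark (fun j => f (κ j)) (fun i => f (t i)) := by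
  funext x
  rcases x with i | i | j
  · rfl
  · rfl
  · refine Fin.cases ?_ (fun j => ?_) j
    · rfl
    · simp [mark]

/-- The marking given by a tuple, in the closed case. -/
def mark0 (t : Ix g 0 → G) : Gen g 0 → G
  | .a i => t (.inl i)
  | .b i => t (.inr (.inl i))
  | .c j => j.elim0

theorem surfaceWord_mark0 (t : Ix g 0 → G) :
    surfaceWord (mark0 t) = word 1 (fun j : Fin 0 => j.elim0) t := by
  unfold surfaceWord word
  simp [mark0]

theorem mark0_map (t : Ix g 0 → G) (f : G →* H) :
    (fun x => f (mark0 t x)) = mark0 (fun i => f (t i)) := by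
  funext x
  rcases x with i | i | j
  · rfl
  · rfl
  · exact j.elim0

theorem gens_of_mark (κ : Fin (p + 1) → G) (t : Ix g p → G)
    (h1 : surfaceWord (mark κ t) = 1) (h2 : Subgroup.closure (Set.range (mark κ t)) = ⊤) :
    Gens (vec (fun j => κ j.succ) t) := by
  set K := Subgroup.closure (Set.range (vec (fun j => κ j.succ) t)) ⊔ commutator G with hK
  have hv : ∀ i, vec (fun j => κ j.succ) t i ∈ K := fun i =>
    (le_sup_left : _ ≤ K) (Subgroup.subset_closure ⟨i, rfl⟩)
  have hcom : ∀ x y : G, ⁅x, y⁆ ∈ K := fun x y =>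
    (le_sup_right : _ ≤ K) (Subgroup.commutator_mem_commutator (Subgroup.mem_top x)
      (Subgroup.mem_top y))
  have ha : ∀ i, mark κ t (.a i) ∈ K := fun i => hv (.inr (.inl i))
  have hb : ∀ i, mark κ t (.b i) ∈ K := fun i => by
    have := K.inv_mem (hv (.inl i))
    simpa [vec, mark] using this
  have hcs : ∀ j : Fin p, mark κ t (.c j.succ) ∈ K := fun j => by
    have h3 : κ j.succ ∈ K := by
      have := K.inv_mem (hv (.inr (.inr j)))
      simpa [vec] using this
    have h4 : mark κ t (.c j.succ) = ⁅t (.inr (.inr j)), κ j.succ⁆ * κ j.succ := by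
      simp [mark, commutatorElement_def]
    rw [h4]
    exact K.mul_mem (hcom _ _) h3
  have hc0 : mark κ t (.c 0) ∈ K := by
    unfold surfaceWord at h1
    rw [List.finRange_succ, List.map_cons, List.prod_cons, List.map_map] at h1
    have e1 : ((List.finRange g).map fun i => ⁅mark κ t (.a i), mark κ t (.b i)⁆).prod ∈ K := by
      refine K.list_prod_mem ?_
      intro x hx
      obtain ⟨i, _, rfl⟩ := List.mem_map.1 hx
      exact hcom _ _
    have e2 : (List.map ((fun j => mark κ t (Gen.c j)) ∘ Fin.succ) (List.finRange p)).prod ∈ K := by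
      refine K.list_prod_mem ?_
      intro x hx
      obtain ⟨j, _, rfl⟩ := List.mem_map.1 hx
      exact hcs j
    have e3 : mark κ t (.c 0) =
        (((List.finRange g).map fun i => ⁅mark κ t (.a i), mark κ t (.b i)⁆).prod)⁻¹ *
        ((List.map ((fun j => mark κ t (Gen.c j)) ∘ Fin.succ) (List.finRange p)).prod)⁻¹ := by
      rw [← mul_inv_rev, eq_inv_iff_mul_eq_one]
      rw [← mul_inv_cancel (((List.finRange g).map fun i =>
        ⁅mark κ t (.a i), mark κ t (.b i)⁆).prod)]
      rw [eq_mul_inv_iff_mul_eq]
      have := mul_eq_one_iff_eq_inv.1 h1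
      rw [this]
      group
    rw [e3]
    exact K.mul_mem (K.inv_mem e1) (K.inv_mem e2)
  unfold Gens
  rw [eq_top_iff, ← h2, Subgroup.closure_le]
  rintro _ ⟨x, rfl⟩
  rcases x with i | i | j
  · exact ha i
  · exact hb i
  · refine Fin.cases hc0 (fun j => hcs j) j

theorem gens_of_mark0 (t : Ix g 0 → G) (h2 : Subgroup.closure (Set.range (mark0 t)) = ⊤) :
    Gens (vec (fun j : Fin 0 => j.elim0) t) := by
  set K := Subgroup.closure (Set.range (vec (fun j : Fin 0 => j.elim0) t)) ⊔ commutator G with hK
  have hv : ∀ i, vec (fun j : Fin 0 => j.elim0) t i ∈ K := fun i =>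
    (le_sup_left : _ ≤ K) (Subgroup.subset_closure ⟨i, rfl⟩)
  unfold Gens
  rw [eq_top_iff, ← h2, Subgroup.closure_le]
  rintro _ ⟨x, rfl⟩
  rcases x with i | i | j
  · exact hv (.inr (.inl i))
  · have := K.inv_mem (hv (.inl i))
    simpa [vec, mark0] using this
  · exact j.elim0

end basic

end Pool.Agent.H344.SC
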