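import Mathlib
import Pool.Agent.H344.SC.Marking

/-!
# The counting inequality for surface groups
-/

namespace Pool.Agent.H344.SC

open scoped commutatorElement IsMulCommutative

/-- Every element of every lower central quotient is a product of `r` simple elements or
inverses of simple elements. -/
def Covered (g p r : ℕ) : Prop := ∀ c, ∀ y : SurfaceGroup g p, ∃ l : Fin r → SurfaceGroup g p,
  (∀ i, l i ∈ simpleElements g p ∨ (l i)⁻¹ ∈ simpleElements g p) ∧
    y⁻¹ * (List.ofFn l).prod ∈ lcs (SurfaceGroup g p) c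

section conj

variable {Q : Type*} [Group Q]

theorem conj_eq_of_center {u v x : Q} (h : u⁻¹ * v ∈ Subgroup.center Q) :
    v * x * v⁻¹ = u * x * u⁻¹ := by
  set z := u⁻¹ * v with hz
  have hv : v = u * z := by rw [hz]; group
  have h2 := central_comm (x := x) h
  rw [hv]
  calc u * z * x * (u * z)⁻¹ = u * (z * x) * z⁻¹ * u⁻¹ := by group
    _ = u * (x * z) * z⁻¹ * u⁻¹ := by rw [h2]
    _ = _ := by group

/-- Conjugation by a class modulo the center. -/
noncomputable def cc (h : Q ⧸ Subgroup.center Q) (x : Q) : Q := h.out * x * (h.out)⁻¹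

theorem cc_mk (u x : Q) : cc (QuotientGroup.mk u) x = u * x * u⁻¹ := by
  unfold cc
  refine conj_eq_of_center ?_
  rw [← QuotientGroup.eq]
  exact (QuotientGroup.out_eq' _).symm

theorem cc_mul (b : Q) (h : Q ⧸ Subgroup.center Q) (x : Q) :
    cc (QuotientGroup.mk b * h) x = b * cc h x * b⁻¹ := by
  induction h using QuotientGroup.induction_on with
  | H u =>
    rw [← QuotientGroup.mk_mul, cc_mk, cc_mk]
    group

theorem cc_inv (h : Q ⧸ Subgroup.center Q) (x : Q) : (cc h x)⁻¹ = cc h x⁻¹ := by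
  unfold cc; group

/-- `x` or its inverse. -/
def sg (s : Bool) (x : Q) : Q := if s then x else x⁻¹

theorem sg_conj (s : Bool) (b x : Q) : sg s (b * x * b⁻¹) = b * sg s x * b⁻¹ := by
  cases s
  · simp only [sg]; simp only [Bool.false_eq_true, if_false]; group
  · simp [sg]

theorem map_sg {H : Type*} [Group H] (f : Q →* H) (s : Bool) (x : Q) :
    f (sg s x) = sg s (f x) := by
  cases s <;> simp [sg]

end conj

section punctured

variable {g p : ℕ} {G : Type*} [Group G]

/-- The data of a curve, a sign, and a signed map of punctures. -/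
abbrev Data (g p : ℕ) := Curve g p × Bool × (Fin p → Fin p) × (Fin p → Bool)

/-- The peripheral elements attached to the data. -/
def kap (ρ : SurfaceGroup g p →* G) (D : Data g p) (j : Fin p) : G :=
  sg (D.2.2.2 j) (ρ (gen (.c (D.2.2.1 j))))

theorem cover_elem (ρ : SurfaceGroup g (p + 1) →* G) (hρ : Function.Surjective ρ)
    {x : SurfaceGroup g (p + 1)} (hx : x ∈ simpleElements g (p + 1)) (s' : Bool) :
    ∃ (D : Data g (p + 1)) (t : Ix g p → G) (h : G), D.2.1 = s' ∧
      (∀ c, t ∈ Sol (kap ρ D 0) (fun j => kap ρ D j.succ) c) ∧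
      ρ x = h * curveWord (mark (kap ρ D) t) D.1 * h⁻¹ := by
  classical
  obtain ⟨φ, ⟨σ, hσ⟩, s, rfl⟩ := hx
  have h1 : ∀ j, ∃ (e : Bool) (h : SurfaceGroup g (p + 1)),
      φ (gen (.c j)) = h * sg e (gen (.c (σ j))) * h⁻¹ := by
    intro j
    rcases hσ j with h | h
    · obtain ⟨c, hc⟩ := isConj_iff.1 h
      refine ⟨true, c⁻¹, ?_⟩
      simp only [sg, if_true]
      rw [← hc]; group
    · obtain ⟨c, hc⟩ := isConj_iff.1 h
      refine ⟨false, c⁻¹, ?_⟩
      simp only [sg]
      rw [if_neg (by simp), ← hc]; group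
  choose e h he using h1
  let ψ : SurfaceGroup g (p + 1) →* G := ρ.comp (MulAut.conj (h 0)⁻¹ * φ).toMonoidHom
  have hψs : Function.Surjective ψ := hρ.comp (MulAut.conj (h 0)⁻¹ * φ).surjective
  have hψ : ∀ x, ψ x = ρ ((h 0)⁻¹ * φ x * h 0) := by
    intro x
    simp only [ψ, MonoidHom.comp_apply]
    congr 1
    change (h 0)⁻¹ * φ x * ((h 0)⁻¹)⁻¹ = _
    rw [inv_inv]
  let D : Data g (p + 1) := (s, s', σ, e)
  let t : Ix g p → G := fun i => match i with
    | .inl i => ψ (gen (.a i))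
    | .inr (.inl i) => ψ (gen (.b i))
    | .inr (.inr j) => ρ ((h 0)⁻¹ * h j.succ)
  have hmark : mark (kap ρ D) t = fun x => ψ (gen x) := by
    funext x
    rcases x with i | i | j
    · rfl
    · rfl
    · refine Fin.cases ?_ (fun j => ?_) j
      · change kap ρ D 0 = ψ (gen (.c 0))
        rw [hψ, he 0]
        simp only [kap, D]
        rw [← map_sg]
        congr 1
        group
      · change ρ ((h 0)⁻¹ * h j.succ) * kap ρ D j.succ * (ρ ((h 0)⁻¹ * h j.succ))⁻¹ = _
        rw [hψ, he j.succ]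
        simp only [kap, D]
        rw [← map_sg, ← map_inv, ← map_mul, ← map_mul]
        congr 1
        group
  have hword : surfaceWord (mark (kap ρ D) t) = 1 := by
    rw [hmark, ← surfaceWord_map, surfaceWord_gen, map_one]
  have hclos : Subgroup.closure (Set.range (mark (kap ρ D) t)) = ⊤ := by
    rw [hmark]; exact closure_range_hom hψs
  refine ⟨D, t, ρ (h 0), rfl, fun c => ⟨?_, gens_of_mark _ t hword hclos⟩, ?_⟩
  · rw [← surfaceWord_mark, hword]
    exact Subgroup.one_mem _
  · have e1 : h 0 * ((h 0)⁻¹ * φ (curveWord gen s) * h 0) * (h 0)⁻¹ = φ (curveWord gen s) := by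
      simp [mul_assoc]
    rw [hmark, ← curveWord_map, hψ, ← map_inv, ← map_mul, ← map_mul, e1]

theorem covered_quot {r : ℕ} (hcov : Covered g p r) (ρ : SurfaceGroup g p →* G)
    (hρ : Function.Surjective ρ) (c : ℕ) (P : G ⧸ lcs G c) :
    ∃ l : Fin r → SurfaceGroup g p,
      (∀ i, l i ∈ simpleElements g p ∨ (l i)⁻¹ ∈ simpleElements g p) ∧
      (List.ofFn fun i => QuotientGroup.mk' (lcs G c) (ρ (l i))).prod = P := by
  obtain ⟨x, rfl⟩ := QuotientGroup.mk'_surjective (lcs G c) P
  obtain ⟨y, rfl⟩ := hρ x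
  obtain ⟨l, hl1, hl2⟩ := hcov c y
  refine ⟨l, hl1, ?_⟩
  have h1 : ρ (y⁻¹ * (List.ofFn l).prod) ∈ lcs G c := by
    rw [← lcs_map hρ c]
    exact Subgroup.mem_map_of_mem _ hl2
  rw [map_mul, map_inv, map_list_prod, List.map_ofFn] at h1
  have h2 : QuotientGroup.mk' (lcs G c) (ρ y) =
      QuotientGroup.mk' (lcs G c) (List.ofFn (ρ ∘ l)).prod := QuotientGroup.eq.2 h1
  rw [h2, map_list_prod, List.map_ofFn]
  rfl

variable [Finite G]

/-- The configuration space in the punctured case. -/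
abbrev Conf (ρ : SurfaceGroup g (p + 1) →* G) (c : ℕ) : Type _ :=
  Σ D : Data g (p + 1), (QSol (g := g) (kap ρ D 0) (fun j => kap ρ D j.succ) c) ×
    ((G ⧸ lcs G c) ⧸ Subgroup.center (G ⧸ lcs G c))

theorem punctured_ineq (ρ : SurfaceGroup g (p + 1) →* G) (hρ : Function.Surjective ρ)
    {r : ℕ} (hr : 1 ≤ r) (hcov : Covered g (p + 1) r) (d : ℕ) :
    Nat.card (lcs (G ⧸ lcs G (d + 2)) 1) ^ Fintype.card (Ix g p) *
      Nat.card (lcs (G ⧸ lcs G (d + 2)) (d + 1)) ≤
      Nat.card (Conf ρ (d + 2)) ^ (r * Fintype.card (Ix g p)) := by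
  classical
  set Q := G ⧸ lcs G (d + 2) with hQ
  set q := QuotientGroup.mk' (lcs G (d + 2)) with hq
  have hqs : Function.Surjective q := QuotientGroup.mk'_surjective _
  have hbot : lcs Q (d + 2) = ⊥ := lcs_quot_eq_bot (d + 2)
  have hB : CentralPair (lcs Q d) := centralPair_lcs hbot
  -- a generating family
  have hone : (1 : SurfaceGroup g (p + 1)) ∈ simpleElements g (p + 1) := by
    refine ⟨1, ⟨1, fun j => Or.inl (IsConj.refl _)⟩, .sep ∅ ∅, ?_⟩
    simp [curveWord]
  obtain ⟨D0, t0, h0, -, ht0, -⟩ := cover_elem ρ hρ hone true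
  have hgens : Gens (fun i => q (vec (fun j => kap ρ D0 j.succ) t0 i)) := (ht0 0).2.map hqs
  -- the map to the quotient group
  let F : Conf ρ (d + 2) → Q := fun ξ => sg ξ.1.2.1
    (cc ξ.2.2 (curveWord (mark (fun j => q (kap ρ ξ.1 j)) ξ.2.1.1) ξ.1.1))
  let act : Q → Conf ρ (d + 2) → Conf ρ (d + 2) := fun b ξ =>
    ⟨ξ.1, ξ.2.1, QuotientGroup.mk b * ξ.2.2⟩
  refine orbit_bound (lcs Q d) hB _ hgens act ?_ ?_ F ?_ ?_ hr ?_
  · intro b b' ξ
    simp only [act, QuotientGroup.mk_mul, mul_assoc]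
  · intro ξ
    simp only [act, QuotientGroup.mk_one, one_mul]
  · intro b ξ
    simp only [F, act]
    rw [cc_mul, sg_conj]
  · intro b _ ξ h
    obtain ⟨D, t, h'⟩ := ξ
    simp only [act, Sigma.mk.injEq, heq_eq_eq, Prod.mk.injEq, true_and] at h
    rw [mul_eq_right] at h
    exact (QuotientGroup.eq_one_iff _).1 h
  · intro P _
    obtain ⟨l, hl1, hl2⟩ := covered_quot hcov ρ hρ (d + 2) P
    have key : ∀ i, ∃ ξ : Conf ρ (d + 2), F ξ = q (ρ (l i)) := by
      intro i
      have : ∃ (s' : Bool) (x : SurfaceGroup g (p + 1)), x ∈ simpleElements g (p + 1) ∧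
          l i = sg s' x := by
        rcases hl1 i with h | h
        · exact ⟨true, _, h, by simp [sg]⟩
        · exact ⟨false, _, h, by simp [sg]⟩
      obtain ⟨s', x, hx, hlx⟩ := this
      obtain ⟨D, t, h, hD, ht, hx'⟩ := cover_elem ρ hρ hx s'
      refine ⟨⟨D, ⟨_, ⟨t, ht _, rfl⟩⟩, QuotientGroup.mk (q h)⟩, ?_⟩
      simp only [F]
      rw [cc_mk, hlx, map_sg, map_sg, hx', hD]
      congr 1
      rw [map_mul, map_mul, map_inv, curveWord_map, mark_map]
    choose T hT using key
    refine ⟨T, ?_⟩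
    rw [← hl2]
    congr 2
    funext i
    exact hT i

theorem card_conf_le (ρ : SurfaceGroup g (p + 1) →* G) (d : ℕ) :
    Nat.card (Conf ρ (d + 1)) * (lcs G (d + 2)).index ≤
      Nat.card (Data g (p + 1)) * ((lcs G (d + 1)).index ^ Fintype.card (Ix g p) *
        (lcs G 2).index * (lcs G d).index) := by
  classical
  have := Fintype.ofFinite (Data g (p + 1))
  unfold Conf
  rw [Nat.card_sigma, Finset.sum_mul, Nat.card_eq_fintype_card, ← Finset.card_univ,
    ← smul_eq_mul, ← Finset.sum_const]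
  refine Finset.sum_le_sum fun D _ => ?_
  rw [Nat.card_prod]
  have h1 := card_qsol (g := g) (kap ρ D 0) (fun j => kap ρ D j.succ) d
  have h2 := card_quot_center_le (G := G) (c := d)
  calc _ = (Nat.card (QSol (g := g) (kap ρ D 0) (fun j => kap ρ D j.succ) (d + 1)) *
      (lcs G (d + 2)).index) *
      Nat.card ((G ⧸ lcs G (d + 1)) ⧸ Subgroup.center (G ⧸ lcs G (d + 1))) := by ring
    _ ≤ ((lcs G (d + 1)).index ^ Fintype.card (Ix g p) * (lcs G 2).index) * (lcs G d).index := by
      gcongr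

end punctured

section closed

variable {g : ℕ} {G : Type*} [Group G]

/-- The trivial family. -/
def nil (G : Type*) : Fin 0 → G := fun j => j.elim0

theorem cover_elem0 (ρ : SurfaceGroup g 0 →* G) (hρ : Function.Surjective ρ)
    {x : SurfaceGroup g 0} (hx : x ∈ simpleElements g 0) :
    ∃ (D : Curve g 0) (t : Ix g 0 → G), (∀ c, t ∈ Sol 1 (nil G) c) ∧
      ρ x = curveWord (mark0 t) D := by
  obtain ⟨φ, -, s, rfl⟩ := hx
  let ψ : SurfaceGroup g 0 →* G := ρ.comp φ.toMonoidHom
  have hψs : Function.Surjective ψ := hρ.comp φ.surjective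
  let t : Ix g 0 → G := fun i => match i with
    | .inl i => ψ (gen (.a i))
    | .inr (.inl i) => ψ (gen (.b i))
    | .inr (.inr j) => j.elim0
  have hmark : mark0 t = fun x => ψ (gen x) := by
    funext x
    rcases x with i | i | j
    · rfl
    · rfl
    · exact j.elim0
  have hword : surfaceWord (mark0 t) = 1 := by
    rw [hmark, ← surfaceWord_map, surfaceWord_gen, map_one]
  have hclos : Subgroup.closure (Set.range (mark0 t)) = ⊤ := by
    rw [hmark]; exact closure_range_hom hψs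
  refine ⟨s, t, fun c => ⟨?_, gens_of_mark0 t hclos⟩, ?_⟩
  · have := surfaceWord_mark0 t
    rw [hword] at this
    unfold nil
    rw [← this]
    exact Subgroup.one_mem _
  · rw [hmark, ← curveWord_map]
    rfl

theorem nil_eq {G : Type*} (f : Fin 0 → G) : f = nil G := by
  funext j; exact j.elim0

theorem word_conj {g p : ℕ} (κ0 : G) (κ : Fin p → G) (t : Ix g p → G) (b : G) :
    b * word κ0 κ t * b⁻¹ = word (b * κ0 * b⁻¹) (fun j => b * κ j * b⁻¹) (fun i => b * t i * b⁻¹) := by
  have := word_map (MulAut.conj b).toMonoidHom κ0 κ t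
  exact this

/-- The conjugate of a solution is a solution. -/
theorem Sol_conj {c : ℕ} {t : Ix g 0 → G} (ht : t ∈ Sol 1 (nil G) c) (b : G) :
    (fun i => b * t i * b⁻¹) ∈ Sol 1 (nil G) c := by
  refine ⟨?_, ?_⟩
  · have h1 := word_conj 1 (nil G) t b
    rw [nil_eq (fun j => b * nil G j * b⁻¹), mul_one, mul_inv_cancel] at h1
    rw [← h1]
    exact Subgroup.Normal.conj_mem inferInstance _ ht.1 b
  · have h1 := ht.2.map (f := (MulAut.conj b).toMonoidHom) (MulAut.conj b).surjective
    have h2 := vec_map (MulAut.conj b).toMonoidHom (nil G) t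
    rw [nil_eq (fun j => (MulAut.conj b).toMonoidHom (nil G j))] at h2
    rw [← h2] at h1
    exact h1

/-- The configuration space in the closed case. -/
abbrev Conf0 (g : ℕ) (G : Type*) [Group G] (c : ℕ) : Type _ :=
  (Curve g 0 × Bool) × (QSol (g := g) (1 : G) (nil G) c)

theorem QSol_conj {c : ℕ} {t : Ix g 0 → G ⧸ lcs G c} (ht : t ∈ QSol (1 : G) (nil G) c)
    (b : G ⧸ lcs G c) : (fun i => b * t i * b⁻¹) ∈ QSol (1 : G) (nil G) c := by
  obtain ⟨s, hs, rfl⟩ := ht
  obtain ⟨b', rfl⟩ := QuotientGroup.mk'_surjective _ b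
  refine ⟨_, Sol_conj hs b', ?_⟩
  funext i
  simp

/-- Conjugation of configurations. -/
def act0 {c : ℕ} (b : G ⧸ lcs G c) (ξ : Conf0 g G c) : Conf0 g G c :=
  (ξ.1, ⟨_, QSol_conj ξ.2.2 b⟩)

variable [Finite G]

theorem closed_ineq (ρ : SurfaceGroup g 0 →* G) (hρ : Function.Surjective ρ)
    {r : ℕ} (hr : 1 ≤ r) (hcov : Covered g 0 r) (d : ℕ) :
    Nat.card (lcs (G ⧸ lcs G (d + 2)) 1) ^ Fintype.card (Ix g 0) *
      Nat.card (lcs (G ⧸ lcs G (d + 2)) (d + 1)) ≤
      Nat.card (Conf0 g G (d + 2)) ^ (r * Fintype.card (Ix g 0)) := by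
  classical
  set Q := G ⧸ lcs G (d + 2) with hQ
  set q := QuotientGroup.mk' (lcs G (d + 2)) with hq
  have hqs : Function.Surjective q := QuotientGroup.mk'_surjective _
  have hbot : lcs Q (d + 2) = ⊥ := lcs_quot_eq_bot (d + 2)
  have hB : CentralPair (lcs Q d) := centralPair_lcs hbot
  -- a generating family
  have hone : (1 : SurfaceGroup g 0) ∈ simpleElements g 0 := by
    refine ⟨1, ⟨1, fun j => Or.inl (IsConj.refl _)⟩, .sep ∅ ∅, ?_⟩
    simp [curveWord]
  obtain ⟨D0, t0, ht0, -⟩ := cover_elem0 ρ hρ hone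
  have hgens : Gens (fun i => q (vec (nil G) t0 i)) := (ht0 0).2.map hqs
  -- the map to the quotient group
  let F : Conf0 g G (d + 2) → Q := fun ξ => sg ξ.1.2 (curveWord (mark0 ξ.2.1) ξ.1.1)
  refine orbit_bound (lcs Q d) hB _ hgens act0 ?_ ?_ F ?_ ?_ hr ?_
  · intro b b' ξ
    simp only [act0]
    congr 2
    funext i
    group
  · intro ξ
    simp only [act0]
    obtain ⟨ξ1, ξ2, ξ3⟩ := ξ
    congr 2
    funext i
    group
  · intro b ξ
    simp only [F, act0]
    rw [← sg_conj]
    congr 1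
    have h1 := curveWord_map (mark0 ξ.2.1) (MulAut.conj b).toMonoidHom ξ.1.1
    rw [mark0_map] at h1
    exact h1.symm
  · intro b hb ξ h
    obtain ⟨D, t, ht⟩ := ξ
    obtain ⟨s, hs, rfl⟩ := ht
    have h2 : ∀ i, b * q (s i) * b⁻¹ = q (s i) := by
      intro i
      exact congrFun (congrArg (fun x : Conf0 g G (d + 2) => x.2.1) h) i
    have hg : Gens (fun i => q (vec (nil G) s i)) := hs.2.map hqs
    have hker : (⊤ : Subgroup Q) ≤ (pairL hB ⟨b, hb⟩).ker := by
      rw [← hg]
      refine sup_le ?_ ?_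
      · rw [Subgroup.closure_le]
        rintro _ ⟨i, rfl⟩
        have hcomm : ∀ i, pairL hB ⟨b, hb⟩ (q (s i)) = 1 := by
          intro i
          apply Subtype.ext
          rw [pairL_coe]
          change ⁅q (s i), b⁆ = 1
          rw [commutatorElement_eq_one_iff_mul_comm]
          have := h2 i
          rw [mul_inv_eq_iff_eq_mul] at this
          exact this.symm
        rcases i with i | i | i
        · rw [SetLike.mem_coe, MonoidHom.mem_ker]
          simp only [vec, map_inv, hcomm, inv_one]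
        · rw [SetLike.mem_coe, MonoidHom.mem_ker]
          simp only [vec, hcomm]
        · exact i.elim0
      · exact fun x hx => pairL_of_mem_commutator hB _ hx
    rw [Subgroup.mem_center_iff]
    intro x
    have h3 : pairL hB ⟨b, hb⟩ x = 1 := hker (Subgroup.mem_top x)
    have h4 : ⁅x, b⁆ = 1 := congrArg Subtype.val h3
    rwa [commutatorElement_eq_one_iff_mul_comm] at h4
  · intro P _
    obtain ⟨l, hl1, hl2⟩ := covered_quot hcov ρ hρ (d + 2) P
    have key : ∀ i, ∃ ξ : Conf0 g G (d + 2), F ξ = q (ρ (l i)) := by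
      intro i
      have : ∃ (s' : Bool) (x : SurfaceGroup g 0), x ∈ simpleElements g 0 ∧
          l i = sg s' x := by
        rcases hl1 i with h | h
        · exact ⟨true, _, h, by simp [sg]⟩
        · exact ⟨false, _, h, by simp [sg]⟩
      obtain ⟨s', x, hx, hlx⟩ := this
      obtain ⟨D, t, ht, hx'⟩ := cover_elem0 ρ hρ hx
      refine ⟨((D, s'), ⟨_, ⟨t, ht _, rfl⟩⟩), ?_⟩
      simp only [F]
      rw [hlx, map_sg, map_sg, hx']
      congr 1
      rw [curveWord_map, mark0_map]
    choose T hT using key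
    refine ⟨T, ?_⟩
    rw [← hl2]
    congr 2
    funext i
    exact hT i

theorem card_conf0_le (d : ℕ) :
    Nat.card (Conf0 g G (d + 1)) * (lcs G (d + 2)).index ≤
      Nat.card (Curve g 0 × Bool) * ((lcs G (d + 1)).index ^ Fintype.card (Ix g 0) *
        (lcs G 2).index) := by
  unfold Conf0
  rw [Nat.card_prod]
  have h1 := card_qsol (g := g) (1 : G) (nil G) d
  calc _ = Nat.card (Curve g 0 × Bool) *
      (Nat.card (QSol (g := g) (1 : G) (nil G) (d + 1)) * (lcs G (d + 2)).index) := by ring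
    _ ≤ _ := by gcongr

end closed

end Pool.Agent.H344.SC
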