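import Mathlib
import Pool.Agent.H344.SC.GS
import Pool.Agent.H344.SC.Ineq

/-!
# Finite nilpotent quotients of surface groups of large growth
-/

namespace Pool.Agent.H344.SC

open Module
open scoped commutatorElement

section induced

variable {k : Type*} [Field k] {α : Type*}

/-- The operator on the quotient is induced by the operator on the free module. -/
def Ind (J : Submodule k (V k α)) (A' : Module.End k (V k α ⧸ J)) (A : Module.End k (V k α)) :
    Prop := ∀ v, A' (J.mkQ v) = J.mkQ (A v)

theorem Ind.mul {J : Submodule k (V k α)} {A' B' : Module.End k (V k α ⧸ J)}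
    {A B : Module.End k (V k α)} (hA : Ind J A' A) (hB : Ind J B' B) :
    Ind J (A' * B') (A * B) := by
  intro v
  rw [Module.End.mul_apply, Module.End.mul_apply, hB, hA]

theorem Ind.one {J : Submodule k (V k α)} : Ind J 1 1 := fun _ => rfl

theorem Ind.list_prod {J : Submodule k (V k α)} {β : Type*} (L : List β)
    (A' : β → Module.End k (V k α ⧸ J)) (A : β → Module.End k (V k α))
    (h : ∀ b, Ind J (A' b) (A b)) : Ind J (L.map A').prod (L.map A).prod := by
  induction L with
  | nil => exact Ind.one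
  | cons b L ih =>
    simp only [List.map_cons, List.prod_cons]
    exact (h b).mul ih

theorem Ind.ext_one {J : Submodule k (V k α)} {A' : Module.End k (V k α ⧸ J)}
    {A : Module.End k (V k α)} (h : Ind J A' A) (h1 : ∀ v, A v - v ∈ J) : A' = 1 := by
  apply LinearMap.ext
  intro w
  obtain ⟨v, rfl⟩ := J.mkQ_surjective w
  rw [h v, Module.End.one_apply]
  exact (Submodule.Quotient.eq J).2 (h1 v)

end induced

section word

variable (k : Type*) [Field k] (g p C : ℕ)

/-- The operator of the surface word. -/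
noncomputable def opWord : Module.End k (V k (Gen g p)) :=
  ((List.finRange g).map fun i => (1 + X k (.a i)) * (1 + X k (.b i)) * Xi k C (.a i) *
    Xi k C (.b i)).prod * ((List.finRange p).map fun j => (1 + X k (.c j))).prod

noncomputable instance : Fintype (Gen g p) := Fintype.ofFinite _

theorem card_gen : Fintype.card (Gen g p) = 2 * g + p := by
  have e : Gen g p ≃ Fin g ⊕ Fin g ⊕ Fin p :=
    { toFun := fun x => match x with
        | .a i => .inl i
        | .b i => .inr (.inl i)
        | .c j => .inr (.inr j)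
      invFun := fun x => match x with
        | .inl i => .a i
        | .inr (.inl i) => .b i
        | .inr (.inr j) => .c j
      left_inv := by rintro (i | i | i) <;> rfl
      right_inv := by rintro (i | i | i) <;> rfl }
  rw [Fintype.card_congr e]
  simp
  ring

variable {k g p C}

theorem lin_opWord (hC : 2 ≤ C) : ∃ ℓ, Lin (opWord k g p C) ℓ ∧ (p = 0 → ℓ = 0) := by
  classical
  refine ⟨_, Lin.mul (Lin.list_prod (List.finRange g) _ (fun i =>
    Pi.single (Gen.a i) 1 + Pi.single (Gen.b i) 1 + (-Pi.single (Gen.a i) 1) +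
      (-Pi.single (Gen.b i) 1)) fun i =>
      (((Lin.gen (Gen.a i)).mul (Lin.gen (Gen.b i))).mul (Lin.inv C hC (Gen.a i))).mul
        (Lin.inv C hC (Gen.b i)))
    (Lin.list_prod (List.finRange p) _ (fun j => Pi.single (Gen.c j) 1) fun j =>
      Lin.gen (Gen.c j)), ?_⟩
  rintro rfl
  have h1 : (fun i : Fin g => ((Pi.single (Gen.a i) 1 + Pi.single (Gen.b i) 1 +
      (-Pi.single (Gen.a i) 1) + (-Pi.single (Gen.b i) 1) : Gen g 0 → k))) = fun _ => 0 := by
    funext i; abel
  rw [h1]
  simp

/-- The growth inequality in the punctured case. -/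
theorem uu_punctured (hC : 2 ≤ C) (n : ℕ) :
    1 + (2 * g + p) * uu (opWord k g p C) n ≤ uu (opWord k g p C) (n + 1) +
      uu (opWord k g p C) n := by
  obtain ⟨ℓ, hℓ, -⟩ := lin_opWord (k := k) (g := g) (p := p) hC
  rw [← card_gen]
  exact uu_step _ n n fun v hv => hℓ.sub_mem (JJ_stable _ n) hv

/-- The growth inequality in the closed case. -/
theorem uu_closed (hC : 2 ≤ C) (n : ℕ) :
    1 + (2 * g) * uu (opWord k g 0 C) (n + 1) ≤ uu (opWord k g 0 C) (n + 2) +
      uu (opWord k g 0 C) n := by
  obtain ⟨ℓ, hℓ, hℓ0⟩ := lin_opWord (k := k) (g := g) (p := 0) hC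
  have h0 := hℓ0 rfl
  subst h0
  have h1 : 2 * g = Fintype.card (Gen g 0) := by rw [card_gen]; ring
  rw [h1]
  refine uu_step _ (n + 1) n fun v hv => ?_
  have h2 := hℓ _ (JJ_stable _ n) v hv
  simp only [Pi.zero_apply, zero_smul, Finset.sum_const_zero, sub_zero] at h2
  exact mm_mono (mm_JJ_le _ n) h2

/-- The power of a letter lies deep in the tower. -/
theorem X_pow_mem {α : Type*} [Fintype α] (f : Module.End k (V k α)) (a : α) (n : ℕ) (v : V k α) :
    ((-(X k a : Module.End k (V k α))) ^ n) v ∈ JJ f n := by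
  induction n with
  | zero => trivial
  | succ n ih =>
    rw [pow_succ', Module.End.mul_apply, LinearMap.neg_apply]
    exact Submodule.neg_mem _ (mm_JJ_le f n (mem_mm a ih))

theorem negX_pow_mem {α : Type*} {J : Submodule k (V k α)} (hJ : Stable J) (j : ℕ) (a : α)
    {v : V k α} (hv : v ∈ J) : ((-(X k a : Module.End k (V k α))) ^ j) v ∈ J := by
  induction j with
  | zero => simpa using hv
  | succ j ih =>
    rw [pow_succ', Module.End.mul_apply, LinearMap.neg_apply]
    exact J.neg_mem (hJ a _ ih)

theorem Xi_mem {α : Type*} {J : Submodule k (V k α)} (hJ : Stable J) (C : ℕ) (a : α) {v : V k α}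
    (hv : v ∈ J) : Xi k C a v ∈ J := by
  unfold Xi
  rw [LinearMap.sum_apply]
  exact Submodule.sum_mem _ fun j _ => negX_pow_mem hJ j a hv

theorem oneX_mem {α : Type*} {J : Submodule k (V k α)} (hJ : Stable J) (a : α) {v : V k α}
    (hv : v ∈ J) : (1 + X k a : Module.End k (V k α)) v ∈ J := by
  rw [LinearMap.add_apply]
  exact J.add_mem hv (hJ a _ hv)

theorem ring_geom1 {R : Type*} [Ring R] (Y : R) (C : ℕ) :
    (1 + Y) * (∑ j ∈ Finset.range C, (-Y) ^ j) = 1 - (-Y) ^ C := by
  have := mul_neg_geom_sum (-Y) C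
  rwa [sub_neg_eq_add] at this

theorem ring_geom2 {R : Type*} [Ring R] (Y : R) (C : ℕ) :
    (∑ j ∈ Finset.range C, (-Y) ^ j) * (1 + Y) = 1 - (-Y) ^ C := by
  have := geom_sum_mul_neg (-Y) C
  rwa [sub_neg_eq_add] at this

theorem oneX_mul_Xi {α : Type*} (C : ℕ) (a : α) :
    (1 + X k a : Module.End k (V k α)) * Xi k C a =
      1 - (-(X k a : Module.End k (V k α))) ^ C :=
  ring_geom1 (R := Module.End k (V k α)) (X k a) C

theorem Xi_mul_oneX {α : Type*} (C : ℕ) (a : α) :
    Xi k C a * (1 + X k a : Module.End k (V k α)) =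
      1 - (-(X k a : Module.End k (V k α))) ^ C :=
  ring_geom2 (R := Module.End k (V k α)) (X k a) C

variable (k g p C)

/-- The module. -/
abbrev WW : Type _ := V k (Gen g p) ⧸ JJ (opWord k g p C) C

/-- The unit attached to a generator. -/
noncomputable def unitOf (x : Gen g p) : (Module.End k (WW k g p C))ˣ where
  val := Submodule.mapQ _ _ (1 + X k x) (fun _ hv => oneX_mem (JJ_stable _ C) x hv)
  inv := Submodule.mapQ _ _ (Xi k C x) (fun _ hv => Xi_mem (JJ_stable _ C) C x hv)
  val_inv := by
    refine Ind.ext_one (A := (1 + X k x : Module.End k (V k _)) * Xi k C x) (fun v => rfl) ?_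
    intro v
    rw [oneX_mul_Xi, LinearMap.sub_apply, Module.End.one_apply]
    have := Submodule.neg_mem _ (X_pow_mem (opWord k g p C) x C v)
    convert this using 1
    abel
  inv_val := by
    refine Ind.ext_one (A := Xi k C x * (1 + X k x : Module.End k (V k _))) (fun v => rfl) ?_
    intro v
    rw [Xi_mul_oneX, LinearMap.sub_apply, Module.End.one_apply]
    have := Submodule.neg_mem _ (X_pow_mem (opWord k g p C) x C v)
    convert this using 1
    abel

theorem unitOf_val (x : Gen g p) : Ind _ (unitOf k g p C x : Module.End k (WW k g p C))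
    (1 + X k x) := fun _ => rfl

theorem unitOf_inv (x : Gen g p) :
    Ind _ (((unitOf k g p C x)⁻¹ : (Module.End k (WW k g p C))ˣ) : Module.End k (WW k g p C))
    (Xi k C x) := fun _ => rfl

theorem surfaceWord_unitOf : surfaceWord (unitOf k g p C) = 1 := by
  have h1 : Ind (JJ (opWord k g p C) C)
      (((List.finRange g).map fun i => ⁅unitOf k g p C (.a i),
          unitOf k g p C (.b i)⁆).prod : (Module.End k (WW k g p C))ˣ).val
      ((List.finRange g).map fun i => (1 + X k (.a i)) * (1 + X k (.b i)) * Xi k C (.a i) *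
        Xi k C (.b i)).prod := by
    have h1 : (((List.finRange g).map fun i => ⁅unitOf k g p C (.a i),
        unitOf k g p C (.b i)⁆).prod : (Module.End k (WW k g p C))ˣ).val =
        ((List.finRange g).map fun i => (⁅unitOf k g p C (.a i),
          unitOf k g p C (.b i)⁆ : (Module.End k (WW k g p C))ˣ).val).prod := by
      have := map_list_prod (Units.coeHom (Module.End k (WW k g p C)))
        ((List.finRange g).map fun i => ⁅unitOf k g p C (.a i), unitOf k g p C (.b i)⁆)
      rw [List.map_map] at this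
      exact this
    rw [h1]
    refine Ind.list_prod _ _ _ fun i => ?_
    rw [commutatorElement_def, Units.val_mul, Units.val_mul, Units.val_mul]
    exact (((unitOf_val k g p C _).mul (unitOf_val k g p C _)).mul
      (unitOf_inv k g p C _)).mul (unitOf_inv k g p C _)
  have h2 : Ind (JJ (opWord k g p C) C)
      (((List.finRange p).map fun j => unitOf k g p C (.c j)).prod :
          (Module.End k (WW k g p C))ˣ).val
      ((List.finRange p).map fun j => (1 + X k (.c j))).prod := by
    have h1 : (((List.finRange p).map fun j => unitOf k g p C (.c j)).prod :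
        (Module.End k (WW k g p C))ˣ).val =
        ((List.finRange p).map fun j => (unitOf k g p C (.c j)).val).prod := by
      have := map_list_prod (Units.coeHom (Module.End k (WW k g p C)))
        ((List.finRange p).map fun j => unitOf k g p C (.c j))
      rw [List.map_map] at this
      exact this
    rw [h1]
    exact Ind.list_prod _ _ _ fun j => unitOf_val k g p C _
  apply Units.ext
  exact Ind.ext_one (h1.mul h2) fun v => range_le_JJ _ C ⟨v, by simp; rfl⟩

/-- The representation of the surface group. -/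
noncomputable def repHom : SurfaceGroup g p →* (Module.End k (WW k g p C))ˣ :=
  PresentedGroup.toGroup (f := unitOf k g p C) (by
    intro r hr
    rw [Set.mem_singleton_iff] at hr
    subst hr
    rw [surfaceWord_map]
    simp only [FreeGroup.lift_apply_of]
    exact surfaceWord_unitOf k g p C)

theorem repHom_gen (x : Gen g p) : repHom k g p C (gen x) = unitOf k g p C x :=
  PresentedGroup.toGroup.of _

/-- The filtration. -/
noncomputable def FF (n : ℕ) : Submodule k (WW k g p C) :=
  (JJ (opWord k g p C) n).map (JJ (opWord k g p C) C).mkQ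

theorem FF_antitone : Antitone (FF k g p C) := fun _ _ h =>
  Submodule.map_mono (JJ_antitone _ h)

theorem FF_zero : FF k g p C 0 = ⊤ := by
  unfold FF
  change (⊤ : Submodule k _).map _ = ⊤
  rw [Submodule.map_top, Submodule.range_mkQ]

theorem FF_top : FF k g p C C = ⊥ := by
  unfold FF
  rw [Submodule.mkQ_map_self]

/-- Units acting trivially on the graded pieces. -/
def U1 : Subgroup (Module.End k (WW k g p C))ˣ where
  carrier := {u | (∀ n, ∀ w ∈ FF k g p C n, u.val w - w ∈ FF k g p C (n + 1)) ∧
    (∀ n, ∀ w ∈ FF k g p C n, u⁻¹.val w - w ∈ FF k g p C (n + 1))}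
  one_mem' := by simp
  mul_mem' := by
    have key : ∀ A B : Module.End k (WW k g p C),
        (∀ n, ∀ w ∈ FF k g p C n, A w - w ∈ FF k g p C (n + 1)) →
        (∀ n, ∀ w ∈ FF k g p C n, B w - w ∈ FF k g p C (n + 1)) →
        (∀ n, ∀ w ∈ FF k g p C n, (A * B) w - w ∈ FF k g p C (n + 1)) := by
      intro A B hA hB n w hw
      have hBw : B w ∈ FF k g p C n := by
        have := Submodule.add_mem _ (FF_antitone k g p C (Nat.le_succ n) (hB n w hw)) hw
        rwa [sub_add_cancel] at this
      have e : (A * B) w - w = (A (B w) - B w) + (B w - w) := by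
        rw [Module.End.mul_apply]; abel
      rw [e]
      exact Submodule.add_mem _ (hA n _ hBw) (hB n w hw)
    rintro a b ⟨ha, ha'⟩ ⟨hb, hb'⟩
    refine ⟨?_, ?_⟩
    · rw [Units.val_mul]; exact key _ _ ha hb
    · rw [mul_inv_rev, Units.val_mul]; exact key _ _ hb' ha'
  inv_mem' := by
    rintro a ⟨ha, ha'⟩
    exact ⟨ha', by rw [inv_inv]; exact ha⟩

theorem repHom_mem (hC : 1 ≤ C) (y : SurfaceGroup g p) : repHom k g p C y ∈ U1 k g p C := by
  have h : (⊤ : Subgroup (SurfaceGroup g p)) ≤ (U1 k g p C).comap (repHom k g p C) := by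
    rw [← closure_range_gen, Subgroup.closure_le]
    rintro _ ⟨x, rfl⟩
    rw [SetLike.mem_coe, Subgroup.mem_comap, repHom_gen]
    refine ⟨?_, ?_⟩
    · rintro n _ ⟨v, hv, rfl⟩
      rw [unitOf_val k g p C x v, ← map_sub]
      refine Submodule.mem_map_of_mem ?_
      rw [LinearMap.add_apply, Module.End.one_apply, add_sub_cancel_left]
      exact mm_JJ_le _ n (mem_mm x hv)
    · rintro n _ ⟨v, hv, rfl⟩
      rw [unitOf_inv k g p C x v, ← map_sub]
      refine Submodule.mem_map_of_mem ?_
      refine mm_JJ_le _ n ?_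
      obtain ⟨C', rfl⟩ : ∃ C', C = C' + 1 := ⟨C - 1, by omega⟩
      unfold Xi
      rw [Finset.sum_range_succ', LinearMap.add_apply, pow_zero, Module.End.one_apply,
        add_sub_cancel_right, LinearMap.sum_apply]
      refine Submodule.sum_mem _ fun j _ => ?_
      rw [pow_succ', Module.End.mul_apply, LinearMap.neg_apply]
      exact Submodule.neg_mem _ (mem_mm x (negX_pow_mem (JJ_stable _ n) j x hv))
  exact h (Subgroup.mem_top y)

end word

section main

theorem two_pow_char {R : Type*} [Ring R] (h2 : (2 : R) = 0) (y : R) (m : ℕ) :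
    (y + 1) ^ (2 ^ m) = y ^ (2 ^ m) + 1 := by
  induction m with
  | zero => simp
  | succ m ih =>
    rw [pow_succ, pow_mul, ih, pow_mul]
    have : (y ^ 2 ^ m + 1) ^ 2 = (y ^ 2 ^ m) ^ 2 + 2 * y ^ 2 ^ m + 1 := by
      rw [sq, sq]; noncomm_ring
    rw [this, h2, zero_mul, add_zero]

variable (g p C : ℕ)

instance finite_WW : Finite (WW (ZMod 2) g p C) := Module.finite_of_finite (ZMod 2)

instance finite_end : Finite (Module.End (ZMod 2) (WW (ZMod 2) g p C)) :=
  Finite.of_injective (fun f => (f : WW (ZMod 2) g p C → WW (ZMod 2) g p C))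
    DFunLike.coe_injective

instance finite_units : Finite (Module.End (ZMod 2) (WW (ZMod 2) g p C))ˣ :=
  Finite.of_injective _ Units.val_injective

theorem end_two : (2 : Module.End (ZMod 2) (WW (ZMod 2) g p C)) = 0 := by
  apply LinearMap.ext
  intro w
  have h0 : (2 : Module.End (ZMod 2) (WW (ZMod 2) g p C)) = 1 + 1 := one_add_one_eq_two.symm
  have h1 : (2 : Module.End (ZMod 2) (WW (ZMod 2) g p C)) w = w + w := by
    rw [h0]; rfl
  have h2 : w + w = ((1 + 1 : ZMod 2)) • w := by rw [add_smul, one_smul]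
  have h3 : (1 + 1 : ZMod 2) = 0 := by decide
  rw [h1, h2, h3, zero_smul]
  rfl

theorem U1_pow {u : (Module.End (ZMod 2) (WW (ZMod 2) g p C))ˣ}
    (hu : u ∈ U1 (ZMod 2) g p C) {m : ℕ} (hm : C ≤ 2 ^ m) : u ^ (2 ^ m) = 1 := by
  have h1 : ∀ n, ∀ w, ((u.val - 1) ^ n) w ∈ FF (ZMod 2) g p C n := by
    intro n
    induction n with
    | zero => intro w; rw [FF_zero]; trivial
    | succ n ih =>
      intro w
      rw [pow_succ', Module.End.mul_apply, LinearMap.sub_apply, Module.End.one_apply]
      exact hu.1 n _ (ih w)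
  have h2 : (u.val - 1) ^ (2 ^ m) = 0 := by
    apply LinearMap.ext
    intro w
    have := FF_antitone (ZMod 2) g p C hm (h1 (2 ^ m) w)
    rw [FF_top] at this
    exact this
  have h3 := two_pow_char (end_two g p C) (u.val - 1) m
  rw [sub_add_cancel, h2, zero_add] at h3
  exact Units.ext (by rw [Units.val_pow_eq_pow_val, h3]; rfl)

theorem exists_group (m : ℕ) (hm : 1 ≤ m) :
    ∃ (G : Type) (_ : Group G) (_ : Finite G) (ρ : SurfaceGroup g p →* G),
      Function.Surjective ρ ∧ (lcs G 1).index ≤ (2 ^ m) ^ (2 * g + p) ∧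
      (lcs G 2).index ≤ (lcs G 1).index ^ (2 * g + p + 1) ∧
      ∀ x : ℝ, 0 < x → x < 1 →
        (uu (opWord (ZMod 2) g p (2 ^ m)) (2 ^ m) : ℝ) * x ^ (2 ^ m) ≤
        ∏ i ∈ Finset.range (2 ^ m - 1),
          (((lcs G (i + 1)).relIndex (lcs G i) : ℕ) : ℝ) ^ theta (x ^ (i + 1)) := by
  classical
  set C := 2 ^ m with hC
  have hC1 : 1 ≤ C := Nat.one_le_two_pow
  have hC2 : 2 ≤ C := by
    calc 2 = 2 ^ 1 := rfl
      _ ≤ 2 ^ m := Nat.pow_le_pow_right (by norm_num) hm
  let R := (repHom (ZMod 2) g p C).range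
  let ρ : SurfaceGroup g p →* R := (repHom (ZMod 2) g p C).rangeRestrict
  have hρ : Function.Surjective ρ := (repHom (ZMod 2) g p C).rangeRestrict_surjective
  have hmem : ∀ u : R, (u : (Module.End (ZMod 2) (WW (ZMod 2) g p C))ˣ) ∈ U1 (ZMod 2) g p C := by
    rintro ⟨_, ⟨y, rfl⟩⟩
    exact repHom_mem (ZMod 2) g p C hC1 y
  have hclos : Subgroup.closure (Set.range fun x : Gen g p => ρ (gen x)) = ⊤ :=
    closure_range_hom hρ
  refine ⟨R, inferInstance, inferInstance, ρ, hρ, ?_, ?_, ?_⟩
  · rw [← card_gen g p]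
    refine index_lcs_one_le _ hclos (by positivity) ?_
    intro x
    apply Subtype.ext
    exact U1_pow g p C (hmem x) le_rfl
  · rw [← card_gen g p]
    exact index_lcs_two_le _ hclos
  · intro x hx0 hx1
    let τ : R →* Module.End (ZMod 2) (WW (ZMod 2) g p C) :=
      (Units.coeHom _).comp R.subtype
    have hcyc : finrank (ZMod 2) (WW (ZMod 2) g p C ⧸ aug τ ⊤) ≤ 1 := by
      refine finrank_le_one (Submodule.Quotient.mk (Submodule.Quotient.mk (Finsupp.single [] 1))) ?_
      intro w
      obtain ⟨w, rfl⟩ := Submodule.mkQ_surjective _ w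
      obtain ⟨v, rfl⟩ := Submodule.mkQ_surjective _ w
      refine ⟨v [], ?_⟩
      rw [← Submodule.Quotient.mk_smul]
      refine (Submodule.Quotient.eq _).2 ?_
      rw [← Submodule.Quotient.mk_smul]
      have e1 : (Submodule.Quotient.mk (v [] • Finsupp.single [] 1) : WW (ZMod 2) g p C) -
          (JJ (opWord (ZMod 2) g p C) C).mkQ v =
          -∑ a, (JJ (opWord (ZMod 2) g p C) C).mkQ (X (ZMod 2) a (Dl (ZMod 2) a v)) := by
        conv_lhs => rw [decomp v]
        rw [← map_sum, ← map_neg]
        change (JJ (opWord (ZMod 2) g p C) C).mkQ _ - _ = _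
        rw [← map_sub]
        congr 1
        have : (v [] • Finsupp.single [] 1 : V (ZMod 2) (Gen g p)) = Finsupp.single [] (v []) := by
          simp
        rw [← decomp v, this]
        nth_rewrite 2 [decomp v]
        abel
      rw [e1]
      refine Submodule.neg_mem _ (Submodule.sum_mem _ fun a _ => ?_)
      have h3 := mem_aug (ρ := τ) (K := ⊤) (Subgroup.mem_top (ρ (gen a)))
        ((JJ (opWord (ZMod 2) g p C) C).mkQ (Dl (ZMod 2) a v))
      have h4 : τ (ρ (gen a)) ((JJ (opWord (ZMod 2) g p C) C).mkQ (Dl (ZMod 2) a v)) =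
          (JJ (opWord (ZMod 2) g p C) C).mkQ ((1 + X (ZMod 2) a) (Dl (ZMod 2) a v)) := by
        have h5 : τ (ρ (gen a)) = (unitOf (ZMod 2) g p C a).val := by
          rw [← repHom_gen]; rfl
        rw [h5]
        exact unitOf_val (ZMod 2) g p C a _
      rw [h4, ← map_sub, LinearMap.add_apply, Module.End.one_apply, add_sub_cancel_left] at h3
      exact h3
    have h := jennings τ (FF (ZMod 2) g p C) (FF_antitone _ _ _ _) (FF_zero _ _ _ _)
      (fun u n w hw => (hmem u).1 n w hw) hcyc (C := C - 1)
      (by rw [Nat.sub_add_cancel hC1]; exact FF_top _ _ _ _) hx0 hx1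
    rw [Nat.sub_add_cancel hC1] at h
    exact h

end main

end Pool.Agent.H344.SC
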