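import Mathlib
import Pool.Agent.H344.SC.Rep

/-!
# The analytic contradiction
-/

namespace Pool.Agent.H344.SC

open Finset

theorem theta_le {x : ℝ} (hx0 : 0 < x) (hx1 : x < 1) (i : ℕ) :
    theta (x ^ (i + 1)) ≤ x ^ (i + 1) / ((1 - x) * Real.log 2) := by
  have h1 : x ^ (i + 1) ≤ x := by
    calc x ^ (i + 1) = x ^ i * x := pow_succ _ _
      _ ≤ 1 * x := by gcongr; exact pow_le_one₀ hx0.le hx1.le
      _ = x := one_mul x
  have h0 : 0 < x ^ (i + 1) := pow_pos hx0 _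
  set y := x ^ (i + 1) with hy
  have h2 : 0 < Real.log 2 := Real.log_pos (by norm_num)
  have h3 : -Real.log (1 - y) ≤ y / (1 - y) := by
    have h4 : 0 < 1 - y := by linarith
    have h5 := Real.one_sub_inv_le_log_of_pos h4
    have h6 : 1 - (1 - y)⁻¹ = - (y / (1 - y)) := by field_simp; ring
    rw [h6] at h5
    linarith
  have h7 : y / (1 - y) ≤ y / (1 - x) := by
    apply div_le_div_of_nonneg_left h0.le (by linarith) (by linarith)
  unfold theta
  rw [← div_div]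
  gcongr
  linarith

theorem sum_bound {A α β K x : ℝ} (hα : 0 ≤ α) (hβ : 0 ≤ β)
    (hK : 0 ≤ K) (hx0 : 0 < x) (hx1 : x < 1) (n : ℕ → ℝ) (hn : ∀ i, 0 ≤ n i)
    (hrec : ∀ d, A * n (d + 3) ≤ α * n (d + 2) + β * n (d + 1) + K) (N : ℕ) :
    A * ((∑ i ∈ range (N + 2), x ^ (i + 1) * n (i + 1)) - x * n 1 - x ^ 2 * n 2) ≤
      (α * x + β * x ^ 2) * (∑ i ∈ range (N + 2), x ^ (i + 1) * n (i + 1)) + K / (1 - x) := by
  set S : ℕ → ℝ := fun N => ∑ i ∈ range N, x ^ (i + 1) * n (i + 1) with hS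
  have hmono : ∀ N, S N ≤ S (N + 1) := by
    intro N
    simp only [hS, sum_range_succ]
    have : 0 ≤ x ^ (N + 1) * n (N + 1) := mul_nonneg (pow_nonneg hx0.le _) (hn _)
    linarith
  have key : ∀ N, A * (S (N + 2) - x * n 1 - x ^ 2 * n 2) ≤
      α * x * S (N + 1) + β * x ^ 2 * S N + K * ∑ d ∈ range N, x ^ (d + 3) := by
    intro N
    induction N with
    | zero =>
      have e1 : S (0 + 2) - x * n 1 - x ^ 2 * n 2 = 0 := by
        simp only [hS, sum_range_succ, sum_range_zero]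
        simp
      rw [e1]
      simp only [sum_range_zero, mul_zero, add_zero]
      have h1 : 0 ≤ S (0 + 1) := by
        simp only [hS, sum_range_succ, sum_range_zero]
        have := mul_nonneg (pow_nonneg hx0.le (0 + 1)) (hn (0 + 1))
        linarith
      have h2 : S 0 = 0 := by simp [hS]
      rw [h2]
      have := mul_nonneg (mul_nonneg hα hx0.le) h1
      linarith
    | succ N ih =>
      have e1 : S (N + 1 + 2) = S (N + 2) + x ^ (N + 3) * n (N + 3) := by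
        simp only [hS, sum_range_succ]
      have e2 : S (N + 1 + 1) = S (N + 1) + x ^ (N + 2) * n (N + 2) := by
        simp only [hS, sum_range_succ]
      have e3 : S (N + 1) = S N + x ^ (N + 1) * n (N + 1) := by
        simp only [hS, sum_range_succ]
      have h4 := mul_le_mul_of_nonneg_left (hrec N) (pow_nonneg hx0.le (N + 3))
      have m1 : α * x * S (N + 1 + 1) = α * x * S (N + 1) + x ^ (N + 3) * (α * n (N + 2)) := by
        rw [e2]; ring
      have m2 : β * x ^ 2 * S (N + 1) = β * x ^ 2 * S N + x ^ (N + 3) * (β * n (N + 1)) := by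
        rw [e3]; ring
      have m3 : A * (S (N + 1 + 2) - x * n 1 - x ^ 2 * n 2) =
          A * (S (N + 2) - x * n 1 - x ^ 2 * n 2) + x ^ (N + 3) * (A * n (N + 3)) := by
        rw [e1]; ring
      have m4 : K * ∑ d ∈ range (N + 1), x ^ (d + 3) =
          K * ∑ d ∈ range N, x ^ (d + 3) + x ^ (N + 3) * K := by
        rw [sum_range_succ]; ring
      rw [m1, m2, m3, m4]
      have h5 : x ^ (N + 3) * (α * n (N + 2) + β * n (N + 1) + K) =
        x ^ (N + 3) * (α * n (N + 2)) + x ^ (N + 3) * (β * n (N + 1)) + x ^ (N + 3) * K := by ring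
      rw [h5] at h4
      linarith
  have h1 := key N
  have h2 : S (N + 1) ≤ S (N + 2) := hmono (N + 1)
  have h3 : S N ≤ S (N + 2) := (hmono N).trans h2
  have h4 : ∑ d ∈ range N, x ^ (d + 3) ≤ 1 / (1 - x) := by
    calc ∑ d ∈ range N, x ^ (d + 3) ≤ ∑ d ∈ range N, x ^ d := by
          refine sum_le_sum fun d _ => ?_
          exact pow_le_pow_of_le_one hx0.le hx1.le (by omega)
      _ ≤ 1 / (1 - x) := by
          rw [geom_sum_eq (by linarith)]
          have : (x ^ N - 1) / (x - 1) = (1 - x ^ N) / (1 - x) := by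
            rw [← neg_div_neg_eq]; ring
          rw [this]
          have h5 : 0 ≤ x ^ N := pow_nonneg hx0.le N
          have h6 : 0 < 1 - x := by linarith
          gcongr
          linarith
  have h5 := mul_le_mul_of_nonneg_left h2 (mul_nonneg hα hx0.le)
  have h6 := mul_le_mul_of_nonneg_left h3 (mul_nonneg hβ (sq_nonneg x))
  have h7 := mul_le_mul_of_nonneg_left h4 hK
  have h8 : K * (1 / (1 - x)) = K / (1 - x) := by ring
  rw [h8] at h7
  change A * (S (N + 2) - x * n 1 - x ^ 2 * n 2) ≤ (α * x + β * x ^ 2) * S (N + 2) + K / (1 - x)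
  linarith

/-- **The analytic contradiction.** -/
theorem analytic {A α β μ k0 : ℝ} (hμ : 1 < μ) (hα : 0 ≤ α) (hβ : 0 ≤ β)
    (hcond : 0 < A * μ ^ 2 - α * μ - β) (hk : 0 ≤ k0) (hA : 0 ≤ A)
    (n : ℕ → ℕ → ℝ) (hn : ∀ m i, 0 ≤ n m i)
    (hrec : ∀ m, 1 ≤ m → ∀ d, A * n m (d + 3) ≤ α * n m (d + 2) + β * n m (d + 1) + k0 * m)
    (h1 : ∀ m, 1 ≤ m → n m 1 ≤ k0 * m) (h2 : ∀ m, 1 ≤ m → n m 2 ≤ k0 * m)
    (h3 : ∀ m, 1 ≤ m → ∀ x : ℝ, 0 < x → x < 1 →
      ((2 : ℝ) ^ m - 1) * Real.log μ + 2 ^ m * Real.log x ≤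
        (∑ i ∈ range (2 ^ m - 1), x ^ (i + 1) * n m (i + 1)) / ((1 - x) * Real.log 2)) : False := by
  -- choose `x`
  obtain ⟨x, hx0, hx1, hxμ, hδ⟩ : ∃ x : ℝ, 0 < x ∧ x < 1 ∧ 1 < μ * x ∧ 0 < A - α * x - β * x ^ 2 := by
    have hμ0 : 0 < μ := by linarith
    have hcont : Continuous fun x : ℝ => A - α * x - β * x ^ 2 := by fun_prop
    have hval : 0 < A - α * μ⁻¹ - β * μ⁻¹ ^ 2 := by
      have e : A - α * μ⁻¹ - β * μ⁻¹ ^ 2 = (A * μ ^ 2 - α * μ - β) * (μ⁻¹) ^ 2 := by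
        field_simp
      rw [e]
      positivity
    have hev1 : ∀ᶠ x in nhds μ⁻¹, 0 < A - α * x - β * x ^ 2 :=
      hcont.continuousAt.eventually (lt_mem_nhds hval)
    have hlt1 : μ⁻¹ < 1 := inv_lt_one_of_one_lt₀ hμ
    have hev2 : ∀ᶠ x in nhds μ⁻¹, x < 1 := gt_mem_nhds hlt1
    have hev3 : ∀ᶠ x in nhdsWithin μ⁻¹ (Set.Ioi μ⁻¹), μ⁻¹ < x := self_mem_nhdsWithin
    have hev := ((hev1.and hev2).filter_mono nhdsWithin_le_nhds).and hev3
    obtain ⟨x, ⟨hxa, hxb⟩, hxc⟩ := hev.exists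
    refine ⟨x, (inv_pos.2 hμ0).trans hxc, hxb, ?_, hxa⟩
    calc (1 : ℝ) = μ * μ⁻¹ := (mul_inv_cancel₀ hμ0.ne').symm
      _ < μ * x := by gcongr
  set δ := A - α * x - β * x ^ 2 with hδdef
  have hlog2 : 0 < Real.log 2 := Real.log_pos (by norm_num)
  have h1x : 0 < 1 - x := by linarith
  -- the bound on the sum
  set k1 : ℝ := (2 * A * k0 + k0 / (1 - x)) / δ with hk1
  have hS : ∀ m : ℕ, 2 ≤ m → (∑ i ∈ range (2 ^ m - 1), x ^ (i + 1) * n m (i + 1)) ≤ k1 * m := by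
    intro m hm
    have hm1 : 1 ≤ m := by omega
    have h4 : 2 ≤ 2 ^ m - 1 := by
      have : 2 ^ 2 ≤ 2 ^ m := Nat.pow_le_pow_right (by norm_num) hm
      omega
    obtain ⟨N, hN⟩ : ∃ N, 2 ^ m - 1 = N + 2 := ⟨2 ^ m - 1 - 2, by omega⟩
    rw [hN]
    have h5 := sum_bound (A := A) hα hβ (K := k0 * m) (by positivity) hx0 hx1 (n m) (hn m)
      (hrec m hm1) N
    set S := ∑ i ∈ range (N + 2), x ^ (i + 1) * n m (i + 1)
    have hm0 : (0 : ℝ) ≤ m := Nat.cast_nonneg m
    have e1 : x * n m 1 ≤ k0 * m := by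
      calc x * n m 1 ≤ 1 * n m 1 := by gcongr; exact hn m 1
        _ = n m 1 := one_mul _
        _ ≤ _ := h1 m hm1
    have e2 : x ^ 2 * n m 2 ≤ k0 * m := by
      calc x ^ 2 * n m 2 ≤ 1 * n m 2 := by
            gcongr
            · exact hn m 2
            · exact pow_le_one₀ hx0.le hx1.le
        _ = n m 2 := one_mul _
        _ ≤ _ := h2 m hm1
    have e3 : δ * S ≤ (2 * A * k0 + k0 / (1 - x)) * m := by
      have e4 : A * (x * n m 1 + x ^ 2 * n m 2) ≤ A * (2 * (k0 * m)) := by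
        gcongr
        linarith
      have e5 : k0 * m / (1 - x) = k0 / (1 - x) * m := by ring
      rw [e5] at h5
      rw [hδdef]
      linarith
    rw [hk1, div_mul_eq_mul_div, le_div_iff₀ hδ]
    linarith
  -- the contradiction
  have hc : 0 < Real.log (μ * x) := Real.log_pos hxμ
  set k2 := k1 / ((1 - x) * Real.log 2) with hk2
  have h6 : ∀ m : ℕ, 2 ≤ m → (2 : ℝ) ^ m * Real.log (μ * x) ≤ k2 * m + Real.log μ := by
    intro m hm
    have h7 := h3 m (by omega) x hx0 hx1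
    have h8 : (∑ i ∈ range (2 ^ m - 1), x ^ (i + 1) * n m (i + 1)) / ((1 - x) * Real.log 2) ≤
        k2 * m := by
      rw [hk2, div_mul_eq_mul_div]
      gcongr
      exact hS m hm
    have h9 : Real.log (μ * x) = Real.log μ + Real.log x :=
      Real.log_mul (by linarith) hx0.ne'
    rw [h9]
    have : (2 : ℝ) ^ m * (Real.log μ + Real.log x) =
      (((2 : ℝ) ^ m - 1) * Real.log μ + 2 ^ m * Real.log x) + Real.log μ := by ring
    rw [this]
    linarith
  have ht := tendsto_pow_const_div_const_pow_of_one_lt 1 (r := (2 : ℝ)) (by norm_num)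
  have ht2 : Filter.Tendsto (fun m : ℕ => (1 : ℝ) / 2 ^ m) Filter.atTop (nhds 0) := by
    have := tendsto_pow_atTop_nhds_zero_of_lt_one (r := (1 / 2 : ℝ)) (by norm_num) (by norm_num)
    simpa [div_pow] using this
  have ht3 : Filter.Tendsto (fun m : ℕ => k2 * ((m : ℝ) ^ 1 / 2 ^ m) + Real.log μ * (1 / 2 ^ m))
      Filter.atTop (nhds (k2 * 0 + Real.log μ * 0)) :=
    (ht.const_mul k2).add (ht2.const_mul (Real.log μ))
  rw [mul_zero, mul_zero, add_zero] at ht3
  have hev := (ht3.eventually (gt_mem_nhds hc)).and (Filter.eventually_ge_atTop 2)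
  obtain ⟨m, hm1, hm2⟩ := hev.exists
  have h10 := h6 m hm2
  have h11 : (0 : ℝ) < 2 ^ m := by positivity
  have h12 : (k2 * m + Real.log μ) / 2 ^ m < Real.log (μ * x) := by
    have : (k2 * m + Real.log μ) / 2 ^ m =
      k2 * ((m : ℝ) ^ 1 / 2 ^ m) + Real.log μ * (1 / 2 ^ m) := by ring
    rw [this]; exact hm1
  rw [div_lt_iff₀ h11] at h12
  linarith

end Pool.Agent.H344.SC
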