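import Mathlib
import Pool.Agent.H344.SC.Marking

/-!
# Explicit automorphisms of surface groups
-/

namespace Pool.Agent.H344.SC

open scoped commutatorElement

section blocks

variable {g p : ℕ} {G : Type*} [Group G]

/-- The block of the surface word with a given index. -/
def block (f : Gen g p → G) : Fin g ⊕ Fin p → G
  | .inl i => ⁅f (.a i), f (.b i)⁆
  | .inr j => f (.c j)

/-- The list of all blocks but the first one. -/
def restList (g p : ℕ) : List (Fin (g + 1) ⊕ Fin p) :=
  ((List.finRange g).map fun i => .inl i.succ) ++ (List.finRange p).map .inr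

theorem surfaceWord_eq (f : Gen (g + 1) p → G) :
    surfaceWord f = block f (.inl 0) * ((restList g p).map (block f)).prod := by
  unfold surfaceWord restList
  rw [List.finRange_succ, List.map_cons, List.prod_cons, List.map_append, List.prod_append,
    List.map_map, List.map_map, List.map_map, mul_assoc]
  rfl

theorem mem_restList {m : Fin (g + 1) ⊕ Fin p} (hm : m ≠ .inl 0) : m ∈ restList g p := by
  unfold restList
  rw [List.mem_append, List.mem_map, List.mem_map]
  rcases m with i | j
  · left
    obtain ⟨k, rfl⟩ := Fin.exists_succ_eq.2 (show i ≠ 0 from fun h => hm (by rw [h]))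
    exact ⟨k, List.mem_finRange k, rfl⟩
  · right
    exact ⟨j, List.mem_finRange j, rfl⟩

theorem zero_notMem_restList : (.inl 0 : Fin (g + 1) ⊕ Fin p) ∉ restList g p := by
  unfold restList
  rw [List.mem_append, List.mem_map, List.mem_map]
  rintro (⟨i, _, hi⟩ | ⟨j, _, hj⟩)
  · exact Fin.succ_ne_zero i (Sum.inl.inj hi)
  · cases hj

theorem nodup_restList : (restList g p).Nodup := by
  unfold restList
  rw [List.nodup_append]
  refine ⟨?_, ?_, ?_⟩
  · exact (List.nodup_finRange g).map fun i j h => Fin.succ_injective _ (Sum.inl.inj h)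
  · exact (List.nodup_finRange p).map fun i j h => Sum.inr.inj h
  · intro x hx y hy
    rw [List.mem_map] at hx hy
    obtain ⟨i, _, rfl⟩ := hx
    obtain ⟨j, _, rfl⟩ := hy
    simp

/-- The position of a block. -/
theorem exists_split {m : Fin (g + 1) ⊕ Fin p} (hm : m ≠ .inl 0) :
    ∃ s t : List (Fin (g + 1) ⊕ Fin p), restList g p = s ++ m :: t ∧
      (∀ x ∈ s, x ≠ .inl 0 ∧ x ≠ m) ∧ (∀ x ∈ t, x ≠ .inl 0 ∧ x ≠ m) := by
  obtain ⟨s, t, h⟩ := List.append_of_mem (mem_restList hm)
  have h0 := zero_notMem_restList (g := g) (p := p)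
  have hn := nodup_restList (g := g) (p := p)
  rw [h] at h0 hn
  rw [List.nodup_middle] at hn
  have hn' := List.nodup_cons.1 hn
  refine ⟨s, t, h, ?_, ?_⟩
  · intro x hx
    refine ⟨?_, ?_⟩
    · rintro rfl
      exact h0 (List.mem_append_left _ hx)
    · rintro rfl
      exact hn'.1 (List.mem_append_left _ hx)
  · intro x hx
    refine ⟨?_, ?_⟩
    · rintro rfl
      exact h0 (List.mem_append_right _ (List.mem_cons_of_mem _ hx))
    · rintro rfl
      exact hn'.1 (List.mem_append_right _ hx)

/-- The words between the first block and the block `m`, and after the block `m`. -/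
structure Split (g p : ℕ) (m : Fin (g + 1) ⊕ Fin p) where
  s : List (Fin (g + 1) ⊕ Fin p)
  t : List (Fin (g + 1) ⊕ Fin p)
  eq : restList g p = s ++ m :: t
  hs : ∀ x ∈ s, x ≠ .inl 0 ∧ x ≠ m
  ht : ∀ x ∈ t, x ≠ .inl 0 ∧ x ≠ m

theorem nonempty_split {m : Fin (g + 1) ⊕ Fin p} (hm : m ≠ .inl 0) : Nonempty (Split g p m) := by
  obtain ⟨s, t, h1, h2, h3⟩ := exists_split hm
  exact ⟨⟨s, t, h1, h2, h3⟩⟩

/-- The word between the first block and the block `m`. -/
def Split.tau {m : Fin (g + 1) ⊕ Fin p} (S : Split g p m) (f : Gen (g + 1) p → G) : G :=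
  (S.s.map (block f)).prod

/-- The word after the block `m`. -/
def Split.ups {m : Fin (g + 1) ⊕ Fin p} (S : Split g p m) (f : Gen (g + 1) p → G) : G :=
  (S.t.map (block f)).prod

theorem Split.word {m : Fin (g + 1) ⊕ Fin p} (S : Split g p m) (f : Gen (g + 1) p → G) :
    surfaceWord f = block f (.inl 0) * (S.tau f * (block f m * S.ups f)) := by
  rw [surfaceWord_eq, S.eq, List.map_append, List.prod_append, List.map_cons, List.prod_cons]
  rfl

theorem Split.tau_congr {m : Fin (g + 1) ⊕ Fin p} (S : Split g p m) {f f' : Gen (g + 1) p → G}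
    (h : ∀ x, x ≠ .inl 0 → x ≠ m → block f x = block f' x) : S.tau f = S.tau f' := by
  unfold Split.tau
  congr 1
  exact List.map_congr_left fun x hx => h x (S.hs x hx).1 (S.hs x hx).2

theorem Split.ups_congr {m : Fin (g + 1) ⊕ Fin p} (S : Split g p m) {f f' : Gen (g + 1) p → G}
    (h : ∀ x, x ≠ .inl 0 → x ≠ m → block f x = block f' x) : S.ups f = S.ups f' := by
  unfold Split.ups
  congr 1
  exact List.map_congr_left fun x hx => h x (S.ht x hx).1 (S.ht x hx).2

theorem block_map {H : Type*} [Group H] (φ : G →* H) (f : Gen g p → G) (x : Fin g ⊕ Fin p) :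
    φ (block f x) = block (fun y => φ (f y)) x := by
  rcases x with i | j
  · simp [block, map_commutatorElement]
  · rfl

theorem Split.tau_map {H : Type*} [Group H] {m : Fin (g + 1) ⊕ Fin p} (S : Split g p m)
    (φ : G →* H) (f : Gen (g + 1) p → G) : φ (S.tau f) = S.tau (fun y => φ (f y)) := by
  unfold Split.tau
  rw [map_list_prod, List.map_map]
  congr 1
  exact List.map_congr_left fun x _ => block_map φ f x

/-- Words agree if the first block and the block `m` compensate. -/
theorem Split.word_eq {m : Fin (g + 1) ⊕ Fin p} (S : Split g p m) {f f' : Gen (g + 1) p → G}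
    (h : ∀ x, x ≠ .inl 0 → x ≠ m → block f x = block f' x)
    (h0 : block f (.inl 0) * (S.tau f' * block f m) =
      block f' (.inl 0) * (S.tau f' * block f' m)) :
    surfaceWord f = surfaceWord f' := by
  rw [S.word, S.word, S.tau_congr h, S.ups_congr h]
  calc block f (.inl 0) * (S.tau f' * (block f m * S.ups f'))
      = (block f (.inl 0) * (S.tau f' * block f m)) * S.ups f' := by group
    _ = (block f' (.inl 0) * (S.tau f' * block f' m)) * S.ups f' := by rw [h0]
    _ = _ := by group

end blocks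

section aut

variable {g p : ℕ}

/-- The endomorphism with given values on the generators. -/
def endo (f : Gen g p → SurfaceGroup g p) (h : surfaceWord f = 1) :
    SurfaceGroup g p →* SurfaceGroup g p :=
  PresentedGroup.toGroup (f := f) (by
    intro r hr
    rw [Set.mem_singleton_iff] at hr
    subst hr
    rw [surfaceWord_map]
    simp only [FreeGroup.lift_apply_of]
    exact h)

@[simp] theorem endo_gen (f : Gen g p → SurfaceGroup g p) (h : surfaceWord f = 1) (x : Gen g p) :
    endo f h (gen x) = f x := PresentedGroup.toGroup.of _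

/-- Automorphisms from a pair of mutually inverse substitutions. -/
def mkAut (f f' : Gen g p → SurfaceGroup g p) (h : surfaceWord f = 1) (h' : surfaceWord f' = 1)
    (h1 : ∀ x, endo f h (f' x) = gen x) (h2 : ∀ x, endo f' h' (f x) = gen x) :
    MulAut (SurfaceGroup g p) :=
  MonoidHom.toMulEquiv (endo f h) (endo f' h')
    (PresentedGroup.ext fun x => by
      change endo f' h' (endo f h (gen x)) = gen x
      rw [endo_gen, h2])
    (PresentedGroup.ext fun x => by
      change endo f h (endo f' h' (gen x)) = gen x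
      rw [endo_gen, h1])

@[simp] theorem mkAut_gen (f f' : Gen g p → SurfaceGroup g p) (h : surfaceWord f = 1)
    (h' : surfaceWord f' = 1) (h1 : ∀ x, endo f h (f' x) = gen x)
    (h2 : ∀ x, endo f' h' (f x) = gen x) (x : Gen g p) : mkAut f f' h h' h1 h2 (gen x) = f x :=
  endo_gen f h x

theorem surfaceWord_gen' : surfaceWord (fun x => (gen x : SurfaceGroup g p)) = 1 := surfaceWord_gen

end aut

section tw

variable {g p : ℕ}

/-- Data for a family of substitutions. -/
structure TwData (g p : ℕ) where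
  e : SurfaceGroup g p
  t : Gen g p → SurfaceGroup g p
  l : Gen g p → ℤ
  r : Gen g p → ℤ

/-- The substitution. -/
def TwData.f (D : TwData g p) (n : ℤ) (x : Gen g p) : SurfaceGroup g p :=
  (D.t x)⁻¹ * D.e ^ (-(n * D.l x)) * D.t x * gen x * (D.t x)⁻¹ * D.e ^ (n * D.r x) * D.t x

/-- The conditions ensuring that the family consists of automorphisms. -/
structure TwData.Good (D : TwData g p) : Prop where
  word : ∀ n, surfaceWord (D.f n) = 1
  fix_e : ∀ n, endo (D.f n) (word n) D.e = D.e
  fix_t : ∀ n x, endo (D.f n) (word n) (D.t x) = D.t x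

theorem TwData.Good.comp {D : TwData g p} (h : D.Good) (n m : ℤ) (x : Gen g p) :
    endo (D.f n) (h.word n) (D.f m x) = D.f (n + m) x := by
  have h0 : endo (D.f n) (h.word n) (D.f m x) =
      (D.t x)⁻¹ * D.e ^ (-(m * D.l x)) * D.t x * D.f n x * (D.t x)⁻¹ * D.e ^ (m * D.r x) *
        D.t x := by
    conv_lhs => rw [TwData.f]
    simp only [map_mul, map_inv, map_zpow, h.fix_e, h.fix_t, endo_gen]
  rw [h0]
  unfold TwData.f
  have e1 : D.e ^ (-((n + m) * D.l x)) = D.e ^ (-(m * D.l x)) * D.e ^ (-(n * D.l x)) := by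
    rw [← zpow_add]; congr 1; ring
  have e2 : D.e ^ ((n + m) * D.r x) = D.e ^ (n * D.r x) * D.e ^ (m * D.r x) := by
    rw [← zpow_add]; congr 1; ring
  rw [e1, e2]
  group

theorem TwData.f_zero (D : TwData g p) (x : Gen g p) : D.f 0 x = gen x := by
  unfold TwData.f
  simp

/-- The automorphisms. -/
def TwData.Good.aut {D : TwData g p} (h : D.Good) (n : ℤ) : MulAut (SurfaceGroup g p) :=
  mkAut (D.f n) (D.f (-n)) (h.word n) (h.word (-n))
    (fun x => by rw [h.comp, add_neg_cancel, D.f_zero])
    (fun x => by rw [h.comp, neg_add_cancel, D.f_zero])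

@[simp] theorem TwData.Good.aut_gen {D : TwData g p} (h : D.Good) (n : ℤ) (x : Gen g p) :
    h.aut n (gen x) = D.f n x := mkAut_gen _ _ _ _ _ _ _

/-- The condition for the automorphisms to be geometric. -/
theorem TwData.Good.geometric {D : TwData g p} (h : D.Good)
    (hc : ∀ j, D.l (.c j) = D.r (.c j)) (n : ℤ) : IsGeometric (h.aut n) := by
  refine ⟨1, fun j => Or.inl ?_⟩
  rw [h.aut_gen, Equiv.Perm.one_apply, isConj_comm, isConj_iff]
  refine ⟨(D.t (.c j))⁻¹ * D.e ^ (-(n * D.l (.c j))) * D.t (.c j), ?_⟩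
  unfold TwData.f
  rw [← hc j]
  group

/-- The effect on homology. -/
theorem TwData.ab_f (D : TwData g p) (n : ℤ) (x : Gen g p) :
    Abelianization.of (D.f n x) =
      Abelianization.of (gen x) * Abelianization.of D.e ^ (n * (D.r x - D.l x)) := by
  unfold TwData.f
  simp only [map_mul, map_inv, map_zpow]
  set A := Abelianization.of (D.t x)
  set B := Abelianization.of D.e
  set C := Abelianization.of (gen x)
  have : n * (D.r x - D.l x) = -(n * D.l x) + n * D.r x := by ring
  rw [this, zpow_add]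
  calc A⁻¹ * B ^ (-(n * D.l x)) * A * C * A⁻¹ * B ^ (n * D.r x) * A
      = (A⁻¹ * A) * (A⁻¹ * A) * (C * (B ^ (-(n * D.l x)) * B ^ (n * D.r x))) := by
        simp only [mul_assoc, mul_comm, mul_left_comm]
    _ = _ := by rw [inv_mul_cancel, one_mul, one_mul]

/-- The Dehn twist about `a i`. -/
def dataDA (i : Fin g) : TwData g p where
  e := gen (.a i)
  t := fun _ => 1
  l := fun _ => 0
  r := fun x => if x = .b i then 1 else 0

/-- The Dehn twist about `b i`. -/
def dataDB (i : Fin g) : TwData g p where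
  e := gen (.b i)
  t := fun _ => 1
  l := fun _ => 0
  r := fun x => if x = .a i then 1 else 0

theorem surfaceWord_congr {G : Type*} [Group G] {f f' : Gen g p → G}
    (h : ∀ x, block f x = block f' x) : surfaceWord f = surfaceWord f' := by
  unfold surfaceWord
  have h1 : (fun i => ⁅f (.a i), f (.b i)⁆) = fun i => ⁅f' (.a i), f' (.b i)⁆ := by
    funext i; exact h (.inl i)
  have h2 : (fun j => f (.c j)) = fun j => f' (.c j) := by
    funext j; exact h (.inr j)
  rw [h1, h2]

theorem goodDA (i : Fin g) : (dataDA i : TwData g p).Good := by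
  have hw : ∀ n, surfaceWord ((dataDA i : TwData g p).f n) = 1 := by
    intro n
    rw [← surfaceWord_gen]
    refine surfaceWord_congr fun x => ?_
    rcases x with i' | j
    · by_cases h : i' = i
      · subst h
        simp only [block, TwData.f, dataDA, commutatorElement_def]
        simp
        group
      · simp [block, TwData.f, dataDA, h]
    · simp [block, TwData.f, dataDA]
  refine ⟨hw, ?_, ?_⟩
  · intro n
    simp only [dataDA]
    rw [endo_gen]
    simp [TwData.f, dataDA]
  · intro n x
    simp [dataDA]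

theorem goodDB (i : Fin g) : (dataDB i : TwData g p).Good := by
  have hw : ∀ n, surfaceWord ((dataDB i : TwData g p).f n) = 1 := by
    intro n
    rw [← surfaceWord_gen]
    refine surfaceWord_congr fun x => ?_
    rcases x with i' | j
    · by_cases h : i' = i
      · subst h
        simp only [block, TwData.f, dataDB, commutatorElement_def]
        simp
        group
      · simp [block, TwData.f, dataDB, h]
    · simp [block, TwData.f, dataDB]
  refine ⟨hw, ?_, ?_⟩
  · intro n
    simp only [dataDB]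
    rw [endo_gen]
    simp [TwData.f, dataDB]
  · intro n x
    simp [dataDB]

end tw

section slide

variable {g p : ℕ}

/-- Twist joining the first handle with the curve `a k`. -/
def dataA (k : Fin (g + 1)) (S : Split g p (.inl k)) : TwData (g + 1) p where
  e := (gen (.b 0))⁻¹ * (S.tau gen * gen (.a k) * (S.tau gen)⁻¹)
  t := fun x => if x = .a k ∨ x = .b k then S.tau gen else 1
  l := fun x => if x = .b 0 ∨ x = .a k then 1 else 0
  r := fun x => if x = .a 0 ∨ x = .b 0 ∨ x = .a k ∨ x = .b k then 1 else 0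

/-- Twist joining the first handle with the curve `b k`. -/
def dataB (k : Fin (g + 1)) (S : Split g p (.inl k)) : TwData (g + 1) p where
  e := (gen (.b 0))⁻¹ * (S.tau gen * (gen (.a k) * gen (.b k) * (gen (.a k))⁻¹) * (S.tau gen)⁻¹)
  t := fun x => if x = .a k then S.tau gen else 1
  l := fun x => if x = .b 0 ∨ x = .a k then 1 else 0
  r := fun x => if x = .a 0 ∨ x = .b 0 then 1 else 0

/-- Twist joining the first handle with the puncture `j`. -/
def dataC (j : Fin p) (S : Split g p (.inr j)) : TwData (g + 1) p where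
  e := (gen (.b 0))⁻¹ * (S.tau gen * gen (.c j) * (S.tau gen)⁻¹)
  t := fun x => if x = .c j then S.tau gen else 1
  l := fun x => if x = .b 0 ∨ x = .c j then 1 else 0
  r := fun x => if x = .a 0 ∨ x = .b 0 ∨ x = .c j then 1 else 0

theorem idA {G : Type*} [Group G] (A0 B0 T Ak Bk e : G) (he : e = B0⁻¹ * (T * Ak * T⁻¹)) (n : ℤ) :
    ⁅A0 * e ^ n, e ^ (-n) * B0 * e ^ n⁆ * (T * ⁅T⁻¹ * e ^ (-n) * T * Ak * T⁻¹ * e ^ n * T,
      Bk * T⁻¹ * e ^ n * T⁆) = ⁅A0, B0⁆ * (T * ⁅Ak, Bk⁆) := by
  have hAk : Ak = T⁻¹ * (B0 * e) * T := by rw [he]; group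
  subst hAk
  simp only [commutatorElement_def]
  clear he
  group

theorem idB {G : Type*} [Group G] (A0 B0 T Ak Bk e : G)
    (he : e = B0⁻¹ * (T * (Ak * Bk * Ak⁻¹) * T⁻¹)) (n : ℤ) :
    ⁅A0 * e ^ n, e ^ (-n) * B0 * e ^ n⁆ * (T * ⁅T⁻¹ * e ^ (-n) * T * Ak, Bk⁆) =
      ⁅A0, B0⁆ * (T * ⁅Ak, Bk⁆) := by
  have hB : Bk = Ak⁻¹ * T⁻¹ * (B0 * e) * T * Ak := by rw [he]; group
  subst hB
  simp only [commutatorElement_def]
  clear he
  group

theorem idC {G : Type*} [Group G] (A0 B0 T C e : G)
    (he : e = B0⁻¹ * (T * C * T⁻¹)) (n : ℤ) :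
    ⁅A0 * e ^ n, e ^ (-n) * B0 * e ^ n⁆ * (T * (T⁻¹ * e ^ (-n) * T * C * T⁻¹ * e ^ n * T)) =
      ⁅A0, B0⁆ * (T * C) := by
  have hC : C = T⁻¹ * (B0 * e) * T := by rw [he]; group
  subst hC
  simp only [commutatorElement_def]
  clear he
  group

theorem f_other {D : TwData g p} {x : Gen g p} (h1 : D.l x = 0) (h2 : D.r x = 0) (n : ℤ) :
    D.f n x = gen x := by
  unfold TwData.f
  rw [h1, h2]
  simp

theorem goodA {k : Fin (g + 1)} (hk : k ≠ 0) (S : Split g p (.inl k)) : (dataA k S).Good := by
  have hk' : (0 : Fin (g + 1)) ≠ k := Ne.symm hk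
  set T : SurfaceGroup (g + 1) p := S.tau gen with hT
  set e : SurfaceGroup (g + 1) p := (gen (.b 0))⁻¹ * (T * gen (.a k) * T⁻¹) with he
  have fa0 : ∀ n, (dataA k S).f n (.a 0) = gen (.a 0) * e ^ n := by
    intro n
    unfold TwData.f
    simp [dataA, hk']
    rfl
  have fb0 : ∀ n, (dataA k S).f n (.b 0) = e ^ (-n) * gen (.b 0) * e ^ n := by
    intro n
    unfold TwData.f
    simp [dataA, hk']
    rfl
  have fak : ∀ n, (dataA k S).f n (.a k) = T⁻¹ * e ^ (-n) * T * gen (.a k) * T⁻¹ * e ^ n * T := by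
    intro n
    unfold TwData.f
    simp [dataA]
    rfl
  have fbk : ∀ n, (dataA k S).f n (.b k) = gen (.b k) * T⁻¹ * e ^ n * T := by
    intro n
    unfold TwData.f
    simp [dataA, hk]
    rfl
  have fo : ∀ n x, x ≠ .inl 0 → x ≠ .inl k → block ((dataA k S).f n) x = block gen x := by
    intro n x h1 h2
    rcases x with i | j
    · have h1' : i ≠ 0 := fun h => h1 (by rw [h])
      have h2' : i ≠ k := fun h => h2 (by rw [h])
      simp only [block]
      rw [f_other, f_other] <;> simp [dataA, h1', h2']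
    · simp only [block]
      rw [f_other] <;> simp [dataA]
  have hw : ∀ n, surfaceWord ((dataA k S).f n) = 1 := by
    intro n
    rw [← surfaceWord_gen]
    refine S.word_eq (fo n) ?_
    simp only [block]
    rw [fa0, fb0, fak, fbk]
    exact idA _ _ _ _ _ _ he n
  have hT' : ∀ n, endo _ (hw n) T = T := by
    intro n
    rw [hT, S.tau_map]
    simp only [endo_gen]
    exact S.tau_congr (fo n)
  refine ⟨hw, ?_, ?_⟩
  · intro n
    change endo _ (hw n) e = e
    have e1 : endo _ (hw n) e =
      (e ^ (-n) * gen (.b 0) * e ^ n)⁻¹ * (T * (T⁻¹ * e ^ (-n) * T * gen (.a k) * T⁻¹ * e ^ n * T) *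
        T⁻¹) := by
      conv_lhs => rw [he]
      rw [map_mul, map_inv, map_mul, map_mul, map_inv, hT', endo_gen, endo_gen, fb0, fak]
    have e2 : gen (.a k) = T⁻¹ * (gen (.b 0) * e) * T := by rw [he]; group
    rw [e1, e2]
    group
  · intro n x
    simp only [dataA]
    split_ifs
    · exact hT' n
    · exact map_one _

theorem goodB {k : Fin (g + 1)} (hk : k ≠ 0) (S : Split g p (.inl k)) : (dataB k S).Good := by
  have hk' : (0 : Fin (g + 1)) ≠ k := Ne.symm hk
  set T : SurfaceGroup (g + 1) p := S.tau gen with hT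
  set e : SurfaceGroup (g + 1) p :=
    (gen (.b 0))⁻¹ * (T * (gen (.a k) * gen (.b k) * (gen (.a k))⁻¹) * T⁻¹) with he
  have fa0 : ∀ n, (dataB k S).f n (.a 0) = gen (.a 0) * e ^ n := by
    intro n
    unfold TwData.f
    simp [dataB, hk']
    rfl
  have fb0 : ∀ n, (dataB k S).f n (.b 0) = e ^ (-n) * gen (.b 0) * e ^ n := by
    intro n
    unfold TwData.f
    simp [dataB]
    rfl
  have fak : ∀ n, (dataB k S).f n (.a k) = T⁻¹ * e ^ (-n) * T * gen (.a k) := by
    intro n
    unfold TwData.f
    simp [dataB, hk]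
    rfl
  have fbk : ∀ n, (dataB k S).f n (.b k) = gen (.b k) := by
    intro n
    unfold TwData.f
    simp [dataB, hk]
  have fo : ∀ n x, x ≠ .inl 0 → x ≠ .inl k → block ((dataB k S).f n) x = block gen x := by
    intro n x h1 h2
    rcases x with i | j
    · have h1' : i ≠ 0 := fun h => h1 (by rw [h])
      have h2' : i ≠ k := fun h => h2 (by rw [h])
      simp only [block]
      rw [f_other, f_other] <;> simp [dataB, h1', h2']
    · simp only [block]
      rw [f_other] <;> simp [dataB]
  have hw : ∀ n, surfaceWord ((dataB k S).f n) = 1 := by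
    intro n
    rw [← surfaceWord_gen]
    refine S.word_eq (fo n) ?_
    simp only [block]
    rw [fa0, fb0, fak, fbk]
    exact idB _ _ _ _ _ _ he n
  have hT' : ∀ n, endo _ (hw n) T = T := by
    intro n
    rw [hT, S.tau_map]
    simp only [endo_gen]
    exact S.tau_congr (fo n)
  refine ⟨hw, ?_, ?_⟩
  · intro n
    change endo _ (hw n) e = e
    have e1 : endo _ (hw n) e =
      (e ^ (-n) * gen (.b 0) * e ^ n)⁻¹ * (T * ((T⁻¹ * e ^ (-n) * T * gen (.a k)) * gen (.b k) *
        (T⁻¹ * e ^ (-n) * T * gen (.a k))⁻¹) * T⁻¹) := by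
      conv_lhs => rw [he]
      simp only [map_mul, map_inv]
      rw [hT', endo_gen, endo_gen, endo_gen, fb0, fak, fbk]
    have e2 : gen (.b k) = (gen (.a k))⁻¹ * T⁻¹ * (gen (.b 0) * e) * T * gen (.a k) := by
      rw [he]; group
    rw [e1, e2]
    group
  · intro n x
    simp only [dataB]
    split_ifs
    · exact hT' n
    · exact map_one _

theorem goodC {j : Fin p} (S : Split g p (.inr j)) : (dataC j S).Good := by
  set T : SurfaceGroup (g + 1) p := S.tau gen with hT
  set e : SurfaceGroup (g + 1) p := (gen (.b 0))⁻¹ * (T * gen (.c j) * T⁻¹) with he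
  have fa0 : ∀ n, (dataC j S).f n (.a 0) = gen (.a 0) * e ^ n := by
    intro n
    unfold TwData.f
    simp [dataC]
    rfl
  have fb0 : ∀ n, (dataC j S).f n (.b 0) = e ^ (-n) * gen (.b 0) * e ^ n := by
    intro n
    unfold TwData.f
    simp [dataC]
    rfl
  have fcj : ∀ n, (dataC j S).f n (.c j) = T⁻¹ * e ^ (-n) * T * gen (.c j) * T⁻¹ * e ^ n * T := by
    intro n
    unfold TwData.f
    simp [dataC]
    rfl
  have fo : ∀ n x, x ≠ .inl 0 → x ≠ .inr j → block ((dataC j S).f n) x = block gen x := by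
    intro n x h1 h2
    rcases x with i | j'
    · have h1' : i ≠ 0 := fun h => h1 (by rw [h])
      simp only [block]
      rw [f_other, f_other] <;> simp [dataC, h1']
    · have h2' : j' ≠ j := fun h => h2 (by rw [h])
      simp only [block]
      rw [f_other] <;> simp [dataC, h2']
  have hw : ∀ n, surfaceWord ((dataC j S).f n) = 1 := by
    intro n
    rw [← surfaceWord_gen]
    refine S.word_eq (fo n) ?_
    simp only [block]
    rw [fa0, fb0, fcj]
    exact idC _ _ _ _ _ he n
  have hT' : ∀ n, endo _ (hw n) T = T := by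
    intro n
    rw [hT, S.tau_map]
    simp only [endo_gen]
    exact S.tau_congr (fo n)
  refine ⟨hw, ?_, ?_⟩
  · intro n
    change endo _ (hw n) e = e
    have e1 : endo _ (hw n) e =
      (e ^ (-n) * gen (.b 0) * e ^ n)⁻¹ * (T * (T⁻¹ * e ^ (-n) * T * gen (.c j) * T⁻¹ * e ^ n * T) *
        T⁻¹) := by
      conv_lhs => rw [he]
      rw [map_mul, map_inv, map_mul, map_mul, map_inv, hT', endo_gen, endo_gen, fb0, fcj]
    have e2 : gen (.c j) = T⁻¹ * (gen (.b 0) * e) * T := by rw [he]; group
    rw [e1, e2]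
    group
  · intro n x
    simp only [dataC]
    split_ifs
    · exact hT' n
    · exact map_one _

end slide

end Pool.Agent.H344.SC
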