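import Mathlib
import Pool.Agent.H344.SC.Ineq

/-!
# Products of conjugates of generators cover cosets of the commutator subgroup
-/

namespace Pool.Agent.H344.SC

open scoped commutatorElement IsMulCommutative

theorem ofFn_prod_center {G : Type*} [Group G] {r : ℕ} (u : Fin r → G)
    (z : Fin r → Subgroup.center G) :
    (List.ofFn fun i => u i * (z i : G)).prod =
      (List.ofFn u).prod * ((∏ i, z i : Subgroup.center G) : G) := by
  have h := list_prod_center (List.finRange r) u z
  rw [← List.ofFn_eq_map, ← List.ofFn_eq_map, ← List.ofFn_eq_map, List.prod_ofFn] at h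
  exact h

theorem cover_coset {π : Type*} [Group π] {r : ℕ} (x : Fin r → π)
    (hx : Subgroup.closure (Set.range x) ⊔ commutator π = ⊤) (y : π)
    (hy : ((List.ofFn x).prod)⁻¹ * y ∈ lcs π 1) (c : ℕ) :
    ∃ h : Fin r → π, ((List.ofFn fun i => h i * x i * (h i)⁻¹).prod)⁻¹ * y ∈ lcs π (c + 1) := by
  classical
  induction c with
  | zero => exact ⟨fun _ => 1, by simpa using hy⟩
  | succ c ih =>
    obtain ⟨h, hh⟩ := ih
    set q := QuotientGroup.mk' (lcs π (c + 2)) with hq
    have hqs : Function.Surjective q := QuotientGroup.mk'_surjective _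
    set H := π ⧸ lcs π (c + 2) with hH
    have hbot : lcs H (c + 2) = ⊥ := lcs_quot_eq_bot _
    have hA : CentralPair (lcs H c) := centralPair_lcs hbot
    have hv : Subgroup.closure (Set.range fun i => (q (x i))⁻¹) ⊔ commutator H = ⊤ := by
      have h1 := congrArg (Subgroup.map q) hx
      rw [Subgroup.map_sup, MonoidHom.map_closure, Subgroup.map_top_of_surjective q hqs] at h1
      rw [eq_top_iff, ← h1]
      refine sup_le_sup ?_ ?_
      · rw [Subgroup.closure_le]
        rintro _ ⟨_, ⟨i, rfl⟩, rfl⟩
        have := Subgroup.inv_mem _ (Subgroup.subset_closure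
          (k := Set.range fun i => (q (x i))⁻¹) ⟨i, rfl⟩)
        rw [inv_inv] at this
        exact this
      · rw [commutator_def, commutator_def, Subgroup.map_commutator]
        exact Subgroup.commutator_mono le_top le_top
    set z : π := ((List.ofFn fun i => h i * x i * (h i)⁻¹).prod)⁻¹ * y with hz
    have hzm : q z ∈ ⁅lcs H c, (⊤ : Subgroup H)⁆ := by
      have : q z ∈ lcs H (c + 1) := by
        rw [← lcs_map hqs (c + 1)]
        exact Subgroup.mem_map_of_mem _ hh
      exact this
    obtain ⟨u, hu⟩ := pairSum_surj hA (fun i => (q (x i))⁻¹) hv hzm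
    have hlift : ∀ i, ∃ w : π, q w = u i := fun i => hqs _
    choose w hw using hlift
    refine ⟨fun i => h i * w i, ?_⟩
    have key : q (List.ofFn fun i => h i * w i * x i * (h i * w i)⁻¹).prod = q y := by
      rw [map_list_prod, List.map_ofFn]
      have e1 : (q ∘ fun i => h i * w i * x i * (h i * w i)⁻¹) = fun i =>
          (q (h i) * q (x i) * (q (h i))⁻¹) *
            ((pairL hA (u i) (q (x i))⁻¹ : Subgroup.center H) : H) := by
        funext i
        rw [← conj_identity hA (q (h i)) (q (x i)) (u i)]
        simp only [Function.comp, map_mul, map_inv, hw]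
      rw [e1, ofFn_prod_center]
      rw [pairSum_apply] at hu
      rw [hu]
      have e2 : (List.ofFn fun i => q (h i) * q (x i) * (q (h i))⁻¹).prod =
          q (List.ofFn fun i => h i * x i * (h i)⁻¹).prod := by
        rw [map_list_prod, List.map_ofFn]
        rfl
      rw [e2, ← map_mul, hz, mul_inv_cancel_left]
    have h2 := QuotientGroup.eq.1 key
    exact h2

end Pool.Agent.H344.SC
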