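import Mathlib
import Pool.Agent.H344.SC.Twists
import Pool.Agent.H344.SC.UpperConj

/-!
# Upper bound: products of `r + 1` simple elements cover all nilpotent quotients
-/

namespace Pool.Agent.H344.SC

open scoped commutatorElement

section group

variable {g p : ℕ}

theorem IsGeometric.one : IsGeometric (1 : MulAut (SurfaceGroup g p)) :=
  ⟨1, fun _ => Or.inl (IsConj.refl _)⟩

theorem isConj_map {G : Type*} [Group G] (φ : MulAut G) {x y : G} (h : IsConj x y) :
    IsConj (φ x) (φ y) := by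
  obtain ⟨c, hc⟩ := isConj_iff.1 h
  refine isConj_iff.2 ⟨φ c, ?_⟩
  rw [← hc]; simp

theorem isConj_inv {G : Type*} [Group G] {x y : G} (h : IsConj x y) : IsConj x⁻¹ y⁻¹ := by
  obtain ⟨c, hc⟩ := isConj_iff.1 h
  refine isConj_iff.2 ⟨c, ?_⟩
  rw [← hc]; group

theorem IsGeometric.mul {φ ψ : MulAut (SurfaceGroup g p)} (hφ : IsGeometric φ)
    (hψ : IsGeometric ψ) : IsGeometric (φ * ψ) := by
  obtain ⟨σ, hσ⟩ := hφ
  obtain ⟨τ, hτ⟩ := hψ
  refine ⟨σ * τ, fun j => ?_⟩
  rw [MulAut.mul_apply, Equiv.Perm.mul_apply]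
  rcases hτ j with h | h
  · have h1 := isConj_map φ h
    rcases hσ (τ j) with h2 | h2
    · exact Or.inl (h1.trans h2)
    · exact Or.inr (h1.trans h2)
  · have h1 := isConj_map φ h
    rw [map_inv] at h1
    rcases hσ (τ j) with h2 | h2
    · exact Or.inr (h1.trans (isConj_inv h2))
    · have h3 := isConj_inv h2
      rw [inv_inv] at h3
      exact Or.inl (h1.trans h3)

theorem IsGeometric.conj (x : SurfaceGroup g p) : IsGeometric (MulAut.conj x) := by
  refine ⟨1, fun j => Or.inl ?_⟩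
  rw [Equiv.Perm.one_apply, isConj_comm]
  exact isConj_iff.2 ⟨x, rfl⟩

theorem simple_map {φ : MulAut (SurfaceGroup g p)} (hφ : IsGeometric φ) {x : SurfaceGroup g p}
    (hx : x ∈ simpleElements g p) : φ x ∈ simpleElements g p := by
  obtain ⟨ψ, hψ, s, rfl⟩ := hx
  exact ⟨φ * ψ, hφ.mul hψ, s, rfl⟩

theorem simple_conj (y : SurfaceGroup g p) {x : SurfaceGroup g p}
    (hx : x ∈ simpleElements g p) : y * x * y⁻¹ ∈ simpleElements g p :=
  simple_map (IsGeometric.conj y) hx

theorem simple_a (i : Fin g) : (gen (.a i) : SurfaceGroup g p) ∈ simpleElements g p :=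
  ⟨1, IsGeometric.one, .a i, rfl⟩

theorem simple_b (i : Fin g) : (gen (.b i) : SurfaceGroup g p) ∈ simpleElements g p :=
  ⟨1, IsGeometric.one, .b i, rfl⟩

theorem simple_one : (1 : SurfaceGroup g p) ∈ simpleElements g p :=
  ⟨1, IsGeometric.one, .sep ∅ ∅, by simp [curveWord]⟩

theorem simple_c (j : Fin p) : (gen (.c j) : SurfaceGroup g p) ∈ simpleElements g p := by
  refine ⟨1, IsGeometric.one, .sep ∅ {j}, ?_⟩
  have h1 : (List.finRange p).filter (fun j' => j' ∈ ({j} : Finset (Fin p))) = [j] := by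
    have h2 : (fun j' : Fin p => decide (j' ∈ ({j} : Finset (Fin p)))) = fun j' => j' == j := by
      funext j'
      by_cases h : j' = j <;> simp [h]
    rw [h2, List.filter_beq, List.count_eq_one_of_mem (List.nodup_finRange p) (List.mem_finRange j)]
    rfl
  simp only [curveWord, h1]
  simp

end group

section homology

variable {g p : ℕ}

/-- The class in homology. -/
abbrev ab (x : SurfaceGroup g p) : Abelianization (SurfaceGroup g p) := Abelianization.of x

/-- Classes of simple nonseparating elements. -/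
def OO (g p : ℕ) : Set (Abelianization (SurfaceGroup (g + 1) p)) :=
  {v | ∃ x, x ∈ simpleElements (g + 1) p ∧ ab x = v}

/-- The induced map on homology. -/
def mapAb (φ : MulAut (SurfaceGroup g p)) :
    Abelianization (SurfaceGroup g p) →* Abelianization (SurfaceGroup g p) :=
  Abelianization.map φ.toMonoidHom

theorem mapAb_ab (φ : MulAut (SurfaceGroup g p)) (x : SurfaceGroup g p) :
    mapAb φ (ab x) = ab (φ x) := rfl

theorem OO_map {φ : MulAut (SurfaceGroup (g + 1) p)} (hφ : IsGeometric φ)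
    {v : Abelianization (SurfaceGroup (g + 1) p)} (hv : v ∈ OO g p) : mapAb φ v ∈ OO g p := by
  obtain ⟨x, hx, rfl⟩ := hv
  exact ⟨φ x, simple_map hφ hx, rfl⟩

/-- The subgroup generated by the classes of all generators but `a 0`. -/
def YY (g p : ℕ) : Subgroup (Abelianization (SurfaceGroup (g + 1) p)) :=
  Subgroup.closure {v | ∃ x : Gen (g + 1) p, x ≠ .a 0 ∧ v = ab (gen x)}

/-- The subgroup generated by the class of `b 0`. -/
def ZZ (g p : ℕ) : Subgroup (Abelianization (SurfaceGroup (g + 1) p)) :=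
  Subgroup.zpowers (ab (gen (.b 0)))

theorem ZZ_le_YY : ZZ g p ≤ YY g p := by
  unfold ZZ
  rw [Subgroup.zpowers_le]
  exact Subgroup.subset_closure ⟨.b 0, by simp, rfl⟩

/-- The automorphism adds `w` to `a 0` and is trivial on other generators, modulo `b 0`. -/
def Adds (φ : MulAut (SurfaceGroup (g + 1) p)) (w : Abelianization (SurfaceGroup (g + 1) p)) :
    Prop :=
  (mapAb φ (ab (gen (.a 0))) * (ab (gen (.a 0)) * w)⁻¹ ∈ ZZ g p) ∧
  ∀ x : Gen (g + 1) p, x ≠ .a 0 → mapAb φ (ab (gen x)) * (ab (gen x))⁻¹ ∈ ZZ g p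

theorem Adds.apply {φ : MulAut (SurfaceGroup (g + 1) p)}
    {w : Abelianization (SurfaceGroup (g + 1) p)} (h : Adds φ w)
    {y : Abelianization (SurfaceGroup (g + 1) p)} (hy : y ∈ YY g p) :
    mapAb φ (ab (gen (.a 0)) * y) * (ab (gen (.a 0)) * (y * w))⁻¹ ∈ ZZ g p := by
  have h1 : ∀ y ∈ YY g p, mapAb φ y * y⁻¹ ∈ ZZ g p := by
    intro y hy
    have h2 : YY g p ≤ (ZZ g p).comap
        ((mapAb φ) * (MonoidHom.id _)⁻¹ : Abelianization (SurfaceGroup (g + 1) p) →* _) := by
      unfold YY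
      rw [Subgroup.closure_le]
      rintro _ ⟨x, hx, rfl⟩
      exact h.2 x hx
    exact h2 hy
  have h3 := (ZZ g p).mul_mem h.1 (h1 y hy)
  convert h3 using 1
  rw [map_mul]
  simp only [mul_inv]
  simp only [mul_assoc, mul_comm, mul_left_comm]

/-- The key predicate. -/
def PP (y : Abelianization (SurfaceGroup (g + 1) p)) : Prop := ab (gen (.a 0)) * y ∈ OO g p

theorem ab_aut {D : TwData g p} (h : D.Good) (n : ℤ) (x : Gen g p) :
    mapAb (h.aut n) (ab (gen x)) = ab (gen x) * (ab D.e) ^ (n * (D.r x - D.l x)) := by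
  rw [mapAb_ab, h.aut_gen]
  exact D.ab_f n x

theorem PP_b0 {y : Abelianization (SurfaceGroup (g + 1) p)} (hy : y ∈ YY g p) (h : PP y) (n : ℤ) :
    PP (y * ab (gen (.b 0)) ^ n) := by
  have hgood := goodDB (g := g + 1) (p := p) 0
  have hgeo : IsGeometric (hgood.aut n) := hgood.geometric (fun j => by simp [dataDB]) n
  have h1 := OO_map hgeo h
  have h2 : mapAb (hgood.aut n) (ab (gen (.a 0))) = ab (gen (.a 0)) * ab (gen (.b 0)) ^ n := by
    rw [ab_aut]
    simp [dataDB]
  have h3 : ∀ y ∈ YY g p, mapAb (hgood.aut n) y = y := by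
    intro y hy
    have h4 : YY g p ≤ (mapAb (hgood.aut n)).eqLocus (MonoidHom.id _) := by
      unfold YY
      rw [Subgroup.closure_le]
      rintro _ ⟨x, hx, rfl⟩
      change mapAb (hgood.aut n) (ab (gen x)) = ab (gen x)
      rw [ab_aut]
      simp [dataDB, hx]
    exact h4 hy
  rw [map_mul, h2, h3 y hy] at h1
  unfold PP
  convert h1 using 1
  rw [mul_assoc, mul_comm y]

theorem PP_ZZ {y z : Abelianization (SurfaceGroup (g + 1) p)} (hy : y ∈ YY g p) (h : PP y)
    (hz : z ∈ ZZ g p) : PP (y * z) := by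
  obtain ⟨n, rfl⟩ := Subgroup.mem_zpowers_iff.1 hz
  exact PP_b0 hy h n

theorem PP_adds {φ : MulAut (SurfaceGroup (g + 1) p)} (hφ : IsGeometric φ)
    {w y : Abelianization (SurfaceGroup (g + 1) p)} (hw : w ∈ YY g p) (h : Adds φ w)
    (hy : y ∈ YY g p) (hP : PP y) : PP (y * w) := by
  have h1 := OO_map hφ hP
  have h2 := h.apply hy
  set z := mapAb φ (ab (gen (.a 0)) * y) * (ab (gen (.a 0)) * (y * w))⁻¹ with hz
  have h3 : PP (y * w * z) := by
    unfold PP
    convert h1 using 1
    rw [hz]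
    generalize mapAb φ (ab (gen (.a 0)) * y) = m
    rw [mul_inv_rev, mul_inv_rev]
    calc ab (gen (Gen.a 0)) * (y * w * (m * (w⁻¹ * y⁻¹ * (ab (gen (Gen.a 0)))⁻¹)))
        = m * ((ab (gen (Gen.a 0)) * (ab (gen (Gen.a 0)))⁻¹) * (y * y⁻¹) * (w * w⁻¹)) := by
          simp only [mul_assoc, mul_comm, mul_left_comm]
      _ = m := by simp
  have h4 := PP_ZZ (Subgroup.mul_mem _ (Subgroup.mul_mem _ hy hw) (ZZ_le_YY h2)) h3
    ((ZZ g p).inv_mem h2)
  rwa [mul_inv_cancel_right] at h4

theorem zz_comm_helper {z w : Abelianization (SurfaceGroup (g + 1) p)} (n : ℤ) (hz : z ∈ ZZ g p) :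
    (z * w) ^ n * (w ^ n)⁻¹ ∈ ZZ g p := by
  rw [mul_zpow, mul_inv_cancel_right]
  exact (ZZ g p).zpow_mem hz n

theorem adds_c (j : Fin p) (n : ℤ) : ∃ φ : MulAut (SurfaceGroup (g + 1) p), IsGeometric φ ∧
    Adds φ (ab (gen (.c j)) ^ n) := by
  obtain ⟨S⟩ := nonempty_split (g := g) (p := p) (m := .inr j) (by simp)
  have hgood := goodC S
  have he : ab (dataC j S).e = (ab (gen (.b 0)))⁻¹ * ab (gen (.c j)) := by
    simp only [dataC, map_mul, map_inv]
    rw [mul_comm (Abelianization.of (S.tau gen)), mul_inv_cancel_right]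
  have hb : (ab (gen (.b 0)))⁻¹ ∈ ZZ g p := (ZZ g p).inv_mem (Subgroup.mem_zpowers _)
  refine ⟨hgood.aut n, hgood.geometric (fun j' => by simp [dataC]) n, ?_, ?_⟩
  · rw [ab_aut, he]
    simp only [dataC]
    simp only [reduceCtorEq, or_self, if_false, true_or, if_true, sub_zero, mul_one]
    rw [mul_inv_rev]
    have := zz_comm_helper (g := g) (p := p) (w := ab (gen (.c j))) n hb
    convert this using 1
    generalize ((ab (gen (.b 0)))⁻¹ * ab (gen (.c j)) :
      Abelianization (SurfaceGroup (g + 1) p)) ^ n = m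
    rw [mul_comm (ab (gen (.a 0))), mul_assoc, mul_comm (ab (gen (.c j)) ^ n)⁻¹,
      mul_inv_cancel_left]
  · intro x hx
    rw [ab_aut]
    have : (dataC j S).r x - (dataC j S).l x = 0 := by
      simp only [dataC]
      by_cases h1 : x = .b 0
      · simp [h1]
      · by_cases h2 : x = .c j
        · simp [h2]
        · simp [h1, h2, hx]
    rw [this, mul_zero, zpow_zero, mul_one, mul_inv_cancel]
    exact Subgroup.one_mem _

theorem mapAb_mul (φ ψ : MulAut (SurfaceGroup g p)) (x : SurfaceGroup g p) :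
    mapAb (φ * ψ) (ab x) = mapAb φ (mapAb ψ (ab x)) := rfl

theorem adds_helper {A E B : Abelianization (SurfaceGroup (g + 1) p)} (hB : B ∈ ZZ g p)
    (hE : E = B * A) (X : Abelianization (SurfaceGroup (g + 1) p)) (n m : ℤ) :
    X * A ^ (-(n * m)) * E ^ (n * m) * X⁻¹ ∈ ZZ g p := by
  subst hE
  rw [mul_zpow]
  have : X * A ^ (-(n * m)) * (B ^ (n * m) * A ^ (n * m)) * X⁻¹ = B ^ (n * m) := by
    rw [zpow_neg]
    generalize A ^ (n * m) = a
    generalize B ^ (n * m) = b
    calc X * a⁻¹ * (b * a) * X⁻¹ = b * (a * a⁻¹) * (X * X⁻¹) := by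
          simp only [mul_assoc, mul_comm, mul_left_comm]
      _ = b := by simp
  rw [this]
  exact (ZZ g p).zpow_mem hB _

theorem adds_helper2 {A E B : Abelianization (SurfaceGroup (g + 1) p)} (hB : B ∈ ZZ g p)
    (hE : E = B * A) (X : Abelianization (SurfaceGroup (g + 1) p)) (n : ℤ) :
    X * E ^ n * (X * A ^ n)⁻¹ ∈ ZZ g p := by
  subst hE
  rw [mul_zpow]
  have : X * (B ^ n * A ^ n) * (X * A ^ n)⁻¹ = B ^ n := by
    generalize A ^ n = a
    generalize B ^ n = b
    calc X * (b * a) * (X * a)⁻¹ = b * ((X * a) * (X * a)⁻¹) := by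
          simp only [mul_assoc, mul_comm, mul_left_comm]
      _ = b := by simp
  rw [this]
  exact (ZZ g p).zpow_mem hB _

theorem adds_a {k : Fin (g + 1)} (hk : k ≠ 0) (n : ℤ) :
    ∃ φ : MulAut (SurfaceGroup (g + 1) p), IsGeometric φ ∧ Adds φ (ab (gen (.a k)) ^ n) := by
  have hk' : (0 : Fin (g + 1)) ≠ k := Ne.symm hk
  obtain ⟨S⟩ := nonempty_split (g := g) (p := p) (m := .inl k) (by simpa using hk)
  have hgood := goodA hk S
  have hD := goodDA (g := g + 1) (p := p) k
  have he : ab (dataA k S).e = (ab (gen (.b 0)))⁻¹ * ab (gen (.a k)) := by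
    simp only [dataA, map_mul, map_inv]
    rw [mul_comm (Abelianization.of (S.tau gen)), mul_inv_cancel_right]
  have hb : (ab (gen (.b 0)))⁻¹ ∈ ZZ g p := (ZZ g p).inv_mem (Subgroup.mem_zpowers _)
  have hDE : mapAb (hD.aut (-n)) (ab (dataA k S).e) = ab (dataA k S).e := by
    rw [he, map_mul, map_inv, ab_aut, ab_aut]
    simp [dataDA, hk']
  have hall : ∀ x : Gen (g + 1) p, mapAb (hD.aut (-n) * hgood.aut n) (ab (gen x)) =
      ab (gen x) * ab (gen (.a k)) ^ (-n * (if x = .b k then 1 else 0)) *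
        ab (dataA k S).e ^ (n * ((dataA k S).r x - (dataA k S).l x)) := by
    intro x
    rw [mapAb_mul, ab_aut, map_mul, map_zpow, hDE, ab_aut]
    simp [dataDA]
  refine ⟨hD.aut (-n) * hgood.aut n, (hD.geometric (fun j => by simp [dataDA]) _).mul
    (hgood.geometric (fun j' => by simp [dataA]) n), ?_, ?_⟩
  · rw [hall]
    have h1 : (dataA k S).r (.a 0) - (dataA k S).l (.a 0) = 1 := by simp [dataA, hk']
    rw [h1, if_neg (by simp), mul_zero, zpow_zero, mul_one, mul_one]
    exact adds_helper2 hb he _ n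
  · intro x hx
    rw [hall]
    by_cases h1 : x = .b k
    · subst h1
      have h2 : (dataA k S).r (.b k) - (dataA k S).l (.b k) = 1 := by simp [dataA, hk]
      rw [h2, if_pos rfl]
      have := adds_helper hb he (ab (gen (.b k))) n 1
      rwa [← neg_mul] at this
    · rw [if_neg h1]
      have h2 : (dataA k S).r x - (dataA k S).l x = 0 := by
        simp only [dataA]
        by_cases h3 : x = .b 0
        · simp [h3]
        · by_cases h4 : x = .a k
          · simp [h4]
          · simp [h1, h3, h4, hx]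
      rw [h2, mul_zero, mul_zero, zpow_zero, zpow_zero, mul_one, mul_one, mul_inv_cancel]
      exact Subgroup.one_mem _

theorem adds_b {k : Fin (g + 1)} (hk : k ≠ 0) (n : ℤ) :
    ∃ φ : MulAut (SurfaceGroup (g + 1) p), IsGeometric φ ∧ Adds φ (ab (gen (.b k)) ^ n) := by
  have hk' : (0 : Fin (g + 1)) ≠ k := Ne.symm hk
  obtain ⟨S⟩ := nonempty_split (g := g) (p := p) (m := .inl k) (by simpa using hk)
  have hgood := goodB hk S
  have hD := goodDB (g := g + 1) (p := p) k
  have he : ab (dataB k S).e = (ab (gen (.b 0)))⁻¹ * ab (gen (.b k)) := by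
    simp only [dataB, map_mul, map_inv]
    rw [mul_comm (Abelianization.of (S.tau gen)), mul_inv_cancel_right,
      mul_comm (Abelianization.of (gen (.a k))), mul_inv_cancel_right]
  have hb : (ab (gen (.b 0)))⁻¹ ∈ ZZ g p := (ZZ g p).inv_mem (Subgroup.mem_zpowers _)
  have hDE : mapAb (hD.aut n) (ab (dataB k S).e) = ab (dataB k S).e := by
    rw [he, map_mul, map_inv, ab_aut, ab_aut]
    simp [dataDB]
  have hall : ∀ x : Gen (g + 1) p, mapAb (hD.aut n * hgood.aut n) (ab (gen x)) =
      ab (gen x) * ab (gen (.b k)) ^ (n * (if x = .a k then 1 else 0)) *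
        ab (dataB k S).e ^ (n * ((dataB k S).r x - (dataB k S).l x)) := by
    intro x
    rw [mapAb_mul, ab_aut, map_mul, map_zpow, hDE, ab_aut]
    simp [dataDB]
  refine ⟨hD.aut n * hgood.aut n, (hD.geometric (fun j => by simp [dataDB]) _).mul
    (hgood.geometric (fun j' => by simp [dataB]) n), ?_, ?_⟩
  · rw [hall]
    have h1 : (dataB k S).r (.a 0) - (dataB k S).l (.a 0) = 1 := by simp [dataB, hk']
    rw [h1, if_neg (by simpa using hk'), mul_zero, zpow_zero, mul_one, mul_one]
    exact adds_helper2 hb he _ n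
  · intro x hx
    rw [hall]
    by_cases h1 : x = .a k
    · subst h1
      have h2 : (dataB k S).r (.a k) - (dataB k S).l (.a k) = -1 := by simp [dataB, hk]
      rw [h2, if_pos rfl]
      have := adds_helper hb he (ab (gen (.a k))) n (-1)
      rwa [show -(n * -1) = n * 1 by ring] at this
    · rw [if_neg h1]
      have h2 : (dataB k S).r x - (dataB k S).l x = 0 := by
        simp only [dataB]
        by_cases h3 : x = .b 0
        · simp [h3]
        · simp [h1, h3, hx]
      rw [h2, mul_zero, zpow_zero, zpow_zero, mul_one, mul_one, mul_inv_cancel]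
      exact Subgroup.one_mem _

theorem gen_mem_YY {x : Gen (g + 1) p} (hx : x ≠ .a 0) : ab (gen x) ∈ YY g p :=
  Subgroup.subset_closure ⟨x, hx, rfl⟩

theorem PP_gen {x : Gen (g + 1) p} (hx : x ≠ .a 0) (n : ℤ)
    {y : Abelianization (SurfaceGroup (g + 1) p)} (hy : y ∈ YY g p) (h : PP y) :
    PP (y * ab (gen x) ^ n) := by
  have hw : ab (gen x) ^ n ∈ YY g p := Subgroup.zpow_mem _ (gen_mem_YY hx) n
  rcases x with i | i | j
  · have hi : i ≠ 0 := fun h => hx (by rw [h])
    obtain ⟨φ, hφ, hA⟩ := adds_a (p := p) hi n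
    exact PP_adds hφ hw hA hy h
  · by_cases hi : i = 0
    · subst hi
      exact PP_b0 hy h n
    · obtain ⟨φ, hφ, hA⟩ := adds_b (p := p) hi n
      exact PP_adds hφ hw hA hy h
  · obtain ⟨φ, hφ, hA⟩ := adds_c (g := g) j n
    exact PP_adds hφ hw hA hy h

/-- **Every class `a 0 * y` is represented by a simple element.** -/
theorem PP_all {y : Abelianization (SurfaceGroup (g + 1) p)} (hy : y ∈ YY g p) : PP y := by
  have h0 : PP (1 : Abelianization (SurfaceGroup (g + 1) p)) := by
    unfold PP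
    rw [mul_one]
    exact ⟨_, simple_a 0, rfl⟩
  have key : ∀ w ∈ YY g p, ∀ y ∈ YY g p, PP y → PP (y * w) := by
    intro w hw
    refine Subgroup.closure_induction'' (s := {v | ∃ x : Gen (g + 1) p, x ≠ .a 0 ∧ v = ab (gen x)})
      (p := fun w _ => ∀ y ∈ YY g p, PP y → PP (y * w)) ?_ ?_ ?_ ?_ hw
    · intro v hv y hy h
      obtain ⟨x, hx, rfl⟩ := hv
      have := PP_gen hx 1 hy h
      rwa [zpow_one] at this
    · intro v hv y hy h
      obtain ⟨x, hx, rfl⟩ := hv
      have := PP_gen hx (-1) hy h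
      rwa [zpow_neg_one] at this
    · intro y _ h
      rwa [mul_one]
    · intro v v' hv hv' h1 h2 y hy h
      rw [← mul_assoc]
      exact h2 _ (Subgroup.mul_mem _ hy hv) (h1 y hy h)
  have := key y hy 1 (Subgroup.one_mem _) h0
  rwa [one_mul] at this

end homology

end Pool.Agent.H344.SC
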