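import Mathlib
import Pool.Agent.H344.SC.Upper

/-!
# Upper bound: assembly
-/

namespace Pool.Agent.H344.SC

open scoped commutatorElement

section

variable {g p : ℕ}

theorem ab_eq_one {x : SurfaceGroup g p} (h : ab x = 1) : x ∈ commutator (SurfaceGroup g p) :=
  (QuotientGroup.eq_one_iff _).1 h

theorem exists_decomp (v : Abelianization (SurfaceGroup (g + 1) p)) :
    ∃ (α : ℤ) (w : Abelianization (SurfaceGroup (g + 1) p)), w ∈ YY g p ∧
      v = ab (gen (.a 0)) ^ α * w := by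
  have h1 : Subgroup.zpowers (ab (gen (.a 0))) ⊔ YY g p = ⊤ := by
    rw [eq_top_iff]
    have h2 := congrArg (Subgroup.map (Abelianization.of (G := SurfaceGroup (g + 1) p)))
      (closure_range_gen (g := g + 1) (p := p))
    have hs : Function.Surjective (Abelianization.of (G := SurfaceGroup (g + 1) p)) :=
      QuotientGroup.mk'_surjective _
    rw [MonoidHom.map_closure, Subgroup.map_top_of_surjective _ hs] at h2
    rw [← h2, Subgroup.closure_le]
    rintro _ ⟨_, ⟨x, rfl⟩, rfl⟩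
    by_cases hx : x = .a 0
    · subst hx
      exact (le_sup_left : _ ≤ Subgroup.zpowers (ab (gen (.a 0))) ⊔ YY g p)
        (Subgroup.mem_zpowers _)
    · exact (le_sup_right : _ ≤ Subgroup.zpowers (ab (gen (.a 0))) ⊔ YY g p) (gen_mem_YY hx)
  have h3 : v ∈ Subgroup.zpowers (ab (gen (.a 0))) ⊔ YY g p := by rw [h1]; trivial
  obtain ⟨y, hy, w, hw, rfl⟩ := Subgroup.mem_sup.1 h3
  obtain ⟨α, rfl⟩ := Subgroup.mem_zpowers_iff.1 hy
  exact ⟨α, w, hw, rfl⟩

theorem covered_of_basis {ι : Type*} [Fintype ι] {r : ℕ} (hcard : Fintype.card ι = r)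
    (y : ℤ → ι → SurfaceGroup (g + 1) p) (hs : ∀ n i, y n i ∈ simpleElements (g + 1) p)
    (hgen : ∀ n, Subgroup.closure (Set.range (y n)) ⊔ commutator (SurfaceGroup (g + 1) p) = ⊤)
    (hprod : ∀ n, ∃ w ∈ YY g p, (∏ i, ab (y n i)) = ab (gen (.a 0)) ^ (n + 1) * w) :
    Covered (g + 1) p (r + 1) := by
  intro c y0
  obtain ⟨α, w, hw, hv⟩ := exists_decomp (ab y0)
  obtain ⟨w', hw', hP⟩ := hprod (α - 2)
  have hPP : PP (w * w'⁻¹) := PP_all ((YY g p).mul_mem hw ((YY g p).inv_mem hw'))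
  obtain ⟨s, hs1, hs2⟩ := hPP
  let e : Fin r ≃ ι := (Fintype.equivFinOfCardEq hcard).symm
  set x : Fin r → SurfaceGroup (g + 1) p := fun i => y (α - 2) (e i) with hx
  have hxgen : Subgroup.closure (Set.range x) ⊔ commutator _ = ⊤ := by
    have : Set.range x = Set.range (y (α - 2)) := by
      rw [hx]
      exact e.surjective.range_comp (y (α - 2))
    rw [this, hgen]
  have hxprod : ab (List.ofFn x).prod = ∏ i, ab (y (α - 2) i) := by
    rw [ab, map_list_prod, List.map_ofFn, List.prod_ofFn]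
    exact Equiv.prod_comp e fun i => ab (y (α - 2) i)
  have h1 : ((List.ofFn x).prod)⁻¹ * (s⁻¹ * y0) ∈ lcs (SurfaceGroup (g + 1) p) 1 := by
    refine ab_eq_one ?_
    have e1 : ab (((List.ofFn x).prod)⁻¹ * (s⁻¹ * y0)) =
        (ab (List.ofFn x).prod)⁻¹ * ((ab s)⁻¹ * ab y0) := by
      simp only [ab, map_mul, map_inv]
    rw [e1, hxprod, hP, hs2, hv]
    have e2 : α - 2 + 1 = α + -1 := by ring
    rw [e2, zpow_add, zpow_neg_one]
    generalize (ab (gen (.a 0)) : Abelianization (SurfaceGroup (g + 1) p)) = A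
    generalize A ^ α = B
    calc (B * A⁻¹ * w')⁻¹ * ((A * (w * w'⁻¹))⁻¹ * (B * w))
        = (B * B⁻¹) * (A * A⁻¹) * (w * w⁻¹) * (w' * w'⁻¹) := by
          simp only [mul_inv_rev, inv_inv, mul_assoc, mul_comm, mul_left_comm]
      _ = 1 := by simp
  obtain ⟨h, hh⟩ := cover_coset x hxgen (s⁻¹ * y0) h1 c
  refine ⟨Fin.cons s fun i => h i * x i * (h i)⁻¹, ?_, ?_⟩
  · intro i
    left
    refine Fin.cases ?_ (fun i => ?_) i
    · exact hs1
    · rw [Fin.cons_succ]
      exact simple_conj _ (hs _ _)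
  · rw [List.ofFn_succ, List.prod_cons]
    simp only [Fin.cons_zero, Fin.cons_succ]
    have h2 := Subgroup.inv_mem _ (lcs_antitone (Nat.le_succ c) hh)
    have e3 : ((List.ofFn fun i => h i * x i * (h i)⁻¹).prod⁻¹ * (s⁻¹ * y0))⁻¹ =
        y0⁻¹ * (s * (List.ofFn fun i => h i * x i * (h i)⁻¹).prod) := by group
    rwa [e3] at h2

/-- The family of simple elements. -/
def fam {q : ℕ} (cj : Fin q → Fin p) (n : ℤ) : Ix (g + 1) q → SurfaceGroup (g + 1) p
  | .inl i => gen (.a i)
  | .inr (.inl i) => if i = 0 then gen (.b 0) * gen (.a 0) ^ n else gen (.b i)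
  | .inr (.inr j) => gen (.c (cj j))

theorem simple_b0a0 (n : ℤ) :
    (gen (.b 0) * gen (.a 0) ^ n : SurfaceGroup (g + 1) p) ∈ simpleElements (g + 1) p := by
  have hD := goodDA (g := g + 1) (p := p) 0
  have h1 := simple_map (hD.geometric (fun j => by simp [dataDA]) n) (simple_b (p := p) 0)
  rw [hD.aut_gen] at h1
  convert h1 using 1
  unfold TwData.f
  simp [dataDA]

theorem fam_simple {q : ℕ} (cj : Fin q → Fin p) (n : ℤ) (i : Ix (g + 1) q) :
    fam cj n i ∈ simpleElements (g + 1) p := by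
  rcases i with i | i | j
  · exact simple_a i
  · simp only [fam]
    split_ifs
    · exact simple_b0a0 n
    · exact simple_b i
  · exact simple_c _

theorem fam_prod {q : ℕ} (cj : Fin q → Fin p) (n : ℤ) :
    ∃ w ∈ YY g p, (∏ i, ab (fam cj n i)) = ab (gen (.a 0)) ^ (n + 1) * w := by
  rw [Fintype.prod_sum_type, Fintype.prod_sum_type]
  simp only [fam]
  rw [Fin.prod_univ_succ, Fin.prod_univ_succ]
  simp only [if_pos, Fin.succ_ne_zero, if_false]
  have e1 : ab (gen (.b 0) * gen (.a 0) ^ n : SurfaceGroup (g + 1) p) =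
      ab (gen (.b 0)) * ab (gen (.a 0)) ^ n := by simp only [ab, map_mul, map_zpow]
  rw [e1]
  refine ⟨(∏ i : Fin g, ab (gen (.a i.succ))) * (ab (gen (.b 0)) *
    ∏ i : Fin g, ab (gen (.b i.succ))) * ∏ j, ab (gen (.c (cj j))), ?_, ?_⟩
  · refine Subgroup.mul_mem _ (Subgroup.mul_mem _ ?_ (Subgroup.mul_mem _ ?_ ?_)) ?_
    · exact Subgroup.prod_mem _ fun i _ => gen_mem_YY (by simp)
    · exact gen_mem_YY (by simp)
    · exact Subgroup.prod_mem _ fun i _ => gen_mem_YY (by simp)
    · exact Subgroup.prod_mem _ fun i _ => gen_mem_YY (by simp)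
  · rw [zpow_add_one]
    simp only [mul_assoc, mul_comm, mul_left_comm]

theorem fam_mem {q : ℕ} (cj : Fin q → Fin p) (n : ℤ) :
    (∀ i, gen (.a i) ∈ Subgroup.closure (Set.range (fam (g := g) cj n)) ⊔ commutator _) ∧
    (∀ i, gen (.b i) ∈ Subgroup.closure (Set.range (fam (g := g) cj n)) ⊔ commutator _) ∧
    (∀ j, gen (.c (cj j)) ∈ Subgroup.closure (Set.range (fam (g := g) cj n)) ⊔ commutator _) := by
  have hm : ∀ i, fam (g := g) cj n i ∈
      Subgroup.closure (Set.range (fam (g := g) cj n)) ⊔ commutator _ := fun i =>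
    (le_sup_left : _ ≤ Subgroup.closure (Set.range (fam (g := g) cj n)) ⊔ commutator _)
      (Subgroup.subset_closure ⟨i, rfl⟩)
  have ha : ∀ i, gen (.a i) ∈
      Subgroup.closure (Set.range (fam (g := g) cj n)) ⊔ commutator _ := fun i => hm (.inl i)
  refine ⟨ha, fun i => ?_, fun j => hm (.inr (.inr j))⟩
  by_cases hi : i = 0
  · subst hi
    have h1 := Subgroup.mul_mem _ (hm (.inr (.inl 0)))
      (Subgroup.inv_mem _ (Subgroup.zpow_mem _ (ha 0) n))
    simp only [fam, if_pos, mul_inv_cancel_right] at h1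
    exact h1
  · have h1 := hm (.inr (.inl i))
    simp only [fam, hi, if_false] at h1
    exact h1

theorem surfaceWord_succ {G : Type*} [Group G] {g p : ℕ} (f : Gen g (p + 1) → G) :
    surfaceWord f = ((List.finRange g).map fun i => ⁅f (.a i), f (.b i)⁆).prod *
      (f (.c 0) * (List.map ((fun j => f (.c j)) ∘ Fin.succ) (List.finRange p)).prod) := by
  unfold surfaceWord
  rw [List.finRange_succ, List.map_cons, List.prod_cons, List.map_map]

/-- **Upper bound, punctured case.** -/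
theorem covered_punctured (g p : ℕ) : Covered (g + 1) (p + 1) (2 * (g + 1) + p + 1) := by
  refine covered_of_basis (ι := Ix (g + 1) p) (by simp [Ix]; ring) (fam Fin.succ)
    (fam_simple _) ?_ (fam_prod _)
  intro n
  obtain ⟨ha, hb, hc⟩ := fam_mem (g := g) (Fin.succ (n := p)) n
  set K := Subgroup.closure (Set.range (fam (g := g) (Fin.succ (n := p)) n)) ⊔
    commutator (SurfaceGroup (g + 1) (p + 1)) with hK
  have hcom : ∀ x y : SurfaceGroup (g + 1) (p + 1), ⁅x, y⁆ ∈ K := fun x y =>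
    (le_sup_right : _ ≤ K) (Subgroup.commutator_mem_commutator (Subgroup.mem_top x)
      (Subgroup.mem_top y))
  have h1 := surfaceWord_succ (gen : Gen (g + 1) (p + 1) → SurfaceGroup (g + 1) (p + 1))
  rw [surfaceWord_gen] at h1
  have hc0 : gen (.c 0) ∈ K := by
    set w1 : SurfaceGroup (g + 1) (p + 1) :=
      ((List.finRange (g + 1)).map fun i =>
        ⁅(gen (.a i) : SurfaceGroup (g + 1) (p + 1)), gen (.b i)⁆).prod
    set w2 : SurfaceGroup (g + 1) (p + 1) :=
      (List.map ((fun j : Fin (p + 1) => (gen (Gen.c j) : SurfaceGroup (g + 1) (p + 1))) ∘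
        Fin.succ) (List.finRange p)).prod
    have e1 : w1 ∈ K := by
      refine K.list_prod_mem ?_
      intro x hx
      obtain ⟨i, _, rfl⟩ := List.mem_map.1 hx
      exact hcom _ _
    have e2 : w2 ∈ K := by
      refine K.list_prod_mem ?_
      intro x hx
      obtain ⟨j, _, rfl⟩ := List.mem_map.1 hx
      exact hc j
    have e3 : gen (.c 0) = w1⁻¹ * w2⁻¹ := by
      have e4 : gen (.c 0) = w1⁻¹ * (w1 * (gen (.c 0) * w2)) * w2⁻¹ := by group
      rw [e4, ← h1, mul_one]
    rw [e3]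
    exact K.mul_mem (K.inv_mem e1) (K.inv_mem e2)
  rw [eq_top_iff, ← closure_range_gen, Subgroup.closure_le]
  rintro _ ⟨x, rfl⟩
  rcases x with i | i | j
  · exact ha i
  · exact hb i
  · refine Fin.cases hc0 (fun j => hc j) j

/-- **Upper bound, closed case.** -/
theorem covered_closed (g : ℕ) : Covered (g + 1) 0 (2 * (g + 1) + 1) := by
  refine covered_of_basis (ι := Ix (g + 1) 0) (by simp [Ix]; ring) (fam Fin.elim0)
    (fam_simple _) ?_ (fam_prod _)
  intro n
  obtain ⟨ha, hb, hc⟩ := fam_mem (g := g) (Fin.elim0 : Fin 0 → Fin 0) n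
  rw [eq_top_iff, ← closure_range_gen, Subgroup.closure_le]
  rintro _ ⟨x, rfl⟩
  rcases x with i | i | j
  · exact ha i
  · exact hb i
  · exact j.elim0

end

end Pool.Agent.H344.SC
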