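import Mathlib
import Pool.Agent.H344.SC.Analysis

/-!
# Lower bound: products of `r` simple elements do not cover all nilpotent quotients
-/

namespace Pool.Agent.H344.SC

open Finset

/-- Logarithm of the order of a lower central quotient. -/
noncomputable def nn (G : Type*) [Group G] (i : ℕ) : ℝ := Real.log ((lcs G i).index : ℝ)

section

variable {G : Type*} [Group G] [Finite G]

theorem index_pos (i : ℕ) : (0 : ℝ) < ((lcs G i).index : ℝ) := by
  have : (lcs G i).index ≠ 0 := Subgroup.index_ne_zero_of_finite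
  positivity

theorem nn_nonneg (i : ℕ) : 0 ≤ nn G i := Real.log_natCast_nonneg _

theorem log_relIndex (i : ℕ) :
    Real.log ((lcs G (i + 1)).relIndex (lcs G i) : ℝ) = nn G (i + 1) - nn G i := by
  have h := Subgroup.relIndex_mul_index (lcs_antitone (G := G) (Nat.le_succ i))
  have h1 : ((lcs G (i + 1)).relIndex (lcs G i) : ℝ) * ((lcs G i).index : ℝ) =
      ((lcs G (i + 1)).index : ℝ) := by exact_mod_cast h
  have h2 : ((lcs G (i + 1)).relIndex (lcs G i) : ℝ) ≠ 0 := by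
    have := relIndex_ne_zero' (lcs G (i + 1)) (lcs G i)
    exact_mod_cast this
  unfold nn
  rw [← h1, Real.log_mul h2 (index_pos i).ne']
  ring

theorem log_growth {u C : ℕ} (hC : 1 ≤ C) {μ : ℝ} (hμ : 0 < μ) (hu : μ ^ (C - 1) ≤ u) {x : ℝ}
    (hx0 : 0 < x) (hx1 : x < 1)
    (h : (u : ℝ) * x ^ C ≤ ∏ i ∈ range (C - 1),
      (((lcs G (i + 1)).relIndex (lcs G i) : ℕ) : ℝ) ^ theta (x ^ (i + 1))) :
    ((C : ℝ) - 1) * Real.log μ + C * Real.log x ≤
      (∑ i ∈ range (C - 1), x ^ (i + 1) * nn G (i + 1)) / ((1 - x) * Real.log 2) := by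
  have hpos : 0 < μ ^ (C - 1) * x ^ C := by positivity
  have h1 : μ ^ (C - 1) * x ^ C ≤ ∏ i ∈ range (C - 1),
      (((lcs G (i + 1)).relIndex (lcs G i) : ℕ) : ℝ) ^ theta (x ^ (i + 1)) := by
    refine le_trans ?_ h
    gcongr
  have h2 := Real.log_le_log hpos h1
  have hne : ∀ i, (((lcs G (i + 1)).relIndex (lcs G i) : ℕ) : ℝ) ≠ 0 := by
    intro i
    have := relIndex_ne_zero' (lcs G (i + 1)) (lcs G i)
    exact_mod_cast this
  have hp : ∀ i, (0 : ℝ) < (((lcs G (i + 1)).relIndex (lcs G i) : ℕ) : ℝ) := fun i =>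
    lt_of_le_of_ne (Nat.cast_nonneg _) (hne i).symm
  rw [Real.log_mul (by positivity) (by positivity), Real.log_pow, Real.log_pow,
    Real.log_prod (fun i _ => (Real.rpow_pos_of_pos (hp i) _).ne')] at h2
  have h3 : ∀ i ∈ range (C - 1), Real.log ((((lcs G (i + 1)).relIndex (lcs G i) : ℕ) : ℝ) ^
      theta (x ^ (i + 1))) ≤ x ^ (i + 1) * nn G (i + 1) / ((1 - x) * Real.log 2) := by
    intro i _
    rw [Real.log_rpow (hp i)]
    have h4 : Real.log (((lcs G (i + 1)).relIndex (lcs G i) : ℕ) : ℝ) ≤ nn G (i + 1) := by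
      rw [log_relIndex]
      have := nn_nonneg (G := G) i
      linarith
    have h5 : 0 ≤ Real.log (((lcs G (i + 1)).relIndex (lcs G i) : ℕ) : ℝ) :=
      Real.log_natCast_nonneg _
    have h6 := theta_le hx0 hx1 i
    have h7 : 0 < (1 - x) * Real.log 2 :=
      mul_pos (by linarith) (Real.log_pos (by norm_num))
    calc theta (x ^ (i + 1)) * Real.log (((lcs G (i + 1)).relIndex (lcs G i) : ℕ) : ℝ)
        ≤ x ^ (i + 1) / ((1 - x) * Real.log 2) *
          Real.log (((lcs G (i + 1)).relIndex (lcs G i) : ℕ) : ℝ) := by gcongr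
      _ ≤ x ^ (i + 1) / ((1 - x) * Real.log 2) * nn G (i + 1) := by
          have : 0 ≤ x ^ (i + 1) / ((1 - x) * Real.log 2) := by positivity
          gcongr
      _ = _ := by ring
  have h4 := sum_le_sum h3
  rw [← sum_div] at h4
  have h5 : ((C - 1 : ℕ) : ℝ) = (C : ℝ) - 1 := by
    rw [Nat.cast_sub hC]; simp
  rw [h5] at h2
  exact h2.trans h4

theorem nn_one_le {R m : ℕ} (h1 : (lcs G 1).index ≤ (2 ^ m) ^ R) :
    nn G 1 ≤ R * Real.log 2 * m := by
  unfold nn
  have h : ((lcs G 1).index : ℝ) ≤ (2 ^ m) ^ R := by exact_mod_cast h1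
  calc Real.log ((lcs G 1).index : ℝ) ≤ Real.log ((2 ^ m) ^ R) :=
        Real.log_le_log (index_pos 1) h
    _ = R * Real.log 2 * m := by
      rw [Real.log_pow, Real.log_pow]; ring

theorem nn_two_le {R : ℕ} (h2 : (lcs G 2).index ≤ (lcs G 1).index ^ (R + 1)) :
    nn G 2 ≤ (R + 1) * nn G 1 := by
  unfold nn
  have h : ((lcs G 2).index : ℝ) ≤ ((lcs G 1).index : ℝ) ^ (R + 1) := by exact_mod_cast h2
  calc Real.log ((lcs G 2).index : ℝ) ≤ Real.log (((lcs G 1).index : ℝ) ^ (R + 1)) :=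
        Real.log_le_log (index_pos 2) h
    _ = _ := by rw [Real.log_pow]; push_cast; ring

/-- The recursion from the counting inequalities. -/
theorem log_rec {r D Ξ d : ℕ} {ε : ℕ} (hD : 1 ≤ D)
    (h1 : Nat.card (lcs (G ⧸ lcs G (d + 2)) 1) ^ r * Nat.card (lcs (G ⧸ lcs G (d + 2)) (d + 1)) ≤
      Ξ ^ (r * r))
    (h2 : Ξ * (lcs G (d + 3)).index ≤
      D * ((lcs G (d + 2)).index ^ r * (lcs G 2).index * (lcs G (d + 1)).index ^ ε)) :
    (r : ℝ) ^ 2 * nn G (d + 3) ≤ ((r : ℝ) ^ 3 - r - 1) * nn G (d + 2) +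
      ((r : ℝ) ^ 2 * ε + 1) * nn G (d + 1) +
      (r * nn G 1 + (r : ℝ) ^ 2 * nn G 2 + (r : ℝ) ^ 2 * Real.log D) := by
  have c1 : Nat.card (lcs (G ⧸ lcs G (d + 2)) 1) * (lcs G 1).index = (lcs G (d + 2)).index :=
    card_lcs_quot (by omega)
  have c2 : Nat.card (lcs (G ⧸ lcs G (d + 2)) (d + 1)) * (lcs G (d + 1)).index =
      (lcs G (d + 2)).index := card_lcs_quot (by omega)
  set N1 := Nat.card (lcs (G ⧸ lcs G (d + 2)) 1)
  set N2 := Nat.card (lcs (G ⧸ lcs G (d + 2)) (d + 1))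
  have p1 : (0 : ℝ) < N1 := by exact_mod_cast Nat.card_pos
  have p2 : (0 : ℝ) < N2 := by exact_mod_cast Nat.card_pos
  have l1 : Real.log N1 = nn G (d + 2) - nn G 1 := by
    have : (N1 : ℝ) * ((lcs G 1).index : ℝ) = ((lcs G (d + 2)).index : ℝ) := by exact_mod_cast c1
    unfold nn
    rw [← this, Real.log_mul p1.ne' (index_pos 1).ne']; ring
  have l2 : Real.log N2 = nn G (d + 2) - nn G (d + 1) := by
    have : (N2 : ℝ) * ((lcs G (d + 1)).index : ℝ) = ((lcs G (d + 2)).index : ℝ) := by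
      exact_mod_cast c2
    unfold nn
    rw [← this, Real.log_mul p2.ne' (index_pos _).ne']; ring
  have h1' : (N1 : ℝ) ^ r * N2 ≤ (Ξ : ℝ) ^ (r * r) := by exact_mod_cast h1
  have h3 := Real.log_le_log (by positivity) h1'
  rw [Real.log_mul (by positivity) p2.ne', Real.log_pow, Real.log_pow, l1, l2] at h3
  have hΞ : (0 : ℝ) < Ξ ∨ r = 0 := by
    by_cases hr : r = 0
    · exact Or.inr hr
    · left
      rcases Nat.eq_zero_or_pos Ξ with h0 | h0
      · exfalso
        rw [h0, Nat.cast_zero, zero_pow (by positivity)] at h1'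
        have : (0 : ℝ) < (N1 : ℝ) ^ r * N2 := by positivity
        linarith
      · exact_mod_cast h0
  rcases hΞ with hΞ | hr
  · have h2' : (Ξ : ℝ) * ((lcs G (d + 3)).index : ℝ) ≤
      D * (((lcs G (d + 2)).index : ℝ) ^ r * ((lcs G 2).index : ℝ) *
        ((lcs G (d + 1)).index : ℝ) ^ ε) := by exact_mod_cast h2
    have hD' : (0 : ℝ) < D := by exact_mod_cast hD
    have q3 := index_pos (G := G) (d + 3)
    have q2 := index_pos (G := G) (d + 2)
    have q1 := index_pos (G := G) (d + 1)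
    have q0 := index_pos (G := G) 2
    have h4 := Real.log_le_log (by positivity) h2'
    rw [Real.log_mul hΞ.ne' q3.ne', Real.log_mul hD'.ne' (by positivity),
      Real.log_mul (by positivity) (by positivity), Real.log_mul (by positivity) (by positivity),
      Real.log_pow, Real.log_pow] at h4
    change Real.log (Ξ : ℝ) + nn G (d + 3) ≤ Real.log D + (r * nn G (d + 2) + nn G 2 +
      ε * nn G (d + 1)) at h4
    have h5 : Real.log (Ξ : ℝ) ≤ Real.log D + (r * nn G (d + 2) + nn G 2 +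
      ε * nn G (d + 1)) - nn G (d + 3) := by linarith
    have h6 := mul_le_mul_of_nonneg_left h5 (show (0 : ℝ) ≤ ((r * r : ℕ) : ℝ) by positivity)
    push_cast at h3 h6
    nlinarith [h3, h6]
  · subst hr
    simp only [Nat.cast_zero]
    have hm : nn G (d + 1) ≤ nn G (d + 2) := by
      have := Real.log_natCast_nonneg N2
      rw [l2] at this
      linarith
    norm_num at h3 ⊢
    linarith

end

theorem uu_one_pos {k : Type*} [Field k] {α : Type*} [Fintype α] (f : Module.End k (V k α))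
    (hf : ∀ v, f v - v ∈ mm (JJ f 0)) : 1 ≤ uu f 1 := by
  have := uu_step f 0 0 (fun v _ => hf v)
  rw [uu_zero] at this
  omega

/-- **Lower bound in the punctured case.** -/
theorem not_covered_punctured {g : ℕ} (hg : 1 ≤ g) (p : ℕ) : ¬ Covered g (p + 1) (2 * g + p) := by
  intro hcov
  set r := 2 * g + p with hr
  have hr2 : 2 ≤ r := by omega
  have hcardIx : Fintype.card (Ix g p) = r := by
    simp only [Ix, Fintype.card_sum, Fintype.card_fin]; omega
  choose G hG hfin ρ hρ hi1 hi2 hJ using fun m : {m : ℕ // 1 ≤ m} => exists_group g (p + 1) m.1 m.2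
  -- make it total
  let M : ℕ → {m : ℕ // 1 ≤ m} := fun m => if h : 1 ≤ m then ⟨m, h⟩ else ⟨1, le_rfl⟩
  have hM : ∀ m, 1 ≤ m → (M m).1 = m := fun m h => by simp only [M, dif_pos h]
  set D := Nat.card (Data g (p + 1)) with hD
  have hD1 : 1 ≤ D := by
    have : Nonempty (Data g (p + 1)) := ⟨(.sep ∅ ∅, true, id, fun _ => true)⟩
    exact Nat.card_pos
  set R := 2 * g + (p + 1) with hR
  have hlog2 : 0 < Real.log 2 := Real.log_pos (by norm_num)
  have hlogD : 0 ≤ Real.log (D : ℝ) := Real.log_natCast_nonneg _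
  set k0 : ℝ := (r + (r : ℝ) ^ 2 * (R + 1)) * (R * Real.log 2) + (r : ℝ) ^ 2 * Real.log D with hk0
  have hrR : (2 : ℝ) ≤ r := by exact_mod_cast hr2
  have hn1 : ∀ m, 1 ≤ m → nn (G (M m)) 1 ≤ R * Real.log 2 * m := by
    intro m hm
    have h := hi1 (M m)
    rw [hM m hm] at h
    exact nn_one_le h
  have hn2 : ∀ m, 1 ≤ m → nn (G (M m)) 2 ≤ (R + 1) * (R * Real.log 2 * m) := by
    intro m hm
    have h := nn_two_le (hi2 (M m))
    refine h.trans ?_
    gcongr
    exact hn1 m hm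
  refine analytic (A := (r : ℝ) ^ 2) (α := (r : ℝ) ^ 3 - r - 1) (β := (r : ℝ) ^ 2 + 1)
    (μ := r) (k0 := k0) (by linarith) ?_ (by positivity) ?_ (by positivity) (by positivity)
    (fun m => nn (G (M m))) (fun m i => nn_nonneg i) ?_ ?_ ?_ ?_
  · nlinarith [sq_nonneg ((r : ℝ) - 1)]
  · have : (r : ℝ) ^ 2 * (r : ℝ) ^ 2 - ((r : ℝ) ^ 3 - r - 1) * r - ((r : ℝ) ^ 2 + 1) = r - 1 := by
      ring
    rw [this]; linarith
  · intro m hm d
    have h1 := punctured_ineq (ρ (M m)) (hρ (M m)) (by omega) hcov d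
    have h2 := card_conf_le (ρ (M m)) (d + 1)
    rw [hcardIx] at h1 h2
    have h2' : Nat.card (Conf (ρ (M m)) (d + 2)) * (lcs (G (M m)) (d + 3)).index ≤
        D * ((lcs (G (M m)) (d + 2)).index ^ r * (lcs (G (M m)) 2).index *
          (lcs (G (M m)) (d + 1)).index ^ 1) := by
      rw [pow_one]; exact h2
    have h3 := log_rec hD1 h1 h2'
    rw [Nat.cast_one, mul_one] at h3
    refine h3.trans ?_
    have hm' : (1 : ℝ) ≤ m := by exact_mod_cast hm
    have e1 : (r : ℝ) * nn (G (M m)) 1 ≤ r * (R * Real.log 2 * m) := by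
      gcongr; exact hn1 m hm
    have e2 : (r : ℝ) ^ 2 * nn (G (M m)) 2 ≤ (r : ℝ) ^ 2 * ((R + 1) * (R * Real.log 2 * m)) := by
      gcongr; exact hn2 m hm
    have e3 : (r : ℝ) ^ 2 * Real.log D ≤ (r : ℝ) ^ 2 * Real.log D * m := by
      have : 0 ≤ (r : ℝ) ^ 2 * Real.log D := by positivity
      nlinarith
    have e4 : k0 * m = r * (R * Real.log 2 * m) + (r : ℝ) ^ 2 * ((R + 1) * (R * Real.log 2 * m)) +
        (r : ℝ) ^ 2 * Real.log D * m := by rw [hk0]; ring
    rw [e4]
    linarith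
  · intro m hm
    refine (hn1 m hm).trans ?_
    have hm' : (1 : ℝ) ≤ m := by exact_mod_cast hm
    gcongr
    rw [hk0]
    have e1 : 1 * (R * Real.log 2) ≤ (r + (r : ℝ) ^ 2 * (R + 1)) * (R * Real.log 2) := by
      gcongr
      have : 0 ≤ (r : ℝ) ^ 2 * (R + 1) := by positivity
      linarith
    have e2 : 0 ≤ (r : ℝ) ^ 2 * Real.log D := by positivity
    linarith
  · intro m hm
    refine (hn2 m hm).trans ?_
    have hm' : (1 : ℝ) ≤ m := by exact_mod_cast hm
    have e0 : ((R : ℝ) + 1) * (R * Real.log 2 * m) = ((R + 1) * (R * Real.log 2)) * m := by ring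
    rw [e0]
    gcongr
    rw [hk0]
    have e1 : (R + 1 : ℝ) * (R * Real.log 2) ≤ (r + (r : ℝ) ^ 2 * (R + 1)) * (R * Real.log 2) := by
      have h5 : (1 : ℝ) ≤ (r : ℝ) ^ 2 := by nlinarith
      have h6 : (0 : ℝ) ≤ (R : ℝ) + 1 := by positivity
      have h7 := mul_le_mul_of_nonneg_right h5 h6
      exact mul_le_mul_of_nonneg_right (by linarith) (by positivity)
    have e2 : 0 ≤ (r : ℝ) ^ 2 * Real.log D := by positivity
    linarith
  · intro m hm x hx0 hx1
    have h := hJ (M m) x hx0 hx1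
    rw [hM m hm] at h
    have hC2 : 2 ≤ 2 ^ m := by
      calc 2 = 2 ^ 1 := rfl
        _ ≤ 2 ^ m := Nat.pow_le_pow_right (by norm_num) hm
    have hu : ∀ n : ℕ, (r : ℝ) ^ n ≤ uu (opWord (ZMod 2) g (p + 1) (2 ^ m)) (n + 1) := by
      intro n
      induction n with
      | zero =>
        have h1 := uu_punctured (k := ZMod 2) (g := g) (p := p + 1) hC2 0
        rw [uu_zero] at h1
        have h2 : 1 ≤ uu (opWord (ZMod 2) g (p + 1) (2 ^ m)) (0 + 1) := by omega
        simpa using h2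
      | succ n ih =>
        have h1 := uu_punctured (k := ZMod 2) (g := g) (p := p + 1) hC2 (n + 1)
        have h2 : r * uu (opWord (ZMod 2) g (p + 1) (2 ^ m)) (n + 1) ≤
            uu (opWord (ZMod 2) g (p + 1) (2 ^ m)) (n + 1 + 1) := by
          have e : (2 * g + (p + 1)) * uu (opWord (ZMod 2) g (p + 1) (2 ^ m)) (n + 1) =
            r * uu (opWord (ZMod 2) g (p + 1) (2 ^ m)) (n + 1) +
              uu (opWord (ZMod 2) g (p + 1) (2 ^ m)) (n + 1) := by rw [hr]; ring
          omega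
        have h3 : (r : ℝ) * uu (opWord (ZMod 2) g (p + 1) (2 ^ m)) (n + 1) ≤
            uu (opWord (ZMod 2) g (p + 1) (2 ^ m)) (n + 1 + 1) := by exact_mod_cast h2
        calc (r : ℝ) ^ (n + 1) = r * (r : ℝ) ^ n := pow_succ' _ _
          _ ≤ r * uu (opWord (ZMod 2) g (p + 1) (2 ^ m)) (n + 1) := by gcongr
          _ ≤ _ := h3
    have hu' := hu (2 ^ m - 1)
    rw [Nat.sub_add_cancel Nat.one_le_two_pow] at hu'
    have h5 := log_growth (G := G (M m)) (C := 2 ^ m) Nat.one_le_two_pow (μ := r) (by linarith)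
      hu' hx0 hx1 h
    push_cast at h5
    exact h5

/-- **Lower bound in the closed case.** -/
theorem not_covered_closed {g : ℕ} (hg : 2 ≤ g) : ¬ Covered g 0 (2 * g) := by
  intro hcov
  set r := 2 * g with hr
  have hr4 : 4 ≤ r := by omega
  have hcardIx : Fintype.card (Ix g 0) = r := by
    simp only [Ix, Fintype.card_sum, Fintype.card_fin]; omega
  choose G hG hfin ρ hρ hi1 hi2 hJ using fun m : {m : ℕ // 1 ≤ m} => exists_group g 0 m.1 m.2
  -- make it total
  let M : ℕ → {m : ℕ // 1 ≤ m} := fun m => if h : 1 ≤ m then ⟨m, h⟩ else ⟨1, le_rfl⟩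
  have hM : ∀ m, 1 ≤ m → (M m).1 = m := fun m h => by simp only [M, dif_pos h]
  set D := Nat.card (Curve g 0 × Bool) with hD
  have hD1 : 1 ≤ D := by
    have : Nonempty (Curve g 0 × Bool) := ⟨(.sep ∅ ∅, true)⟩
    exact Nat.card_pos
  set R := 2 * g + 0 with hR
  have hlog2 : 0 < Real.log 2 := Real.log_pos (by norm_num)
  have hlogD : 0 ≤ Real.log (D : ℝ) := Real.log_natCast_nonneg _
  set k0 : ℝ := (r + (r : ℝ) ^ 2 * (R + 1)) * (R * Real.log 2) + (r : ℝ) ^ 2 * Real.log D with hk0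
  have hrR : (4 : ℝ) ≤ r := by exact_mod_cast hr4
  have hr0 : (0 : ℝ) < r := by linarith
  have hn1 : ∀ m, 1 ≤ m → nn (G (M m)) 1 ≤ R * Real.log 2 * m := by
    intro m hm
    have h := hi1 (M m)
    rw [hM m hm] at h
    exact nn_one_le h
  have hn2 : ∀ m, 1 ≤ m → nn (G (M m)) 2 ≤ (R + 1) * (R * Real.log 2 * m) := by
    intro m hm
    have h := nn_two_le (hi2 (M m))
    refine h.trans ?_
    gcongr
    exact hn1 m hm
  -- the growth rate
  set μ : ℝ := r - 1 / r - 1 / (2 * r ^ 2) with hμdef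
  have hinv : (1 : ℝ) / r ≤ 1 / 4 := by
    apply div_le_div_of_nonneg_left <;> linarith
  have hinv2 : (1 : ℝ) / (2 * r ^ 2) ≤ 1 / 4 := by
    apply div_le_div_of_nonneg_left (by norm_num) (by norm_num)
    nlinarith
  have hμ2 : 2 < μ := by rw [hμdef]; linarith
  have hμle : μ + 1 / μ ≤ r := by
    have hμ0 : 0 < μ := by linarith
    have h1 : 1 / μ ≤ 1 / r + 1 / (2 * r ^ 2) := by
      rw [div_le_iff₀ hμ0, hμdef]
      have e : (1 / (r : ℝ) + 1 / (2 * r ^ 2)) * (r - 1 / r - 1 / (2 * r ^ 2)) =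
        1 + (1 / (2 * r ^ 3)) * (r ^ 2 / 1 - 2 * r - 2 - 1 / (2 * r)) := by
        field_simp
        ring
      rw [e]
      have h2 : 0 ≤ (r : ℝ) ^ 2 / 1 - 2 * r - 2 - 1 / (2 * r) := by
        have : (1 : ℝ) / (2 * r) ≤ 1 := by
          rw [div_le_one (by positivity)]; linarith
        nlinarith
      have h3 : (0 : ℝ) ≤ 1 / (2 * r ^ 3) := by positivity
      nlinarith [mul_nonneg h3 h2]
    rw [hμdef] at *
    linarith
  refine analytic (A := (r : ℝ) ^ 2) (α := (r : ℝ) ^ 3 - r - 1) (β := 1)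
    (μ := μ) (k0 := k0) (by linarith) ?_ (by positivity) ?_ (by positivity) (by positivity)
    (fun m => nn (G (M m))) (fun m i => nn_nonneg i) ?_ ?_ ?_ ?_
  · nlinarith [sq_nonneg ((r : ℝ) - 1)]
  · have e1 : (r : ℝ) ^ 2 * μ = (r : ℝ) ^ 3 - r - 1 / 2 := by
      rw [hμdef]; field_simp
    have : (r : ℝ) ^ 2 * μ ^ 2 - ((r : ℝ) ^ 3 - r - 1) * μ - 1 = μ / 2 - 1 := by
      have : (r : ℝ) ^ 2 * μ ^ 2 = ((r : ℝ) ^ 2 * μ) * μ := by ring
      rw [this, e1]; ring
    rw [this]; linarith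
  · intro m hm d
    have h1 := closed_ineq (ρ (M m)) (hρ (M m)) (by omega) hcov d
    have h2 := card_conf0_le (g := g) (G := G (M m)) (d + 1)
    rw [hcardIx] at h1 h2
    have h2' : Nat.card (Conf0 g (G (M m)) (d + 2)) * (lcs (G (M m)) (d + 3)).index ≤
        D * ((lcs (G (M m)) (d + 2)).index ^ r * (lcs (G (M m)) 2).index *
          (lcs (G (M m)) (d + 1)).index ^ 0) := by
      rw [pow_zero, mul_one]; exact h2
    have h3 := log_rec hD1 h1 h2'
    rw [Nat.cast_zero, mul_zero, zero_add] at h3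
    refine h3.trans ?_
    have hm' : (1 : ℝ) ≤ m := by exact_mod_cast hm
    have e1 : (r : ℝ) * nn (G (M m)) 1 ≤ r * (R * Real.log 2 * m) := by
      gcongr; exact hn1 m hm
    have e2 : (r : ℝ) ^ 2 * nn (G (M m)) 2 ≤ (r : ℝ) ^ 2 * ((R + 1) * (R * Real.log 2 * m)) := by
      gcongr; exact hn2 m hm
    have e3 : (r : ℝ) ^ 2 * Real.log D ≤ (r : ℝ) ^ 2 * Real.log D * m := by
      have : 0 ≤ (r : ℝ) ^ 2 * Real.log D := by positivity
      nlinarith
    have e4 : k0 * m = r * (R * Real.log 2 * m) + (r : ℝ) ^ 2 * ((R + 1) * (R * Real.log 2 * m)) +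
        (r : ℝ) ^ 2 * Real.log D * m := by rw [hk0]; ring
    rw [e4]
    linarith
  · intro m hm
    refine (hn1 m hm).trans ?_
    have hm' : (1 : ℝ) ≤ m := by exact_mod_cast hm
    gcongr
    rw [hk0]
    have e1 : 1 * (R * Real.log 2) ≤ (r + (r : ℝ) ^ 2 * (R + 1)) * (R * Real.log 2) := by
      gcongr
      have : 0 ≤ (r : ℝ) ^ 2 * (R + 1) := by positivity
      linarith
    have e2 : 0 ≤ (r : ℝ) ^ 2 * Real.log D := by positivity
    linarith
  · intro m hm
    refine (hn2 m hm).trans ?_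
    have hm' : (1 : ℝ) ≤ m := by exact_mod_cast hm
    have e0 : ((R : ℝ) + 1) * (R * Real.log 2 * m) = ((R + 1) * (R * Real.log 2)) * m := by ring
    rw [e0]
    gcongr
    rw [hk0]
    have e1 : (R + 1 : ℝ) * (R * Real.log 2) ≤ (r + (r : ℝ) ^ 2 * (R + 1)) * (R * Real.log 2) := by
      have h5 : (1 : ℝ) ≤ (r : ℝ) ^ 2 := by nlinarith
      have h6 : (0 : ℝ) ≤ (R : ℝ) + 1 := by positivity
      have h7 := mul_le_mul_of_nonneg_right h5 h6
      exact mul_le_mul_of_nonneg_right (by linarith) (by positivity)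
    have e2 : 0 ≤ (r : ℝ) ^ 2 * Real.log D := by positivity
    linarith
  · intro m hm x hx0 hx1
    have h := hJ (M m) x hx0 hx1
    rw [hM m hm] at h
    have hC2 : 2 ≤ 2 ^ m := by
      calc 2 = 2 ^ 1 := rfl
        _ ≤ 2 ^ m := Nat.pow_le_pow_right (by norm_num) hm
    have hμ0 : 0 < μ := by linarith
    set f := opWord (ZMod 2) g 0 (2 ^ m) with hf
    have hstep : ∀ n : ℕ, μ * uu f n ≤ uu f (n + 1) := by
      intro n
      induction n with
      | zero =>
        rw [uu_zero]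
        simp
      | succ n ih =>
        have h1 := uu_closed (k := ZMod 2) (g := g) hC2 n
        rw [← hf, ← hr] at h1
        have h2 : (1 : ℝ) + r * uu f (n + 1) ≤ uu f (n + 2) + uu f n := by exact_mod_cast h1
        have h3 : (uu f n : ℝ) ≤ 1 / μ * uu f (n + 1) := by
          rw [one_div, inv_mul_eq_div, le_div_iff₀ hμ0]
          linarith
        have h4 : (0 : ℝ) ≤ uu f (n + 1) := Nat.cast_nonneg _
        have h5 : (μ + 1 / μ) * uu f (n + 1) ≤ r * uu f (n + 1) := by gcongr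
        have h6 : (μ + 1 / μ) * uu f (n + 1) = μ * uu f (n + 1) + 1 / μ * uu f (n + 1) := by ring
        rw [h6] at h5
        linarith
    have hu : ∀ n : ℕ, μ ^ n ≤ uu f (n + 1) := by
      intro n
      induction n with
      | zero =>
        have h1 := uu_punctured (k := ZMod 2) (g := g) (p := 0) hC2 0
        rw [uu_zero] at h1
        have h2 : 1 ≤ uu (opWord (ZMod 2) g 0 (2 ^ m)) (0 + 1) := by omega
        simpa using h2
      | succ n ih =>
        calc μ ^ (n + 1) = μ * μ ^ n := pow_succ' _ _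
          _ ≤ μ * uu f (n + 1) := by gcongr
          _ ≤ _ := hstep (n + 1)
    have hu' := hu (2 ^ m - 1)
    rw [Nat.sub_add_cancel Nat.one_le_two_pow] at hu'
    have h5 := log_growth (G := G (M m)) (C := 2 ^ m) Nat.one_le_two_pow (μ := μ) hμ0
      hu' hx0 hx1 h
    push_cast at h5
    exact h5

end Pool.Agent.H344.SC
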