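import Mathlib
import Pool.Agent.H344.SC.Covered
import Pool.Agent.H344.SC.NotCovered

/-!
# Diameters
-/

namespace Pool.Agent.H344.SC

open scoped commutatorElement

section words

variable {G : Type*} [Group G]

theorem wordLength_le {T : Set G} {x : G} {l : List G} (h : ∀ y ∈ l, y ∈ T ∨ y⁻¹ ∈ T)
    (hl : l.prod = x) : wordLength T x ≤ l.length :=
  iInf₂_le l ⟨h, hl⟩

theorem exists_of_wordLength_le {T : Set G} {x : G} {k : ℕ} (h : wordLength T x ≤ k) :
    ∃ l : List G, (∀ y ∈ l, y ∈ T ∨ y⁻¹ ∈ T) ∧ l.prod = x ∧ l.length ≤ k := by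
  have h1 : wordLength T x < ((k + 1 : ℕ) : ℕ∞) :=
    lt_of_le_of_lt h (by exact_mod_cast Nat.lt_succ_self k)
  unfold wordLength at h1
  rw [iInf_lt_iff] at h1
  obtain ⟨l, h2⟩ := h1
  rw [iInf_lt_iff] at h2
  obtain ⟨⟨h3, h4⟩, h5⟩ := h2
  refine ⟨l, h3, h4, ?_⟩
  have h6 : l.length < k + 1 := by exact_mod_cast h5
  omega

end words

variable {g p : ℕ}

/-- Every element of the `n`-th quotient is a product of `r` simple elements or inverses. -/
def CovN (g p n r : ℕ) : Prop := ∀ y : SurfaceGroup g p, ∃ l : Fin r → SurfaceGroup g p,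
  (∀ i, l i ∈ simpleElements g p ∨ (l i)⁻¹ ∈ simpleElements g p) ∧
    y⁻¹ * (List.ofFn l).prod ∈ lcs (SurfaceGroup g p) n

theorem CovN.anti {n m r : ℕ} (h : n ≤ m) (hm : CovN g p m r) : CovN g p n r := by
  intro y
  obtain ⟨l, h1, h2⟩ := hm y
  exact ⟨l, h1, lcs_antitone h h2⟩

theorem curveDiameter_le_of_covN {n r : ℕ} (h : CovN g p n r) : curveDiameter g p n ≤ r := by
  unfold curveDiameter diameter
  refine iSup_le fun x => ?_
  obtain ⟨y, rfl⟩ := QuotientGroup.mk_surjective x
  obtain ⟨l, h1, h2⟩ := h y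
  have h3 := wordLength_le (G := SurfaceGroup g p ⧸ lcs (SurfaceGroup g p) n)
    (T := (QuotientGroup.mk : SurfaceGroup g p → _) '' simpleElements g p)
    (x := QuotientGroup.mk y)
    (l := List.ofFn fun i => (QuotientGroup.mk (l i) :
      SurfaceGroup g p ⧸ lcs (SurfaceGroup g p) n)) ?_ ?_
  · rw [List.length_ofFn] at h3
    exact h3
  · intro z hz
    rw [List.mem_ofFn] at hz
    obtain ⟨i, rfl⟩ := hz
    rcases h1 i with h | h
    · exact Or.inl ⟨_, h, rfl⟩
    · exact Or.inr ⟨_, h, rfl⟩
  · have h4 : (QuotientGroup.mk y : SurfaceGroup g p ⧸ lcs (SurfaceGroup g p) n) =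
        QuotientGroup.mk (List.ofFn l).prod := QuotientGroup.eq.2 h2
    rw [h4]
    have := map_list_prod (QuotientGroup.mk' (lcs (SurfaceGroup g p) n)) (List.ofFn l)
    rw [List.map_ofFn] at this
    exact this.symm

theorem covN_of_curveDiameter_le {n r : ℕ} (h : curveDiameter g p n ≤ r) : CovN g p n r := by
  intro y
  have h1 : wordLength ((QuotientGroup.mk : SurfaceGroup g p →
      SurfaceGroup g p ⧸ lcs (SurfaceGroup g p) n) '' simpleElements g p)
      (QuotientGroup.mk y) ≤ r := (le_iSup _ _).trans h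
  obtain ⟨l, h2, h3, h4⟩ := exists_of_wordLength_le h1
  have h5 : ∀ z : SurfaceGroup g p ⧸ lcs (SurfaceGroup g p) n, ∃ s : SurfaceGroup g p,
      (z ∈ l → (s ∈ simpleElements g p ∨ s⁻¹ ∈ simpleElements g p)) ∧
        (QuotientGroup.mk s : SurfaceGroup g p ⧸ lcs (SurfaceGroup g p) n) = z := by
    intro z
    by_cases hz : z ∈ l
    · rcases h2 z hz with h | h
      · obtain ⟨s, hs, rfl⟩ := h
        exact ⟨s, fun _ => Or.inl hs, rfl⟩
      · obtain ⟨s, hs, hsz⟩ := h
        refine ⟨s⁻¹, fun _ => Or.inr (by rwa [inv_inv]), ?_⟩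
        rw [QuotientGroup.mk_inv, hsz, inv_inv]
    · obtain ⟨s, rfl⟩ := QuotientGroup.mk_surjective z
      exact ⟨s, fun h => absurd h hz, rfl⟩
  choose s hs1 hs2 using h5
  -- pad the list
  let L : List (SurfaceGroup g p) := l.map s ++ List.replicate (r - l.length) 1
  have hL : L.length = r := by
    simp only [L, List.length_append, List.length_map, List.length_replicate]
    omega
  have hLs : ∀ x ∈ L, x ∈ simpleElements g p ∨ x⁻¹ ∈ simpleElements g p := by
    intro x hx
    rw [List.mem_append] at hx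
    rcases hx with hx | hx
    · obtain ⟨z, hz, rfl⟩ := List.mem_map.1 hx
      exact hs1 z hz
    · rw [List.eq_of_mem_replicate hx]
      exact Or.inl simple_one
  refine ⟨fun i => L.get (i.cast hL.symm), fun i => hLs _ (List.get_mem _ _), ?_⟩
  have h6 : List.ofFn (fun i : Fin r => L.get (i.cast hL.symm)) = L := by
    apply List.ext_get
    · simp [hL]
    · intro i h1 h2
      simp
  rw [h6]
  refine QuotientGroup.eq.1 ?_
  rw [← h3]
  have h7 : QuotientGroup.mk' (lcs (SurfaceGroup g p) n) L.prod = l.prod := by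
    rw [map_list_prod]
    simp only [L, List.map_append, List.map_map, List.map_replicate, List.prod_append,
      List.prod_replicate]
    rw [map_one, one_pow, mul_one]
    congr 1
    conv_rhs => rw [← List.map_id l]
    exact List.map_congr_left fun z _ => hs2 z
  exact h7.symm

theorem main_of {r : ℕ} (h1 : Covered g p (r + 1)) (h2 : ¬ Covered g p r) :
    (∀ n, curveDiameter g p n ≤ (r + 1 : ℕ)) ∧
      ∃ n₀, ∀ n, n₀ ≤ n → curveDiameter g p n = (r + 1 : ℕ) := by
  refine ⟨fun n => curveDiameter_le_of_covN (h1 n), ?_⟩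
  unfold Covered at h2
  push Not at h2
  obtain ⟨c, y, hy⟩ := h2
  refine ⟨c, fun n hn => le_antisymm (curveDiameter_le_of_covN (h1 n)) ?_⟩
  have h3 : ¬ curveDiameter g p n ≤ r := by
    intro h
    obtain ⟨l, hl1, hl2⟩ := (covN_of_curveDiameter_le h).anti hn y
    exact hy l hl1 hl2
  rw [not_le] at h3
  have := Order.add_one_le_of_lt h3
  exact_mod_cast this

/-! ### The torus -/

theorem torus_comm : commutator (SurfaceGroup 1 0) = ⊥ := by
  have hrel : ⁅(gen (.a 0) : SurfaceGroup 1 0), (gen (.b 0) : SurfaceGroup 1 0)⁆ = 1 := by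
    have h := surfaceWord_gen (g := 1) (p := 0)
    simpa [surfaceWord, List.finRange_succ] using h
  have hc : ∀ x y : Gen 1 0, (gen x : SurfaceGroup 1 0) * gen y = gen y * gen x := by
    have h1 := commutatorElement_eq_one_iff_mul_comm.1 hrel
    intro x y
    rcases x with i | i | j
    · rcases y with i' | i' | j'
      · rw [Subsingleton.elim i i']
      · rw [Subsingleton.elim i 0, Subsingleton.elim i' 0]; exact h1
      · exact j'.elim0
    · rcases y with i' | i' | j'
      · rw [Subsingleton.elim i 0, Subsingleton.elim i' 0]; exact h1.symm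
      · rw [Subsingleton.elim i i']
      · exact j'.elim0
    · exact j.elim0
  have hcen : (⊤ : Subgroup (SurfaceGroup 1 0)) ≤ Subgroup.center _ := by
    rw [← closure_range_gen, Subgroup.closure_le]
    rintro _ ⟨x, rfl⟩
    rw [SetLike.mem_coe, Subgroup.mem_center_iff]
    intro z
    have : (⊤ : Subgroup (SurfaceGroup 1 0)) ≤ Subgroup.centralizer {gen x} := by
      rw [← closure_range_gen, Subgroup.closure_le]
      rintro _ ⟨y, rfl⟩
      rw [SetLike.mem_coe, Subgroup.mem_centralizer_singleton_iff]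
      exact hc _ _
    have h2 := this (Subgroup.mem_top z)
    rw [Subgroup.mem_centralizer_singleton_iff] at h2
    exact h2
  rw [eq_bot_iff, commutator_def, Subgroup.commutator_le]
  intro x _ y _
  rw [Subgroup.mem_bot, commutatorElement_eq_one_iff_mul_comm]
  exact Subgroup.mem_center_iff.1 (hcen (Subgroup.mem_top y)) x

theorem torus_upper (n : ℕ) : CovN 1 0 n 2 := by
  intro y
  obtain ⟨α, w, hw, hv⟩ := exists_decomp (g := 0) (p := 0) (ab y)
  have hYY : YY 0 0 = ZZ 0 0 := by
    refine le_antisymm ?_ ZZ_le_YY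
    unfold YY
    rw [Subgroup.closure_le]
    rintro _ ⟨x, hx, rfl⟩
    rcases x with i | i | j
    · exact absurd (congrArg Gen.a (Subsingleton.elim (α := Fin 1) i 0)) hx
    · rw [Subsingleton.elim (α := Fin 1) i 0]; exact Subgroup.mem_zpowers _
    · exact j.elim0
  rw [hYY] at hw
  obtain ⟨β, rfl⟩ := Subgroup.mem_zpowers_iff.1 hw
  have hPP : PP (g := 0) (p := 0) (ab (gen (.b 0)) ^ (β - 1)) :=
    PP_all (Subgroup.zpow_mem _ (gen_mem_YY (by simp)) _)
  obtain ⟨s, hs1, hs2⟩ := hPP
  refine ⟨![s, gen (.b 0) * gen (.a 0) ^ (α - 1)], ?_, ?_⟩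
  · intro i
    left
    fin_cases i
    · exact hs1
    · exact simple_b0a0 _
  · have h1 : y⁻¹ * (s * (gen (.b 0) * gen (.a 0) ^ (α - 1))) ∈ commutator (SurfaceGroup 1 0) := by
      refine ab_eq_one ?_
      have e1 : ab (y⁻¹ * (s * (gen (.b 0) * gen (.a 0) ^ (α - 1)))) =
          (ab y)⁻¹ * (ab s * (ab (gen (.b 0)) * ab (gen (.a 0)) ^ (α - 1))) := by
        simp only [ab, map_mul, map_inv, map_zpow]
      rw [e1, hs2, hv, zpow_sub_one, zpow_sub_one]
      generalize (ab (gen (.a 0)) : Abelianization (SurfaceGroup 1 0)) = A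
      generalize (ab (gen (.b 0)) : Abelianization (SurfaceGroup 1 0)) = B
      generalize A ^ α = A'
      generalize B ^ β = B'
      calc (A' * B')⁻¹ * (A * (B' * B⁻¹) * (B * (A' * A⁻¹)))
          = (A' * A'⁻¹) * (B' * B'⁻¹) * (A * A⁻¹) * (B * B⁻¹) := by
            simp only [mul_inv_rev, mul_assoc, mul_comm, mul_left_comm]
        _ = 1 := by simp
    rw [torus_comm, Subgroup.mem_bot] at h1
    have e2 : (List.ofFn ![s, gen (.b 0) * gen (.a 0) ^ (α - 1)]).prod =
        s * (gen (.b 0) * gen (.a 0) ^ (α - 1)) := by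
      simp [List.ofFn_succ]
    rw [e2, h1]
    exact Subgroup.one_mem _

/-- The sum of the coordinates on the torus. -/
def chi : SurfaceGroup 1 0 →* Multiplicative ℤ :=
  PresentedGroup.toGroup (f := fun _ => Multiplicative.ofAdd 1) (by
    intro r hr
    rw [Set.mem_singleton_iff] at hr
    subst hr
    rw [surfaceWord_map]
    simp [surfaceWord])

theorem chi_gen (x : Gen 1 0) : chi (gen x) = Multiplicative.ofAdd 1 :=
  PresentedGroup.toGroup.of _

theorem chi_comm {x : SurfaceGroup 1 0} (h : x ∈ commutator (SurfaceGroup 1 0)) : chi x = 1 :=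
  Abelianization.commutator_subset_ker chi h

theorem torus_lower {n : ℕ} (hn : 1 ≤ n) : ¬ CovN 1 0 n 1 := by
  intro h
  obtain ⟨l, hl1, hl2⟩ := h (gen (.a 0) ^ 2)
  have h1 : (gen (.a 0) ^ 2)⁻¹ * l 0 ∈ commutator (SurfaceGroup 1 0) := by
    have := lcs_antitone hn hl2
    rw [lcs_one] at this
    simpa [List.ofFn_succ] using this
  -- write `l 0` as a signed simple element
  obtain ⟨s', x, hx, hlx⟩ : ∃ (s' : Bool) (x : SurfaceGroup 1 0), x ∈ simpleElements 1 0 ∧
      l 0 = sg s' x := by
    rcases hl1 0 with h | h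
    · exact ⟨true, _, h, by simp [sg]⟩
    · exact ⟨false, _, h, by simp [sg]⟩
  obtain ⟨φ, -, s, rfl⟩ := hx
  rw [hlx] at h1
  -- apply the inverse of `φ`
  set u := φ⁻¹ (gen (.a 0)) with hu
  have h2 : (u ^ 2)⁻¹ * sg s' (curveWord gen s) ∈ commutator (SurfaceGroup 1 0) := by
    have h3 : φ⁻¹ ((gen (.a 0) ^ 2)⁻¹ * sg s' (φ (curveWord gen s))) ∈
        (commutator (SurfaceGroup 1 0)).map (φ⁻¹ : MulAut _).toMonoidHom :=
      Subgroup.mem_map_of_mem _ h1
    have h4 : (commutator (SurfaceGroup 1 0)).map (φ⁻¹ : MulAut _).toMonoidHom ≤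
        commutator (SurfaceGroup 1 0) := by
      rw [commutator_def, Subgroup.map_commutator]
      exact Subgroup.commutator_mono le_top le_top
    have h5 := h4 h3
    have e : φ⁻¹ ((gen (.a 0) ^ 2)⁻¹ * sg s' (φ (curveWord gen s))) =
        (u ^ 2)⁻¹ * sg s' (curveWord gen s) := by
      rw [map_mul, map_inv, map_pow, ← hu]
      congr 1
      cases s' <;> simp [sg]
    rwa [e] at h5
  have h3 := chi_comm h2
  rw [map_mul, map_inv, map_pow, map_sg] at h3
  -- pass to additive notation
  have h4 : ∃ e : ℤ, (e = 1 ∨ e = -1 ∨ (e = 0 ∧ curveWord gen s ∈ commutator (SurfaceGroup 1 0))) ∧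
      Multiplicative.toAdd (sg s' (chi (curveWord gen s))) = e := by
    rcases s with i | i | ⟨I, J⟩
    · cases s'
      · exact ⟨-1, by simp, by simp [sg, curveWord, chi_gen]⟩
      · exact ⟨1, by simp, by simp [sg, curveWord, chi_gen]⟩
    · cases s'
      · exact ⟨-1, by simp, by simp [sg, curveWord, chi_gen]⟩
      · exact ⟨1, by simp, by simp [sg, curveWord, chi_gen]⟩
    · have hmem : curveWord gen (Curve.sep I J) ∈ commutator (SurfaceGroup 1 0) := by
        unfold curveWord
        refine Subgroup.mul_mem _ ?_ ?_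
        · refine Subgroup.list_prod_mem _ ?_
          intro x hx
          obtain ⟨i, _, rfl⟩ := List.mem_map.1 hx
          exact Subgroup.commutator_mem_commutator (Subgroup.mem_top _) (Subgroup.mem_top _)
        · refine Subgroup.list_prod_mem _ ?_
          intro x hx
          obtain ⟨j, _, rfl⟩ := List.mem_map.1 hx
          exact j.elim0
      refine ⟨0, Or.inr (Or.inr ⟨rfl, hmem⟩), ?_⟩
      rw [chi_comm hmem]
      cases s' <;> simp [sg]
  obtain ⟨e, he, he'⟩ := h4
  have h5 : -(2 * Multiplicative.toAdd (chi u)) + e = 0 := by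
    have := congrArg Multiplicative.toAdd h3
    simp only [toAdd_mul, toAdd_inv, toAdd_pow, toAdd_one, he'] at this
    simpa using this
  rcases he with rfl | rfl | ⟨rfl, hmem⟩
  · omega
  · omega
  · -- `a ^ 2` would be a commutator
    have h6 : (gen (.a 0) ^ 2)⁻¹ * sg s' (φ (curveWord gen s)) ∈ commutator (SurfaceGroup 1 0) := h1
    have h7 : φ (curveWord gen s) ∈ commutator (SurfaceGroup 1 0) := by
      have h8 : φ (curveWord gen s) ∈
          (commutator (SurfaceGroup 1 0)).map φ.toMonoidHom := Subgroup.mem_map_of_mem _ hmem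
      have h9 : (commutator (SurfaceGroup 1 0)).map φ.toMonoidHom ≤
          commutator (SurfaceGroup 1 0) := by
        rw [commutator_def, Subgroup.map_commutator]
        exact Subgroup.commutator_mono le_top le_top
      exact h9 h8
    have h10 := chi_comm h6
    rw [map_mul, map_inv, map_pow, map_sg, chi_comm h7, chi_gen] at h10
    have := congrArg Multiplicative.toAdd h10
    cases s' <;> simp [sg] at this

theorem torus_main {n : ℕ} (hn : 1 ≤ n) : curveDiameter 1 0 n = 2 := by
  refine le_antisymm (curveDiameter_le_of_covN (torus_upper n)) ?_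
  have h3 : ¬ curveDiameter 1 0 n ≤ (1 : ℕ) := fun h => torus_lower hn (covN_of_curveDiameter_le h)
  rw [not_le] at h3
  have := Order.add_one_le_of_lt h3
  exact_mod_cast this

/-! ### Genus zero -/

theorem diameter_of_subsingleton {G : Type*} [Group G] [Subsingleton G] (T : Set G) :
    diameter T = 0 := by
  unfold diameter
  rw [← nonpos_iff_eq_zero]
  refine iSup_le fun x => ?_
  have := wordLength_le (T := T) (x := x) (l := []) (by simp) (Subsingleton.elim _ _)
  simpa using this

theorem sphere_zero (n : ℕ) : curveDiameter 0 0 n = 0 := by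
  have : ∀ x : SurfaceGroup 0 0, x = 1 := by
    intro x
    have h : (⊤ : Subgroup (SurfaceGroup 0 0)) ≤ ⊥ := by
      rw [← closure_range_gen, Subgroup.closure_le]
      rintro _ ⟨x, rfl⟩
      rcases x with i | i | j
      · exact i.elim0
      · exact i.elim0
      · exact j.elim0
    exact h (Subgroup.mem_top x)
  have hs : Subsingleton (SurfaceGroup 0 0) := ⟨fun x y => by rw [this x, this y]⟩
  have hs' : Subsingleton (SurfaceGroup 0 0 ⧸ lcs (SurfaceGroup 0 0) n) :=
    (QuotientGroup.mk_surjective).subsingleton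
  exact diameter_of_subsingleton _

theorem sphere_one (n : ℕ) : curveDiameter 0 1 n = 0 := by
  have hc : (gen (.c 0) : SurfaceGroup 0 1) = 1 := by
    have h := surfaceWord_gen (g := 0) (p := 1)
    simpa [surfaceWord, List.finRange_succ] using h
  have : ∀ x : SurfaceGroup 0 1, x = 1 := by
    intro x
    have h : (⊤ : Subgroup (SurfaceGroup 0 1)) ≤ ⊥ := by
      rw [← closure_range_gen, Subgroup.closure_le]
      rintro _ ⟨x, rfl⟩
      rcases x with i | i | j
      · exact i.elim0
      · exact i.elim0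
      · rw [Subsingleton.elim j 0, hc]; exact Subgroup.one_mem _
    exact h (Subgroup.mem_top x)
  have hs : Subsingleton (SurfaceGroup 0 1) := ⟨fun x y => by rw [this x, this y]⟩
  have hs' : Subsingleton (SurfaceGroup 0 1 ⧸ lcs (SurfaceGroup 0 1) n) :=
    (QuotientGroup.mk_surjective).subsingleton
  exact diameter_of_subsingleton _

/-- A functional on the homology of a punctured sphere. -/
def chi0val (p : ℕ) (j : Fin (p + 2)) : ℤ := if j = 0 then 1 else if j = 1 then -1 else 0

theorem chi0val_sum (p : ℕ) : ∑ j, chi0val p j = 0 := by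
  rw [Fin.sum_univ_succ, Fin.sum_univ_succ]
  have h1 : ∀ i : Fin p, chi0val p i.succ.succ = 0 := by
    intro i
    unfold chi0val
    rw [if_neg (Fin.succ_ne_zero _), if_neg]
    intro h
    have := congrArg Fin.val h
    simp at this
  simp only [h1, Finset.sum_const_zero, add_zero]
  unfold chi0val
  rw [if_pos rfl, if_neg (Fin.succ_ne_zero _), if_pos (by rfl)]
  ring

theorem chi0val_abs_sum_le (p : ℕ) (τ : Fin (p + 2) → ℤ) (hτ : ∀ j, |τ j| = 1)
    (σ : Equiv.Perm (Fin (p + 2))) (J : Finset (Fin (p + 2))) :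
    |∑ j ∈ J, τ j * chi0val p (σ j)| ≤ 2 := by
  calc |∑ j ∈ J, τ j * chi0val p (σ j)| ≤ ∑ j ∈ J, |τ j * chi0val p (σ j)| :=
        Finset.abs_sum_le_sum_abs _ _
    _ = ∑ j ∈ J, |chi0val p (σ j)| := by
        refine Finset.sum_congr rfl fun j _ => ?_
        rw [abs_mul, hτ, one_mul]
    _ ≤ ∑ j, |chi0val p (σ j)| :=
        Finset.sum_le_sum_of_subset_of_nonneg (Finset.subset_univ _) fun _ _ _ => abs_nonneg _
    _ = ∑ j, |chi0val p j| := Equiv.sum_comp σ fun j => |chi0val p j|
    _ = 2 := by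
        rw [Fin.sum_univ_succ, Fin.sum_univ_succ]
        have h1 : ∀ i : Fin p, chi0val p i.succ.succ = 0 := by
          intro i
          unfold chi0val
          rw [if_neg (Fin.succ_ne_zero _), if_neg]
          intro h
          have := congrArg Fin.val h
          simp at this
        simp only [h1, abs_zero, Finset.sum_const_zero, add_zero]
        unfold chi0val
        rw [if_pos rfl, if_neg (Fin.succ_ne_zero _), if_pos (by rfl)]
        norm_num

/-- The functional as a homomorphism. -/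
def chi0 (p : ℕ) : SurfaceGroup 0 (p + 2) →* Multiplicative ℤ :=
  PresentedGroup.toGroup (f := fun x => match x with
    | .a i => i.elim0
    | .b i => i.elim0
    | .c j => Multiplicative.ofAdd (chi0val p j)) (by
    intro r hr
    rw [Set.mem_singleton_iff] at hr
    subst hr
    rw [surfaceWord_map]
    simp only [surfaceWord, List.finRange_zero, List.map_nil, List.prod_nil, one_mul,
      FreeGroup.lift_apply_of]
    rw [← Fin.prod_univ_def, ← ofAdd_sum, chi0val_sum]
    rfl)

theorem chi0_gen (p : ℕ) (j : Fin (p + 2)) :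
    chi0 p (gen (.c j)) = Multiplicative.ofAdd (chi0val p j) :=
  PresentedGroup.toGroup.of _

theorem chi0_simple (p : ℕ) {x : SurfaceGroup 0 (p + 2)} (hx : x ∈ simpleElements 0 (p + 2)) :
    |Multiplicative.toAdd (chi0 p x)| ≤ 2 := by
  obtain ⟨φ, ⟨σ, hσ⟩, s, rfl⟩ := hx
  have h1 : ∀ j, ∃ τ : ℤ, |τ| = 1 ∧
      chi0 p (φ (gen (.c j))) = Multiplicative.ofAdd (τ * chi0val p (σ j)) := by
    intro j
    rcases hσ j with h | h
    · refine ⟨1, by simp, ?_⟩
      obtain ⟨c, hc⟩ := isConj_iff.1 h
      have := congrArg (chi0 p) hc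
      rw [map_mul, map_mul, map_inv, chi0_gen, mul_comm, inv_mul_cancel_left] at this
      rw [this, one_mul]
    · refine ⟨-1, by simp, ?_⟩
      obtain ⟨c, hc⟩ := isConj_iff.1 h
      have := congrArg (chi0 p) hc
      rw [map_mul, map_mul, map_inv, map_inv, chi0_gen, mul_comm, inv_mul_cancel_left] at this
      rw [this, neg_one_mul, ofAdd_neg]
  choose τ hτ1 hτ2 using h1
  rcases s with i | i | ⟨I, J⟩
  · exact i.elim0
  · exact i.elim0
  · have h2 : chi0 p (φ (curveWord gen (.sep I J))) =
        Multiplicative.ofAdd (∑ j ∈ J, τ j * chi0val p (σ j)) := by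
      have h0 := curveWord_map gen ((chi0 p).comp φ.toMonoidHom) (.sep I J)
      have h0' : chi0 p (φ (curveWord gen (.sep I J))) =
        curveWord (fun x => chi0 p (φ (gen x))) (.sep I J) := h0
      rw [h0']
      simp only [curveWord, List.finRange_zero, List.filter_nil, List.map_nil, List.prod_nil,
        one_mul]
      have h3 : (List.map (fun j => chi0 p (φ (gen (.c j))))
          (List.filter (fun j => decide (j ∈ J)) (List.finRange (p + 2)))).prod =
          ∏ j ∈ J, chi0 p (φ (gen (.c j))) := by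
        have hnd : (List.filter (fun j => decide (j ∈ J)) (List.finRange (p + 2))).Nodup :=
          (List.nodup_finRange _).filter _
        have h4 : (List.filter (fun j => decide (j ∈ J)) (List.finRange (p + 2))).toFinset = J := by
          ext j; simp
        rw [← List.prod_toFinset _ hnd, h4]
      rw [h3, ofAdd_sum]
      exact Finset.prod_congr rfl fun j _ => hτ2 j
    rw [h2, toAdd_ofAdd]
    exact chi0val_abs_sum_le p τ hτ1 σ J

theorem sphere_not_covN (p : ℕ) {n : ℕ} (hn : 1 ≤ n) (r : ℕ) : ¬ CovN 0 (p + 2) n r := by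
  intro h
  obtain ⟨l, hl1, hl2⟩ := h (gen (.c 0) ^ (2 * r + 1))
  have h1 : chi0 p ((gen (.c 0) ^ (2 * r + 1))⁻¹ * (List.ofFn l).prod) = 1 := by
    have := lcs_antitone hn hl2
    rw [lcs_one] at this
    exact Abelianization.commutator_subset_ker (chi0 p) this
  have h2 : ∀ i, |Multiplicative.toAdd (chi0 p (l i))| ≤ 2 := by
    intro i
    rcases hl1 i with h | h
    · exact chi0_simple p h
    · have := chi0_simple p h
      rwa [map_inv, toAdd_inv, abs_neg] at this
  rw [map_mul, map_inv, map_pow, chi0_gen, map_list_prod, List.map_ofFn, List.prod_ofFn,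
    inv_mul_eq_one] at h1
  have h3 := congrArg Multiplicative.toAdd h1
  rw [toAdd_pow, toAdd_ofAdd, toAdd_prod] at h3
  have h4 : |∑ i, Multiplicative.toAdd ((chi0 p ∘ l) i)| ≤ 2 * r := by
    calc |∑ i, Multiplicative.toAdd ((chi0 p ∘ l) i)|
        ≤ ∑ i, |Multiplicative.toAdd ((chi0 p ∘ l) i)| := Finset.abs_sum_le_sum_abs _ _
      _ ≤ ∑ _i : Fin r, (2 : ℤ) := Finset.sum_le_sum fun i _ => h2 i
      _ = 2 * r := by simp; ring
  rw [← h3] at h4
  have h5 : chi0val p 0 = 1 := by simp [chi0val]
  rw [h5, nsmul_eq_mul, mul_one] at h4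
  have h6 : |((2 * r + 1 : ℕ) : ℤ)| = 2 * r + 1 := by
    rw [abs_of_nonneg (by positivity)]; push_cast; ring
  rw [h6] at h4
  omega

theorem sphere_main (p : ℕ) {n : ℕ} (hn : 1 ≤ n) : curveDiameter 0 (p + 2) n = ⊤ := by
  rw [ENat.eq_top_iff_forall_gt]
  intro r
  by_contra h
  rw [not_lt] at h
  exact sphere_not_covN p hn r (covN_of_curveDiameter_le h)

end Pool.Agent.H344.SC
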